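import Mathlib

set_option autoImplicit false
set_option linter.unusedSectionVars false

/-!
# Weyl groups of finite root systems: positivity, exchange, induction
-/

open RootPairing Set

namespace Pool.Agent.CSMS

noncomputable section

variable {ι M N : Type*} [AddCommGroup M] [Module ℚ M] [AddCommGroup N] [Module ℚ N]
  {P : RootPairing ι ℚ M N}

/-- The reflection in the root with index `i`, as an element of the Weyl group. -/
abbrev s (P : RootPairing ι ℚ M N) (i : ι) : P.weylGroup := weylGroup.ofIdx P i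

lemma root_smul (w : P.weylGroup) (i : ι) : P.root (w • i) = w • P.root i := by
  exact Equiv.root_indexEquiv_eq_smul P i (w : P.Aut)

lemma s_smul (i : ι) (x : M) : s P i • x = P.reflection i x := rfl

lemma s_smul_idx (i j : ι) : s P i • j = P.reflectionPerm i j := rfl

lemma s_mul_s (i : ι) : s P i * s P i = 1 := by
  apply Subtype.ext
  show Equiv.reflection P i * Equiv.reflection P i = 1
  rw [mul_eq_one_iff_inv_eq, Equiv.reflection_inv]

@[simp] lemma s_s_smul (i : ι) (x : M) : s P i • s P i • x = x := by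
  rw [← mul_smul, s_mul_s, one_smul]

@[simp] lemma s_s_smul_idx (i : ι) (x : ι) : s P i • s P i • x = x := by
  rw [← mul_smul, s_mul_s, one_smul]

lemma mul_s_s (w : P.weylGroup) (i : ι) : w * s P i * s P i = w := by
  rw [mul_assoc, s_mul_s, mul_one]

lemma smul_faithful {w w' : P.weylGroup} (h : ∀ x : M, w • x = w' • x) : w = w' := by
  apply Subtype.ext
  apply Equiv.weightHom_injective P
  ext x
  exact h x

lemma pair_smul (w : P.weylGroup) (x : M) (i : ι) :
    P.toLinearMap (w • x) (P.coroot (w • i)) = P.toLinearMap x (P.coroot i) := by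
  have h1 := Hom.weight_coweight_transpose_apply P P (P.coroot (w • i)) (w : P.Aut).toHom
  have h2 := LinearMap.congr_fun h1 x
  rw [Hom.coroot_coweightMap_apply] at h2
  have h3 : (w : P.Aut).toHom.indexEquiv.symm (w • i) = i :=
    (w : P.Aut).toHom.indexEquiv.symm_apply_apply i
  rw [h3] at h2
  exact h2

lemma pair_smul' (w : P.weylGroup) (x : M) (i : ι) :
    P.toLinearMap (w • x) (P.coroot i) = P.toLinearMap x (P.coroot (w⁻¹ • i)) := by
  have := pair_smul w x (w⁻¹ • i)
  rwa [smul_inv_smul] at this

lemma smul_sub' (w : P.weylGroup) (x y : M) : w • (x - y) = w • x - w • y := by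
  rw [sub_eq_add_neg, smul_add, smul_neg, sub_eq_add_neg]

lemma smul_rat (w : P.weylGroup) (c : ℚ) (x : M) : w • (c • x) = c • (w • x) :=
  smul_comm (w : P.Aut) c x

lemma s_smul_eq (i : ι) (x : M) : s P i • x = x - P.toLinearMap x (P.coroot i) • P.root i := rfl

/-- Conjugation of reflections. -/
lemma conj_s (w : P.weylGroup) (i : ι) : s P (w • i) = w * s P i * w⁻¹ := by
  apply smul_faithful
  intro x
  rw [mul_smul, mul_smul, s_smul_eq, s_smul_eq, smul_sub', smul_inv_smul, smul_rat, ← root_smul,
    ← pair_smul w (w⁻¹ • x) i, smul_inv_smul]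

lemma s_conj (w : P.weylGroup) (i : ι) : w * s P i = s P (w • i) * w := by
  rw [conj_s, mul_assoc, inv_mul_cancel, mul_one]

lemma s_s_conj (j i : ι) : s P i * s P j = s P j * s P (s P j • i) := by
  rw [s_conj (s P j) (s P j • i), s_s_smul_idx]

/-! ## Positive roots -/

section Pos

variable (b : P.Base)

/-- The opposite root. -/
lemma root_opp (i : ι) : P.root (s P i • i) = - P.root i := by
  rw [s_smul_idx, root_reflectionPerm, reflection_apply_self]

lemma coroot_opp (i : ι) : P.coroot (s P i • i) = - P.coroot i := by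
  rw [s_smul_idx, coroot_reflectionPerm, coreflection_apply_self]

lemma smul_opp (w : P.weylGroup) (i : ι) : w • (s P i • i) = s P (w • i) • (w • i) := by
  rw [← mul_smul, s_conj, mul_smul]

lemma s_opp (i : ι) : s P (s P i • i) = s P i := by
  rw [conj_s, s_mul_s, one_mul, inv_eq_iff_mul_eq_one, s_mul_s]

lemma opp_pos_iff (i : ι) : b.IsPos (s P i • i) ↔ ¬ b.IsPos i :=
  Base.IsPos.neg_iff_not b i

lemma opp_opp (i : ι) : s P (s P i • i) • (s P i • i) = i := by
  rw [s_opp, s_s_smul_idx]

variable [Finite ι] [P.IsCrystallographic] [P.IsReduced]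

variable {b}

lemma pos_s {i j : ι} (hi : b.IsPos i) (hj : j ∈ b.support) (hij : i ≠ j) :
    b.IsPos (s P j • i) := hi.reflectionPerm hj hij

lemma eq_of_not_pos_s {i j : ι} (hi : b.IsPos i) (hj : j ∈ b.support)
    (h : ¬ b.IsPos (s P j • i)) : i = j := by
  by_contra hij
  exact h (pos_s hi hj hij)

/-- The product of a word. -/
def wprod (l : List ι) : P.weylGroup := (l.map (s P)).prod

lemma wprod_nil : (wprod [] : P.weylGroup) = 1 := rfl

lemma wprod_cons (a : ι) (l : List ι) : (wprod (a :: l) : P.weylGroup) = s P a * wprod l := by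
  simp [wprod]

lemma wprod_append (l l' : List ι) :
    (wprod (l ++ l') : P.weylGroup) = wprod l * wprod l' := by
  simp [wprod]

lemma wprod_single (a : ι) : (wprod [a] : P.weylGroup) = s P a := by
  simp [wprod]

/-- The exchange property. -/
lemma exch (l : List ι) (hl : ∀ a ∈ l, a ∈ b.support) (j : ι) (hj : j ∈ b.support)
    (h : ¬ b.IsPos ((wprod l : P.weylGroup) • j)) :
    ∃ l' : List ι, (∀ a ∈ l', a ∈ b.support) ∧ l'.length + 1 = l.length ∧
      (wprod l : P.weylGroup) * s P j = wprod l' := by
  induction l with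
  | nil =>
    rw [wprod_nil, one_smul] at h
    exact absurd (Base.isPos_of_mem_support hj) h
  | cons a t ih =>
    by_cases hp : b.IsPos ((wprod t : P.weylGroup) • j)
    · have h1 : (wprod t : P.weylGroup) • j = a := by
        refine eq_of_not_pos_s hp (hl a (by simp)) ?_
        rw [wprod_cons, mul_smul] at h
        exact h
      refine ⟨t, fun x hx => hl x (by simp [hx]), by simp, ?_⟩
      rw [wprod_cons, mul_assoc, s_conj, h1, ← mul_assoc, s_mul_s, one_mul]
    · obtain ⟨t', h1, h2, h3⟩ := ih (fun x hx => hl x (by simp [hx])) hp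
      refine ⟨a :: t', ?_, by simp [h2], ?_⟩
      · intro x hx
        rcases List.mem_cons.1 hx with rfl | hx
        · exact hl x (by simp)
        · exact h1 x hx
      · rw [wprod_cons, mul_assoc, h3, wprod_cons]

lemma wprod_inv (l : List ι) : (wprod l : P.weylGroup)⁻¹ = wprod l.reverse := by
  induction l with
  | nil => simp [wprod]
  | cons a t ih =>
    rw [wprod_cons, mul_inv_rev, ih, List.reverse_cons, wprod_append, wprod_single,
      inv_eq_iff_mul_eq_one.2 (s_mul_s a)]

variable (b) in
lemma exists_word_s (i : ι) :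
    ∃ l : List ι, (∀ a ∈ l, a ∈ b.support) ∧ s P i = (wprod l : P.weylGroup) := by
  refine b.induction_reflect i (p := fun i => ∃ l : List ι, (∀ a ∈ l, a ∈ b.support) ∧
    s P i = (wprod l : P.weylGroup)) ?_ ?_ ?_
  · rintro i ⟨l, h1, h2⟩
    refine ⟨l, h1, ?_⟩
    rw [← h2]
    exact s_opp i
  · intro i hi
    exact ⟨[i], by simpa using hi, (wprod_single i).symm⟩
  · rintro i j ⟨l, h1, h2⟩ hj
    refine ⟨[j] ++ l ++ [j], ?_, ?_⟩
    · intro x hx
      simp only [List.append_assoc, List.mem_append, List.mem_singleton] at hx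
      rcases hx with rfl | hx | rfl
      · exact hj
      · exact h1 x hx
      · exact hj
    · rw [wprod_append, wprod_append, wprod_single, ← h2]
      have := conj_s (s P j) i
      rw [inv_eq_iff_mul_eq_one.2 (s_mul_s j)] at this
      exact this

variable (b) in
lemma exists_word (w : P.weylGroup) :
    ∃ l : List ι, (∀ a ∈ l, a ∈ b.support) ∧ w = (wprod l : P.weylGroup) := by
  obtain ⟨g, hg⟩ := w
  induction hg using weylGroup.induction with
  | mem i => exact exists_word_s b i
  | one => exact ⟨[], by simp, rfl⟩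
  | mul x y hx hy h1 h2 =>
    obtain ⟨l, a1, a2⟩ := h1
    obtain ⟨l', b1, b2⟩ := h2
    refine ⟨l ++ l', ?_, ?_⟩
    · intro z hz
      rcases List.mem_append.1 hz with hz | hz
      · exact a1 z hz
      · exact b1 z hz
    · rw [wprod_append, ← a2, ← b2]
      rfl

/-- Ascending induction. -/
lemma asc_word {p : P.weylGroup → Prop} (h1 : p 1)
    (h2 : ∀ w : P.weylGroup, ∀ j ∈ b.support, p w → b.IsPos (w • j) → p (w * s P j)) (n : ℕ) :
    ∀ l : List ι, l.length = n → (∀ a ∈ l, a ∈ b.support) → p (wprod l) := by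
  induction n using Nat.strong_induction_on with
  | _ n ih =>
    intro l hl ha
    rcases l.eq_nil_or_concat' with rfl | ⟨l₀, j, rfl⟩
    · exact h1
    · have ha0 : ∀ a ∈ l₀, a ∈ b.support := fun a h => ha a (by simp [h])
      have haj : j ∈ b.support := ha j (by simp)
      rw [List.length_append, List.length_singleton] at hl
      rw [wprod_append, wprod_single]
      by_cases hp : b.IsPos ((wprod l₀ : P.weylGroup) • j)
      · exact h2 _ j haj (ih l₀.length (by omega) l₀ rfl ha0) hp
      · obtain ⟨l', c1, c2, c3⟩ := exch l₀ ha0 j haj hp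
        rw [c3]
        exact ih l'.length (by omega) l' rfl c1

/-- Ascending induction. -/
theorem asc_ind {p : P.weylGroup → Prop} (h1 : p 1)
    (h2 : ∀ w : P.weylGroup, ∀ j ∈ b.support, p w → b.IsPos (w • j) → p (w * s P j))
    (w : P.weylGroup) : p w := by
  obtain ⟨l, hl, rfl⟩ := exists_word b w
  exact asc_word h1 h2 l.length l rfl hl

/-- Induction on all neighbours. -/
theorem gen_ind {p : P.weylGroup → Prop} (h1 : p 1)
    (h2 : ∀ w : P.weylGroup, ∀ j ∈ b.support, p w → p (w * s P j))
    (w : P.weylGroup) : p w :=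
  asc_ind (b := b) h1 (fun w j hj hw _ => h2 w j hj hw) w

variable (b) in
/-- The length. -/
def len (w : P.weylGroup) : ℕ :=
  sInf {n | ∃ l : List ι, l.length = n ∧ (∀ a ∈ l, a ∈ b.support) ∧ w = wprod l}

variable (b) in
lemma len_spec (w : P.weylGroup) :
    ∃ l : List ι, l.length = len b w ∧ (∀ a ∈ l, a ∈ b.support) ∧ w = wprod l := by
  have h : {n | ∃ l : List ι, l.length = n ∧ (∀ a ∈ l, a ∈ b.support) ∧
      w = wprod l}.Nonempty := by
    obtain ⟨l, h1, h2⟩ := exists_word b w
    exact ⟨l.length, l, rfl, h1, h2⟩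
  exact Nat.sInf_mem h

lemma len_le (l : List ι) (hl : ∀ a ∈ l, a ∈ b.support) :
    len b (wprod l : P.weylGroup) ≤ l.length :=
  Nat.sInf_le ⟨l, rfl, hl, rfl⟩

variable (b) in
lemma len_one : len b (1 : P.weylGroup) = 0 := by
  have := len_le (b := b) (P := P) [] (by simp)
  simpa [wprod_nil] using this

lemma len_mul_le (w : P.weylGroup) {j : ι} (hj : j ∈ b.support) :
    len b (w * s P j) ≤ len b w + 1 := by
  obtain ⟨l, h1, h2, h3⟩ := len_spec b w
  have := len_le (b := b) (l ++ [j]) (by
    intro a ha
    rcases List.mem_append.1 ha with ha | ha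
    · exact h2 a ha
    · rw [List.mem_singleton] at ha
      rw [ha]
      exact hj)
  rw [wprod_append, wprod_single, ← h3] at this
  simpa [h1] using this

lemma len_desc (w : P.weylGroup) {j : ι} (hj : j ∈ b.support) (h : ¬ b.IsPos (w • j)) :
    len b (w * s P j) + 1 = len b w := by
  obtain ⟨l, h1, h2, h3⟩ := len_spec b w
  rw [h3] at h
  obtain ⟨l', c1, c2, c3⟩ := exch l h2 j hj h
  have h4 := len_le (b := b) l' c1
  rw [← c3, ← h3] at h4
  have h5 := len_mul_le (b := b) (w * s P j) hj
  rw [mul_s_s] at h5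
  omega

end Pos

end

end Pool.Agent.CSMS
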