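import Pool.Agent.CSMS.Defs

set_option autoImplicit false

/-!
# Products of totally disconnected blocks
-/

open RootPairing
open scoped Classical

namespace Pool.Agent.CSMS

noncomputable section

variable {ι M N : Type*} [AddCommGroup M] [Module ℚ M] [AddCommGroup N] [Module ℚ N]
  {P : RootPairing ι ℚ M N} [P.IsCrystallographic]

/-- `Blocks b v J`: the Weyl group element `v` is a product of blocks, each block is a simple
reflection `s_i` or a product `s_k s_i` of two different, non-orthogonal simple reflections, the
simple roots of different blocks are orthogonal, and `J` is the set of all the simple roots that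
occur in the blocks. -/
inductive Blocks (b : P.Base) : P.weylGroup → Set ι → Prop
  | one : Blocks b 1 ∅
  | single {v : P.weylGroup} {J : Set ι} {i : ι} (hv : Blocks b v J) (hi : i ∈ b.support)
      (h : ∀ a ∈ J, P.pairingIn ℤ a i = 0) :
      Blocks b (v * weylGroup.ofIdx P i) (insert i J)
  | pair {v : P.weylGroup} {J : Set ι} {i k : ι} (hv : Blocks b v J) (hi : i ∈ b.support)
      (hk : k ∈ b.support) (hik : i ≠ k) (hadj : P.pairingIn ℤ k i ≠ 0)
      (h : ∀ a ∈ J, P.pairingIn ℤ a i = 0 ∧ P.pairingIn ℤ a k = 0) :
      Blocks b (v * (weylGroup.ofIdx P k * weylGroup.ofIdx P i)) (insert i (insert k J))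

end

end Pool.Agent.CSMS
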