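import Pool.Agent.CSMS.Indep

set_option autoImplicit false
set_option linter.unusedSectionVars false

/-!
# The equivariant Chevalley formula for CSM classes
-/

open RootPairing Set Module
open scoped Classical

namespace Pool.Agent.CSMS

noncomputable section

variable {ι M N : Type*} [AddCommGroup M] [Module ℚ M] [AddCommGroup N] [Module ℚ N]
  {P : RootPairing ι ℚ M N} [Fintype ι] [P.IsRootSystem] [P.IsCrystallographic] [P.IsReduced]
  {b : P.Base} {e : P.weylGroup → P.weylGroup → MvPolynomial b.support ℚ}

lemma pos_s_iff {i j : ι} (hj : j ∈ b.support) (h1 : i ≠ j) (h2 : i ≠ s P j • j) :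
    b.IsPos (s P j • i) ↔ b.IsPos i := by
  refine ⟨fun h => ?_, fun h => pos_s h hj h1⟩
  have h3 : s P j • i ≠ j := by
    intro h4
    apply h2
    rw [← s_s_smul_idx (P := P) j i, h4]
  have := pos_s h hj h3
  rwa [s_s_smul_idx] at this

lemma opp_ne (j : ι) : s P j • j ≠ j := by
  intro h
  have h1 := root_opp (P := P) j
  rw [h] at h1
  have h2 : (2 : ℚ) • P.root j = 0 := by
    rw [two_smul]
    nth_rewrite 1 [h1]
    rw [neg_add_cancel]
  exact P.ne_zero j ((smul_eq_zero.1 h2).resolve_left two_ne_zero)

lemma sum_pos_s {R : Type*} [AddCommGroup R] {j : ι} (hj : j ∈ b.support) (F : ι → R) :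
    (∑ i, if b.IsPos (s P j • i) then F i else 0) =
      (∑ i, if b.IsPos i then F i else 0) + (F (s P j • j) - F j) := by
  rw [← sub_eq_iff_eq_add', ← Finset.sum_sub_distrib,
    Finset.sum_eq_add (s P j • j) j (opp_ne j)]
  · have h1 : b.IsPos j := Base.isPos_of_mem_support hj
    have h2 : ¬ b.IsPos (s P j • j) := by
      rw [opp_pos_iff]
      exact not_not.2 h1
    rw [s_s_smul_idx, if_pos h1, if_neg h2, if_neg h2, if_pos h1]
    abel
  · rintro i - ⟨h1, h2⟩
    rw [if_congr (pos_s_iff hj h2 h1) rfl rfl, sub_self]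
  · intro h
    exact absurd (Finset.mem_univ _) h
  · intro h
    exact absurd (Finset.mem_univ _) h

lemma sum_reindex {R : Type*} [AddCommMonoid R] (j : ι) (f : ι → R) :
    ∑ i, f (s P j • i) = ∑ i, f i :=
  Equiv.sum_comp (MulAction.toPerm (s P j)) f

/-- The pairing of a weight and a coroot. -/
abbrev pr (P : RootPairing ι ℚ M N) (x : M) (i : ι) : ℚ := P.toLinearMap x (P.coroot i)

lemma pr_smul (w : P.weylGroup) (x : M) (i : ι) : pr P (w • x) (w • i) = pr P x i :=
  pair_smul w x i

lemma lin_smul (c : ℚ) (x : M) : lin b (c • x) = MvPolynomial.C c * lin b x := by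
  rw [LinearMap.map_smul, MvPolynomial.smul_eq_C_mul]

/-- The right hand side of the Chevalley formula. -/
def chevSum (e : P.weylGroup → P.weylGroup → MvPolynomial b.support ℚ) (u : P.weylGroup)
    (x : M) (z : P.weylGroup) : MvPolynomial b.support ℚ :=
  ∑ i, if b.IsPos i then (if b.IsPos (u • i) then
    MvPolynomial.C (pr P x i) * e (u * s P i) z else 0) else 0

lemma chev_reindex (u : P.weylGroup) {j : ι} (hj : j ∈ b.support) (x : M) (z : P.weylGroup) :
    chevSum e (u * s P j) (s P j • x) z =
      (∑ i, if b.IsPos i then (if b.IsPos (u • i) then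
        MvPolynomial.C (pr P x i) * e (u * s P i * s P j) z else 0) else 0) -
      MvPolynomial.C (pr P x j) * e u z := by
  unfold chevSum
  rw [← sum_reindex (P := P) j]
  have h1 : ∀ i : ι, (if b.IsPos (s P j • i) then (if b.IsPos ((u * s P j) • s P j • i) then
      MvPolynomial.C (pr P (s P j • x) (s P j • i)) * e (u * s P j * s P (s P j • i)) z else 0)
      else 0) = if b.IsPos (s P j • i) then (if b.IsPos (u • i) then
        MvPolynomial.C (pr P x i) * e (u * s P i * s P j) z else 0) else 0 := by
    intro i
    rw [mul_smul, s_s_smul_idx, pr_smul, mul_assoc, ← s_s_conj, ← mul_assoc]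
  rw [Finset.sum_congr rfl fun i _ => h1 i, sum_pos_s hj, sub_eq_add_neg]
  have h2 : b.IsPos (u • s P j • j) ↔ ¬ b.IsPos (u • j) := by
    rw [smul_opp, opp_pos_iff]
  have h3 : pr P x (s P j • j) = - pr P x j := by
    rw [pr, coroot_opp, map_neg]
  rw [s_opp, mul_s_s, h3, map_neg]
  by_cases h : b.IsPos (u • j)
  · rw [if_neg (by rw [h2]; exact not_not.2 h), if_pos h]
    ring
  · rw [if_pos (h2.2 h), if_neg h]
    ring

/-- The equivariant Chevalley formula. -/
theorem chevalley (he : IsCSM b e) (u : P.weylGroup) :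
    ∀ (x : M) (z : P.weylGroup),
      (lin b (u • x) - lin b (z • x)) * e u z = chevSum e u x z := by
  obtain ⟨w₀, h0⟩ := exists_longest b
  refine desc_ind (b := b) (p := fun u => ∀ (x : M) (z : P.weylGroup),
    (lin b (u • x) - lin b (z • x)) * e u z = chevSum e u x z) h0 ?_ ?_ u
  · intro x z
    have h1 : chevSum e w₀ x z = 0 := by
      refine Finset.sum_eq_zero fun i _ => ?_
      split_ifs with h2 h3
      · exact absurd h3 (h0 i h2)
      · rfl
      · rfl
    rw [h1, he.top w₀ h0]
    split_ifs with h2
    · rw [h2, sub_self, zero_mul]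
    · rw [mul_zero]
  · intro u j hj ih _ x' z
    obtain ⟨x, rfl⟩ : ∃ x, x' = s P j • x := ⟨s P j • x', (s_s_smul j x').symm⟩
    rw [chev_reindex u hj]
    set t := lin b (z • P.root j) with ht
    set c := MvPolynomial.C (σ := b.support) (pr P x j) with hc
    have ht0 : t ≠ 0 := lin_root_ne_zero b z j
    have hz : lin b (z • s P j • x) = lin b (z • x) - c * t := by
      rw [s_smul_eq, smul_sub', smul_rat, map_sub, lin_smul]
    have e1 := ih x z
    have e2 := ih x (z * s P j)
    rw [mul_smul, hz] at e2
    have key : t * (∑ i, if b.IsPos i then (if b.IsPos (u • i) then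
        MvPolynomial.C (pr P x i) * e (u * s P i * s P j) z else 0) else 0) =
        (1 - t) * chevSum e u x (z * s P j) - chevSum e u x z := by
      unfold chevSum
      rw [Finset.mul_sum, Finset.mul_sum, ← Finset.sum_sub_distrib]
      refine Finset.sum_congr rfl fun i _ => ?_
      split_ifs with h1 h2
      · have := he.step (u * s P i) z j hj
        change t * (e (u * s P i * s P j) z + e (u * s P i) (z * s P j)) =
          e (u * s P i) (z * s P j) - e (u * s P i) z at this
        linear_combination MvPolynomial.C (pr P x i) * this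
      · ring
      · ring
    have h3 := he.step u z j hj
    change t * (e (u * s P j) z + e u (z * s P j)) = e u (z * s P j) - e u z at h3
    apply mul_left_cancel₀ ht0
    rw [mul_sub, key, ← e1, ← e2, hz, mul_smul, s_s_smul]
    linear_combination (lin b (u • x) - (lin b (z • x) - c * t)) * h3

end

end Pool.Agent.CSMS
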