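import Mathlib

set_option autoImplicit false

/-!
# Localisations of Schubert classes and of Chern-Schwartz-MacPherson classes

Let `P` be a finite reduced crystallographic root system with base `b` and Weyl group `W`, and let
`S = ℚ[α_i]` be the polynomial ring in the simple roots. A class in the `T`-equivariant cohomology
of `G/B` (with rational coefficients, `T` the maximal torus of the adjoint group) is determined by
its localisations at the fixed points `u ∈ W`: it is a function `W → S`.

* The localisations `y v u = [Y(v)]|_u` are determined by the recursion of Kostant and Kumar: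
  `∂_i [Y(v)] = [Y(v s_i)]` if `v s_i < v`, and `∂_i [Y(v)] = 0` otherwise, `[Y(v)]|_1 = δ_{v,1}`,
  where `(∂_i f)(u) = (f (u s_i) - f u) / (u α_i)`.
* The localisations `e w u = c_SM(Y(w)°)|_u` are determined by the recursion of Aluffi, Mihalcea,
  Schuermann and Su: `(∂_i - s_i) c_SM(Y(w)°) = c_SM(Y(w s_i)°)`, where `(s_i f)(u) = f (u s_i)`, and
  by the class `c_SM(Y(w₀)°) = [Y(w₀)]` of the fixed point `w₀`, whose localisation is `0` at
  `u ≠ w₀` and the product of the positive roots at `w₀`.
-/

open RootPairing
open scoped Classical

namespace Pool.Agent.CSMS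

noncomputable section

variable {ι M N : Type*} [AddCommGroup M] [Module ℚ M] [AddCommGroup N] [Module ℚ N]
  {P : RootPairing ι ℚ M N} [P.IsRootSystem] (b : P.Base)

/-- The linear form of a weight: the simple roots are the variables. -/
def lin : M →ₗ[ℚ] MvPolynomial b.support ℚ := b.toWeightBasis.constr ℚ MvPolynomial.X

/-- `e w u` is the localisation at `u` of the equivariant Chern-Schwartz-MacPherson class of the
opposite Schubert cell `Y(w)°`. -/
structure IsCSM [Fintype ι] (e : P.weylGroup → P.weylGroup → MvPolynomial b.support ℚ) :
    Prop where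
  top : ∀ w : P.weylGroup, (∀ i, b.IsPos i → ¬ b.IsPos (w • i)) → ∀ u,
    e w u = if u = w then ∏ i with b.IsPos i, lin b (P.root i) else 0
  step : ∀ w u : P.weylGroup, ∀ i ∈ b.support,
    lin b (u • P.root i) * (e (w * weylGroup.ofIdx P i) u + e w (u * weylGroup.ofIdx P i)) =
      e w (u * weylGroup.ofIdx P i) - e w u

/-- `y v u` is the localisation at `u` of the equivariant class of the opposite Schubert
variety `Y(v)`. -/
structure IsSchubert (y : P.weylGroup → P.weylGroup → MvPolynomial b.support ℚ) :
    Prop where
  one : ∀ v, y v 1 = if v = 1 then 1 else 0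
  step : ∀ v u : P.weylGroup, ∀ i ∈ b.support,
    y v (u * weylGroup.ofIdx P i) - y v u =
      if b.IsPos (v • i) then 0 else lin b (u • P.root i) * y (v * weylGroup.ofIdx P i) u

end

end Pool.Agent.CSMS
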