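import Pool.Agent.CSMS.Mult

set_option autoImplicit false
set_option linter.unusedSectionVars false

/-!
# Expansions: existence, integrality, positivity
-/

open RootPairing Set Module
open scoped Classical

namespace Pool.Agent.CSMS

noncomputable section

variable {ι M N : Type*} [AddCommGroup M] [Module ℚ M] [AddCommGroup N] [Module ℚ N]
  {P : RootPairing ι ℚ M N} [Fintype ι] [P.IsRootSystem] [P.IsCrystallographic] [P.IsReduced]
  {b : P.Base} {e y : P.weylGroup → P.weylGroup → MvPolynomial b.support ℚ}
  [Fintype P.weylGroup]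

/-- Multiplication by `f` has nonnegative coefficients in the basis `e`. -/
def PosFun (e : P.weylGroup → P.weylGroup → MvPolynomial b.support ℚ)
    (f : P.weylGroup → MvPolynomial b.support ℚ) : Prop :=
  ∀ u, ∃ A : P.weylGroup → MvPolynomial b.support ℚ, (∀ w, NN (A w)) ∧
    ∀ z, f z * e u z = ∑ w, A w * e w z

lemma PosFun.congr {f g : P.weylGroup → MvPolynomial b.support ℚ} (hf : PosFun e f)
    (h : ∀ z, g z = f z) : PosFun e g := by
  intro u
  obtain ⟨A, h1, h2⟩ := hf u
  exact ⟨A, h1, fun z => by rw [h, h2]⟩

lemma PosFun.one : PosFun e (fun _ => 1) := by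
  intro u
  refine ⟨fun w => if u = w then 1 else 0, fun w => ?_, fun z => ?_⟩
  · dsimp only
    split_ifs
    · exact NN.one
    · exact NN.zero
  · simp

lemma PosFun.mul {f g : P.weylGroup → MvPolynomial b.support ℚ} (hf : PosFun e f)
    (hg : PosFun e g) : PosFun e (fun z => f z * g z) := by
  intro u
  obtain ⟨A, hA, hA'⟩ := hg u
  choose B hB hB' using hf
  refine ⟨fun w => ∑ v, A v * B v w, fun w => NN.sum fun v _ => (hA v).mul (hB v w),
    fun z => ?_⟩
  rw [mul_assoc, hA' z, Finset.mul_sum]
  have h1 : ∀ v, f z * (A v * e v z) = ∑ w, A v * B v w * e w z := by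
    intro v
    rw [mul_left_comm, hB' v z, Finset.mul_sum]
    exact Finset.sum_congr rfl fun w _ => by ring
  rw [Finset.sum_congr rfl fun v _ => h1 v, Finset.sum_comm]
  exact Finset.sum_congr rfl fun w _ => by rw [Finset.sum_mul]

lemma posFun_s (he : IsCSM b e) (i : b.support) :
    PosFun e (fun z => lin b (om b i) - lin b (z • om b i)) := by
  intro u
  refine ⟨fun w => (if u = w then lin b (om b i - u • om b i) else 0) +
    ∑ β ∈ I b u, if u * s P β = w then MvPolynomial.C (ccf b i (P.coroot β)) else 0,
    fun w => ?_, fun z => ?_⟩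
  · refine NN.add ?_ (NN.sum fun β hβ => ?_)
    · split_ifs
      · exact lin_NN b fun j => om_sub i j u
      · exact NN.zero
    · split_ifs
      · exact NN.C (pos_ccf_nonneg b (mem_I.1 hβ).1 i)
      · exact NN.zero
  · simp only [add_mul, Finset.sum_add_distrib]
    rw [← collect (I b u) (fun β => (MvPolynomial.C (ccf b i (P.coroot β)) :
      MvPolynomial b.support ℚ)) (fun β => u * s P β) (fun w => e w z)]
    have h1 := chev' he u (om b i) z
    have h2 : ∀ w, (if u = w then lin b (om b i - u • om b i) else 0) * e w z =
        if u = w then lin b (om b i - u • om b i) * e w z else 0 := by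
      intro w
      split_ifs <;> simp
    rw [Finset.sum_congr rfl fun w _ => h2 w, Finset.sum_ite_eq, if_pos (Finset.mem_univ _),
      map_sub]
    have h3 : ∑ β ∈ I b u, MvPolynomial.C (pr P (om b i) β) * e (u * s P β) z =
        ∑ β ∈ I b u, MvPolynomial.C (ccf b i (P.coroot β)) * e (u * s P β) z := by
      refine Finset.sum_congr rfl fun β _ => ?_
      unfold pr
      rw [om_pair]
    rw [h3] at h1
    linear_combination -h1

lemma posFun_pair (he : IsCSM b e) (hy : IsSchubert b y) {i k : b.support} (hik : i ≠ k)
    (hadj : P.pairingIn ℤ (k : ι) (i : ι) ≠ 0) : PosFun e (y (s P (k : ι) * s P (i : ι))) := by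
  have hadj' : P.pairingIn ℤ (i : ι) (k : ι) ≠ 0 := fun h => hadj (pin_symm_zero _ _ h)
  obtain ⟨c, lam, hq⟩ := exists_adapted i k hik hadj'
  intro u
  refine ⟨fun w => (if u = w then y (s P (k : ι) * s P (i : ι)) u else 0) +
    (∑ β ∈ I b u, if u * s P β = w then
      lin b (ccf b i (P.coroot β) • om b k - u • qmu P c lam β) else 0) +
    ∑ p ∈ paths b u, if u * s P p.1 * s P p.2 = w then
      (MvPolynomial.C (qB P c lam (P.coroot p.1) (P.coroot p.2)) :
        MvPolynomial b.support ℚ) else 0, fun w => ?_, fun z => ?_⟩
  · refine (NN.add ?_ (NN.sum fun β hβ => ?_)).add ?_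
    · split_ifs
      · exact schub_NN hy u _
      · exact NN.zero
    · split_ifs
      · exact lin_NN b fun l => mu_pos hq hik (mem_I.1 hβ).1 u l
      · exact NN.zero
    · have h1 : ∑ p ∈ paths b u, (if u * s P p.1 * s P p.2 = w then
          (MvPolynomial.C (qB P c lam (P.coroot p.1) (P.coroot p.2)) :
            MvPolynomial b.support ℚ) else 0) =
          MvPolynomial.C (∑ p ∈ paths b u, (if u * s P p.1 * s P p.2 = w then
            qB P c lam (P.coroot p.1) (P.coroot p.2) else 0)) := by
        rw [map_sum]
        refine Finset.sum_congr rfl fun p _ => ?_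
        split_ifs
        · rfl
        · rw [map_zero]
      rw [h1]
      exact NN.C (path_sum he hq hik u w)
  · simp only [add_mul, Finset.sum_add_distrib]
    rw [← collect (I b u) (fun β => lin b (ccf b i (P.coroot β) • om b k -
      u • qmu P c lam β)) (fun β => u * s P β) (fun w => e w z),
      ← collect (paths b u) (fun p => (MvPolynomial.C (qB P c lam (P.coroot p.1)
        (P.coroot p.2)) : MvPolynomial b.support ℚ)) (fun p => u * s P p.1 * s P p.2)
        (fun w => e w z)]
    have h2 : ∀ w, (if u = w then y (s P (k : ι) * s P (i : ι)) u else 0) * e w z =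
        if u = w then y (s P (k : ι) * s P (i : ι)) u * e w z else 0 := by
      intro w
      split_ifs <;> simp
    rw [Finset.sum_congr rfl fun w _ => h2 w, Finset.sum_ite_eq, if_pos (Finset.mem_univ _)]
    have h3 := sq_formula he c lam u z
    rw [sum_paths u (fun i k => MvPolynomial.C (qB P c lam (P.coroot i) (P.coroot k)) *
      e (u * s P i * s P k) z)] at h3
    have h4 := chev' he u (om b i) z
    have h5 : ∑ β ∈ I b u, lin b (ccf b i (P.coroot β) • om b k - u • qmu P c lam β) *
        e (u * s P β) z = lin b (om b k) *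
        ∑ β ∈ I b u, MvPolynomial.C (pr P (om b i) β) * e (u * s P β) z -
        ∑ β ∈ I b u, lin b (u • qmu P c lam β) * e (u * s P β) z := by
      rw [Finset.mul_sum, ← Finset.sum_sub_distrib]
      refine Finset.sum_congr rfl fun β _ => ?_
      rw [map_sub, lin_smul]
      unfold pr
      rw [om_pair]
      ring
    rw [h5, schub_pair hy hq hik hadj z, schub_pair hy hq hik hadj u]
    linear_combination h3 - lin b (om b k) * h4

/-! ## Existence and integrality for all `v` -/

/-- The function `F` is an integral combination of the `e w`. -/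
def IntF (e : P.weylGroup → P.weylGroup → MvPolynomial b.support ℚ)
    (F : P.weylGroup → MvPolynomial b.support ℚ) : Prop :=
  ∃ A : P.weylGroup → MvPolynomial b.support ℚ, (∀ w, IsInt (A w)) ∧
    ∀ z, F z = ∑ w, A w * e w z

lemma IntF.congr {F G : P.weylGroup → MvPolynomial b.support ℚ} (hF : IntF e F)
    (h : ∀ z, G z = F z) : IntF e G := by
  obtain ⟨A, h1, h2⟩ := hF
  exact ⟨A, h1, fun z => by rw [h, h2]⟩

lemma IntF.add {F G : P.weylGroup → MvPolynomial b.support ℚ} (hF : IntF e F)
    (hG : IntF e G) : IntF e (fun z => F z + G z) := by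
  obtain ⟨A, h1, h2⟩ := hF
  obtain ⟨B, h3, h4⟩ := hG
  refine ⟨fun w => A w + B w, fun w => (h1 w).add (h3 w), fun z => ?_⟩
  dsimp only
  rw [h2, h4, ← Finset.sum_add_distrib]
  exact Finset.sum_congr rfl fun w _ => by ring

lemma IntF.sub {F G : P.weylGroup → MvPolynomial b.support ℚ} (hF : IntF e F)
    (hG : IntF e G) : IntF e (fun z => F z - G z) := by
  obtain ⟨A, h1, h2⟩ := hF
  obtain ⟨B, h3, h4⟩ := hG
  refine ⟨fun w => A w - B w, fun w => (h1 w).sub (h3 w), fun z => ?_⟩
  dsimp only
  rw [h2, h4, ← Finset.sum_sub_distrib]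
  exact Finset.sum_congr rfl fun w _ => by ring

lemma IntF.sum {α : Type*} (t : Finset α) {F : α → P.weylGroup → MvPolynomial b.support ℚ}
    (hF : ∀ a ∈ t, IntF e (F a)) : IntF e (fun z => ∑ a ∈ t, F a z) := by
  induction t using Finset.induction_on with
  | empty => exact ⟨fun _ => 0, fun _ => IsInt.zero, fun z => by simp⟩
  | insert a t ha ih =>
    have h1 := (hF a (by simp)).add (ih fun x hx => hF x (by simp [hx]))
    exact h1.congr fun z => by rw [Finset.sum_insert ha]

lemma IntF.mulC {c : MvPolynomial b.support ℚ} (hc : IsInt c)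
    {F : P.weylGroup → MvPolynomial b.support ℚ} (hF : IntF e F) :
    IntF e (fun z => c * F z) := by
  obtain ⟨A, h1, h2⟩ := hF
  refine ⟨fun w => c * A w, fun w => hc.mul (h1 w), fun z => ?_⟩
  dsimp only
  rw [h2, Finset.mul_sum]
  exact Finset.sum_congr rfl fun w _ => by ring

lemma IntF.basis (w : P.weylGroup) : IntF e (e w) := by
  refine ⟨fun v => if w = v then 1 else 0, fun v => ?_, fun z => ?_⟩
  · dsimp only
    split_ifs
    · exact IsInt.one
    · exact IsInt.zero
  · simp

lemma IntF.mul_root (he : IsCSM b e) (j : ι) {F : P.weylGroup → MvPolynomial b.support ℚ}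
    (hF : IntF e F) : IntF e (fun z => lin b (z • P.root j) * F z) := by
  obtain ⟨A, h1, h2⟩ := hF
  have h3 : ∀ w, IntF e (fun z => lin b (z • P.root j) * e w z) := by
    intro w
    have h4 : IntF e (fun z => lin b (w • P.root j) * e w z -
        ∑ i ∈ I b w, MvPolynomial.C (pr P (P.root j) i) * e (w * s P i) z) := by
      refine IntF.sub (IntF.mulC ?_ (IntF.basis w)) (IntF.sum _ fun i _ =>
        IntF.mulC ?_ (IntF.basis _))
      · rw [← root_smul]
        exact lin_root_IsInt b _
      · exact IsInt.C _ (pr_root j i)
    exact h4.congr fun z => chev' he w (P.root j) z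
  have h5 : IntF e (fun z => ∑ w, A w * (lin b (z • P.root j) * e w z)) :=
    IntF.sum _ fun w _ => IntF.mulC (h1 w) (h3 w)
  refine h5.congr fun z => ?_
  rw [h2, Finset.mul_sum]
  exact Finset.sum_congr rfl fun w _ => by ring

/-- Existence and integrality of the expansions. -/
theorem intF_schub (he : IsCSM b e) (hy : IsSchubert b y) (n : ℕ) : ∀ v : P.weylGroup,
    len b v = n → ∀ u, IntF e (fun z => y v z * e u z) := by
  induction n using Nat.strong_induction_on with
  | _ n ih =>
    intro v hv u
    obtain ⟨w₀, h0⟩ := exists_longest b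
    refine desc_ind (b := b) (p := fun u => IntF e (fun z => y v z * e u z)) h0 ?_ ?_ u
    · have h1 : IntF e (fun z => y v w₀ * e w₀ z) := IntF.mulC (schub_IsInt hy _ _) (IntF.basis _)
      refine h1.congr fun z => ?_
      rw [he.top w₀ h0]
      split_ifs with h2
      · rw [h2]
      · rw [mul_zero, mul_zero]
    · intro u j hj hu _
      obtain ⟨A, hA, hA'⟩ := hu
      -- the image under the operator
      have hG : IntF e (fun z => ∑ w, A w * e (w * s P j) z) :=
        IntF.sum _ fun w _ => IntF.mulC (hA w) (IntF.basis _)
      have hT : ∀ z, y v (z * s P j) * e (u * s P j) z +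
          (if b.IsPos (v • j) then 0 else y (v * s P j) z) * e u z =
          ∑ w, A w * e (w * s P j) z := by
        intro z
        have ht0 := lin_root_ne_zero b z j
        apply mul_left_cancel₀ ht0
        have s1 := schub_step hy v z ⟨j, hj⟩
        simp only at s1
        have s2 := he.step u z j hj
        change lin b (z • P.root j) * (e (u * s P j) z + e u (z * s P j)) =
          e u (z * s P j) - e u z at s2
        have s3 : lin b (z • P.root j) * (∑ w, A w * e (w * s P j) z +
            ∑ w, A w * e w (z * s P j)) =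
            ∑ w, A w * e w (z * s P j) - ∑ w, A w * e w z := by
          rw [← Finset.sum_add_distrib, Finset.mul_sum, ← Finset.sum_sub_distrib]
          refine Finset.sum_congr rfl fun w _ => ?_
          have s4 := he.step w z j hj
          change lin b (z • P.root j) * (e (w * s P j) z + e w (z * s P j)) =
            e w (z * s P j) - e w z at s4
          linear_combination A w * s4
        rw [← hA', ← hA'] at s3
        split_ifs at s1 ⊢ with hp
        · linear_combination y v (z * s P j) * s2 - s3 - e u z * s1
        · linear_combination y v (z * s P j) * s2 - s3 - e u z * s1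
      have s1 : ∀ z, y v (z * s P j) - y v z =
          if b.IsPos (v • j) then 0 else lin b (z • P.root j) * y (v * s P j) z :=
        fun z => schub_step hy v z ⟨j, hj⟩
      by_cases hp : b.IsPos (v • j)
      · refine hG.congr fun z => ?_
        rw [← hT z, if_pos hp]
        have := s1 z
        rw [if_pos hp] at this
        linear_combination -e (u * s P j) z * this
      · have hl := len_desc (b := b) v hj hp
        have i1 := ih (len b (v * s P j)) (by omega) (v * s P j) rfl (u * s P j)
        have i2 := ih (len b (v * s P j)) (by omega) (v * s P j) rfl u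
        have i3 := IntF.mul_root he j i1
        refine ((hG.sub i3).sub i2).congr fun z => ?_
        have h5 := hT z
        rw [if_neg hp] at h5
        have h6 := s1 z
        rw [if_neg hp] at h6
        rw [← h5]
        linear_combination -e (u * s P j) z * h6

end

end Pool.Agent.CSMS
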