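import Pool.Agent.CSMS.Quad

set_option autoImplicit false
set_option linter.unusedSectionVars false

/-!
# The quadratic form of an edge of the Dynkin diagram
-/

open RootPairing Set Module
open scoped Classical

namespace Pool.Agent.CSMS

noncomputable section

variable {ι M N : Type*} [AddCommGroup M] [Module ℚ M] [AddCommGroup N] [Module ℚ N]
  {P : RootPairing ι ℚ M N} [Fintype ι] [P.IsRootSystem] [P.IsCrystallographic] [P.IsReduced]
  {b : P.Base}

lemma pr_root (i j : ι) : pr P (P.root i) j = (P.pairingIn ℤ i j : ℚ) := by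
  have := P.algebraMap_pairingIn ℤ i j
  rw [eq_intCast] at this
  rw [this]
  rfl

lemma pos_supp {i : ι} (hi : b.IsPos i) (j : b.support) :
    0 < cf b j (P.root i) ↔ 0 < ccf b j (P.coroot i) := by
  refine pos_ind b (p := fun i => 0 < cf b j (P.root i) ↔ 0 < ccf b j (P.coroot i)) ?_ ?_ hi
  · intro l hl
    rw [cf_simple b j ⟨l, hl⟩, ccf_simple b j ⟨l, hl⟩]
  · intro i l hl hi hil hsi hneg ih
    have h1 : P.pairingIn ℤ i l < 0 := by rwa [P.pairingIn_lt_zero_iff] at hneg
    have e1 : cf b j (P.root (s P l • i)) =
        cf b j (P.root i) - (P.pairingIn ℤ i l : ℚ) * cf b j (P.root l) := by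
      rw [root_smul, s_smul_eq, map_sub, map_smul, smul_eq_mul]
      congr 2
      exact pr_root i l
    have e2 : ccf b j (P.coroot (s P l • i)) =
        ccf b j (P.coroot i) - (P.pairingIn ℤ l i : ℚ) * ccf b j (P.coroot l) := by
      rw [s_smul_idx, coroot_reflectionPerm, coreflection_apply_coroot, map_sub, map_smul,
        smul_eq_mul]
      congr 2
      exact pr_root l i
    rw [e1, e2, cf_simple b j ⟨l, hl⟩, ccf_simple b j ⟨l, hl⟩]
    by_cases h : (⟨l, hl⟩ : b.support) = j
    · rw [if_pos h]
      have h2 := pos_cf_nonneg b hi j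
      have h3 := pos_ccf_nonneg b hi j
      have h4 : (P.pairingIn ℤ i l : ℚ) < 0 := by exact_mod_cast h1
      have h5 : (P.pairingIn ℤ l i : ℚ) < 0 := by exact_mod_cast hneg
      constructor
      · intro _
        linarith
      · intro _
        linarith
    · rw [if_neg h]
      simpa using ih

lemma pr_expand (x : M) (l : ι) :
    pr P x l = ∑ j : b.support, cf b j x * (P.pairingIn ℤ j l : ℚ) := by
  unfold pr
  conv_lhs => rw [eq_sum_cf b x]
  rw [map_sum, LinearMap.sum_apply]
  refine Finset.sum_congr rfl fun j _ => ?_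
  rw [map_smul, LinearMap.smul_apply, smul_eq_mul]
  congr 1
  exact pr_root (j : ι) l

lemma pair_expand (i : ι) (x : N) :
    P.toLinearMap (P.root i) x = ∑ j : b.support, ccf b j x * (P.pairingIn ℤ i j : ℚ) := by
  conv_lhs => rw [eq_sum_ccf b x]
  rw [map_sum]
  refine Finset.sum_congr rfl fun j _ => ?_
  rw [map_smul, smul_eq_mul]
  congr 1
  exact pr_root i j

lemma one_le_of_pos_cf {i : ι} (hi : b.IsPos i) {j : b.support} (h : 0 < cf b j (P.root i)) :
    1 ≤ cf b j (P.root i) := by
  obtain ⟨n, hn⟩ := pos_cf b hi j
  rw [hn] at h ⊢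
  have : 0 < n := by exact_mod_cast h
  exact_mod_cast this

lemma one_le_of_pos_ccf {i : ι} (hi : b.IsPos i) {j : b.support}
    (h : 0 < ccf b j (P.coroot i)) : 1 ≤ ccf b j (P.coroot i) := by
  obtain ⟨n, hn⟩ := pos_ccf b hi j
  rw [hn] at h ⊢
  have : 0 < n := by exact_mod_cast h
  exact_mod_cast this

lemma simple_le {j l : b.support} (h : j ≠ l) : P.pairingIn ℤ (j : ι) (l : ι) ≤ 0 :=
  b.pairingIn_le_zero_of_ne (fun h' => h (Subtype.ext h')) j.2 l.2

/-- Removing an edge of the Dynkin diagram separates its ends. -/
theorem bridge (i k : b.support) (hik : i ≠ k) (hadj : P.pairingIn ℤ (i : ι) (k : ι) ≠ 0) :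
    ∃ J : Finset b.support, i ∈ J ∧ k ∉ J ∧ ∀ j ∈ J, ∀ l, l ∉ J →
      P.pairingIn ℤ (j : ι) (l : ι) = 0 ∨ (j = i ∧ l = k) := by
  · set S : Finset ι := Finset.univ.filter fun β =>
      b.IsPos β ∧ 0 < cf b i (P.root β) ∧ cf b k (P.root β) = 0 with hS
    have hne : S.Nonempty := by
      refine ⟨i, ?_⟩
      rw [hS, Finset.mem_filter]
      refine ⟨Finset.mem_univ _, Base.isPos_of_mem_support i.2, ?_, ?_⟩
      · rw [cf_simple, if_pos rfl]
        exact one_pos
      · rw [cf_simple, if_neg hik]
    obtain ⟨β, hβ, hmax⟩ := Finset.exists_max_image S b.height hne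
    obtain ⟨-, hβp, hβi, hβk⟩ := Finset.mem_filter.1 hβ
    have hle : ∀ j l : b.support, j ≠ l → (P.pairingIn ℤ (j : ι) (l : ι) : ℚ) ≤ 0 := by
      intro j l h
      exact_mod_cast simple_le h
    refine ⟨Finset.univ.filter fun j => 0 < cf b j (P.root β), ?_, ?_, ?_⟩
    · simpa using hβi
    · simp [hβk]
    · intro j hj l hl
      rw [Finset.mem_filter] at hj hl
      have hj' : 0 < cf b j (P.root β) := hj.2
      have hl' : cf b l (P.root β) = 0 := by
        have h1 := pos_cf_nonneg b hβp l
        have h2 : ¬ 0 < cf b l (P.root β) := fun h => hl ⟨Finset.mem_univ _, h⟩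
        linarith
      have hjl : j ≠ l := by
        rintro rfl
        rw [hl'] at hj'
        exact lt_irrefl _ hj'
      have hterm : ∀ m : b.support, cf b m (P.root β) * (P.pairingIn ℤ (m : ι) (l : ι) : ℚ) ≤ 0 := by
        intro m
        by_cases hm : m = l
        · rw [hm, hl', zero_mul]
        · exact mul_nonpos_of_nonneg_of_nonpos (pos_cf_nonneg b hβp m) (hle m l hm)
      by_cases h0 : P.pairingIn ℤ (j : ι) (l : ι) = 0
      · exact Or.inl h0
      right
      have h0' : P.pairingIn ℤ (j : ι) (l : ι) ≤ -1 := by
        have := simple_le hjl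
        omega
      have h0q : (P.pairingIn ℤ (j : ι) (l : ι) : ℚ) ≤ -1 := by exact_mod_cast h0'
      have hjterm : cf b j (P.root β) * (P.pairingIn ℤ (j : ι) (l : ι) : ℚ) ≤ -1 := by
        have h1 := one_le_of_pos_cf hβp hj'
        nlinarith
      by_cases hlk : l = k
      · refine ⟨?_, hlk⟩
        by_contra hji
        subst hlk
        have hi1 : P.pairingIn ℤ (i : ι) (l : ι) ≤ -1 := by
          have := simple_le hik
          omega
        have hi1' : P.pairingIn ℤ (l : ι) (i : ι) ≤ -1 := by
          have h1 : P.pairingIn ℤ (i : ι) (l : ι) < 0 := by omega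
          rw [P.pairingIn_lt_zero_iff] at h1
          omega
        have hj1' : P.pairingIn ℤ (l : ι) (j : ι) ≤ -1 := by
          have h1 : P.pairingIn ℤ (j : ι) (l : ι) < 0 := by omega
          rw [P.pairingIn_lt_zero_iff] at h1
          omega
        have hi1q : (P.pairingIn ℤ (i : ι) (l : ι) : ℚ) ≤ -1 := by exact_mod_cast hi1
        have hi1q' : (P.pairingIn ℤ (l : ι) (i : ι) : ℚ) ≤ -1 := by exact_mod_cast hi1'
        have hj1q' : (P.pairingIn ℤ (l : ι) (j : ι) : ℚ) ≤ -1 := by exact_mod_cast hj1'
        have hji' : j ≠ i := hji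
        have s1 : (P.pairingIn ℤ β (l : ι) : ℚ) ≤ -2 := by
          rw [← pr_root, pr_expand (b := b)]
          have hsub : ∑ m : b.support, cf b m (P.root β) * (P.pairingIn ℤ (m : ι) (l : ι) : ℚ) ≤
              ∑ m ∈ ({j, i} : Finset b.support),
                cf b m (P.root β) * (P.pairingIn ℤ (m : ι) (l : ι) : ℚ) := by
            rw [← Finset.sum_sdiff (Finset.subset_univ ({j, i} : Finset b.support))]
            have := Finset.sum_nonpos (s := Finset.univ \ ({j, i} : Finset b.support))
              (fun m _ => hterm m)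
            linarith
          rw [Finset.sum_pair hji'] at hsub
          have h1 := one_le_of_pos_cf hβp hβi
          nlinarith
        have hc : ∀ m : b.support, 0 < cf b m (P.root β) → 0 < ccf b m (P.coroot β) :=
          fun m h => (pos_supp hβp m).1 h
        have hcl : ccf b l (P.coroot β) = 0 := by
          have h1 := pos_ccf_nonneg b hβp l
          have h2 : ¬ 0 < ccf b l (P.coroot β) := fun h => by
            have := (pos_supp hβp l).2 h
            rw [hl'] at this
            exact lt_irrefl _ this
          linarith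
        have s2 : (P.pairingIn ℤ (l : ι) β : ℚ) ≤ -2 := by
          rw [← pr_root, pr, pair_expand (b := b)]
          have hterm' : ∀ m : b.support,
              ccf b m (P.coroot β) * (P.pairingIn ℤ (l : ι) (m : ι) : ℚ) ≤ 0 := by
            intro m
            by_cases hm : m = l
            · rw [hm, hcl, zero_mul]
            · exact mul_nonpos_of_nonneg_of_nonpos (pos_ccf_nonneg b hβp m)
                (hle l m (fun h => hm h.symm))
          have hsub : ∑ m : b.support, ccf b m (P.coroot β) *
              (P.pairingIn ℤ (l : ι) (m : ι) : ℚ) ≤ ∑ m ∈ ({j, i} : Finset b.support),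
                ccf b m (P.coroot β) * (P.pairingIn ℤ (l : ι) (m : ι) : ℚ) := by
            rw [← Finset.sum_sdiff (Finset.subset_univ ({j, i} : Finset b.support))]
            have := Finset.sum_nonpos (s := Finset.univ \ ({j, i} : Finset b.support))
              (fun m _ => hterm' m)
            linarith
          rw [Finset.sum_pair hji'] at hsub
          have h1 := one_le_of_pos_ccf hβp (hc i hβi)
          have h2 := one_le_of_pos_ccf hβp (hc j hj')
          nlinarith
        have s1' : P.pairingIn ℤ β (l : ι) ≤ -2 := by exact_mod_cast s1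
        have s2' : P.pairingIn ℤ (l : ι) β ≤ -2 := by exact_mod_cast s2
        have hne1 : P.root β ≠ P.root l := by
          intro h
          have := congrArg (cf b l) h
          rw [hl', cf_simple, if_pos rfl] at this
          exact zero_ne_one this
        have hne2 : P.root β ≠ - P.root l := by
          intro h
          have := congrArg (cf b l) h
          rw [hl', map_neg, cf_simple, if_pos rfl] at this
          norm_num at this
        have := P.pairingIn_pairingIn_mem_set_of_isCrystal_of_isRed' β l hne1 hne2
        simp only [Set.mem_insert_iff, Set.mem_singleton_iff, Prod.mk.injEq] at this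
        omega
      · exfalso
        have s1 : (P.pairingIn ℤ β (l : ι) : ℚ) < 0 := by
          rw [← pr_root, pr_expand (b := b)]
          have hsub : ∑ m : b.support, cf b m (P.root β) * (P.pairingIn ℤ (m : ι) (l : ι) : ℚ) ≤
              cf b j (P.root β) * (P.pairingIn ℤ (j : ι) (l : ι) : ℚ) := by
            rw [← Finset.sum_erase_add _ _ (Finset.mem_univ j)]
            have := Finset.sum_nonpos (s := Finset.univ.erase j) (fun m _ => hterm m)
            linarith
          linarith
        have s1' : P.pairingIn ℤ β (l : ι) < 0 := by exact_mod_cast s1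
        have hne2 : P.root β ≠ - P.root l := by
          intro h
          have := congrArg (cf b l) h
          rw [hl', map_neg, cf_simple, if_pos rfl] at this
          norm_num at this
        obtain ⟨γ, hγ⟩ := P.root_add_root_mem_of_pairingIn_neg s1' hne2
        have hht : b.height γ = b.height β + 1 := by
          rw [b.height_add hγ, Base.height_one_of_mem_support l.2]
        have hli : l ≠ i := by
          rintro rfl
          rw [hl'] at hβi
          exact lt_irrefl _ hβi
        have hγS : γ ∈ S := by
          rw [hS, Finset.mem_filter]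
          refine ⟨Finset.mem_univ _, ?_, ?_, ?_⟩
          · rw [Base.isPos_iff, hht]
            have : 0 < b.height β := hβp
            omega
          · rw [hγ, map_add, cf_simple, if_neg hli, add_zero]
            exact hβi
          · rw [hγ, map_add, hβk, cf_simple, if_neg hlk, add_zero]
        have := hmax γ hγS
        omega

lemma F_coroot (j : ι) (x : N) : 2 * P.CorootForm (P.coroot j) x =
    P.CorootForm (P.coroot j) (P.coroot j) * P.toLinearMap (P.root j) x := by
  have h := P.corootForm_self_smul_root j
  have h2 := congrArg (fun y => P.toLinearMap y x) h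
  simp only [map_smul, LinearMap.smul_apply, smul_eq_mul] at h2
  rw [h2, ← P.toLinearMap_apply_CoPolarization, two_smul, map_add, LinearMap.add_apply]
  ring

lemma F_self_pos (j : ι) : 0 < P.CorootForm (P.coroot j) (P.coroot j) := by
  rw [P.corootForm_apply_apply]
  have h0 : ∀ i ∈ Finset.univ, 0 ≤ P.root' i (P.coroot j) * P.root' i (P.coroot j) :=
    fun i _ => mul_self_nonneg _
  refine lt_of_lt_of_le ?_ (Finset.single_le_sum h0 (Finset.mem_univ j))
  rw [P.root'_coroot_eq_pairing, P.pairing_same]
  norm_num

lemma F_symm (x y : N) : P.CorootForm x y = P.CorootForm y x := by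
  rw [P.corootForm_apply_apply, P.corootForm_apply_apply]
  exact Finset.sum_congr rfl fun i _ => mul_comm _ _

lemma F_coroot_coroot (j l : ι) : 2 * P.CorootForm (P.coroot j) (P.coroot l) =
    P.CorootForm (P.coroot j) (P.coroot j) * (P.pairingIn ℤ j l : ℚ) := by
  rw [F_coroot]
  congr 1
  exact pr_root j l

variable (b) in
/-- The projection of a coweight. -/
def pj (J : Finset b.support) (x : N) : N := ∑ j ∈ J, ccf b j x • P.coroot j

variable (b) in
/-- The transposed projection of a root. -/
def lamJ (J : Finset b.support) (t : ι) : M :=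
  ∑ j ∈ J, (P.pairingIn ℤ t (j : ι) : ℚ) • om b j

lemma lamJ_pair (J : Finset b.support) (t : ι) (x : N) :
    P.toLinearMap (lamJ b J t) x = P.toLinearMap (P.root t) (pj b J x) := by
  unfold lamJ pj
  rw [map_sum, LinearMap.sum_apply, map_sum]
  refine Finset.sum_congr rfl fun j _ => ?_
  rw [map_smul, LinearMap.smul_apply, om_pair, map_smul, smul_eq_mul, smul_eq_mul, mul_comm]
  congr 1
  exact (pr_root t (j : ι)).symm

lemma qB_lamJ (c : ℚ) (J : Finset b.support) (x y : N) :
    qB P c (lamJ b J) x y = c * P.CorootForm (pj b J x) (pj b J y) := by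
  unfold qB
  rw [P.corootForm_apply_apply]
  congr 1
  refine Finset.sum_congr rfl fun t _ => ?_
  rw [lamJ_pair, lamJ_pair]

lemma pj_coroot_mem {J : Finset b.support} {j : b.support} (hj : j ∈ J) :
    pj b J (P.coroot j) = P.coroot j := by
  unfold pj
  rw [Finset.sum_eq_single j]
  · rw [ccf_simple, if_pos rfl, one_smul]
  · intro l _ hl
    rw [ccf_simple, if_neg (Ne.symm hl), zero_smul]
  · intro h
    exact absurd hj h

lemma pj_coroot_notMem {J : Finset b.support} {j : b.support} (hj : j ∉ J) :
    pj b J (P.coroot j) = 0 := by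
  unfold pj
  refine Finset.sum_eq_zero fun l hl => ?_
  rw [ccf_simple, if_neg, zero_smul]
  rintro rfl
  exact hj hl

lemma pj_add (J : Finset b.support) (x : N) : x = pj b J x + pj b Jᶜ x := by
  unfold pj
  conv_lhs => rw [eq_sum_ccf b x]
  exact (Finset.sum_add_sum_compl J _).symm

/-- A quadratic form `q` is adapted to the pair `(i, k)` if `∂_j q = δ_{ji} ω_k`. -/
def Adapted {τ : Type*} [Fintype τ] (b : P.Base) (i k : b.support) (c : ℚ) (lam : τ → M) : Prop :=
  ∀ (j : b.support) (x : N), 2 * qB P c lam (P.coroot j) x -
    qB P c lam (P.coroot j) (P.coroot j) * P.toLinearMap (P.root j) x =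
      if j = i then ccf b k x else 0

/-- Existence of the adapted quadratic form. -/
theorem exists_adapted (i k : b.support) (hik : i ≠ k)
    (hadj : P.pairingIn ℤ (i : ι) (k : ι) ≠ 0) :
    ∃ (c : ℚ) (lam : ι → M), Adapted b i k c lam := by
  obtain ⟨J, hi, hk, hJ⟩ := bridge i k hik hadj
  set κ : ℚ := P.CorootForm (P.coroot i) (P.coroot k) with hκ
  have hκ0 : κ ≠ 0 := by
    intro h
    have h1 := F_coroot_coroot (P := P) (i : ι) (k : ι)
    rw [← hκ, h, mul_zero] at h1
    rcases mul_eq_zero.1 h1.symm with h2 | h2
    · exact (F_self_pos (P := P) (i : ι)).ne' h2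
    · exact hadj (by exact_mod_cast h2)
  refine ⟨-(1 / (2 * κ)), lamJ b J, fun j x => ?_⟩
  rw [qB_lamJ, qB_lamJ]
  by_cases hj : j ∈ J
  · rw [pj_coroot_mem hj]
    have h1 : P.CorootForm (P.coroot j) x =
        P.CorootForm (P.coroot j) (pj b J x) + P.CorootForm (P.coroot j) (pj b Jᶜ x) := by
      conv_lhs => rw [pj_add J x]
      rw [map_add]
    have h2 : P.CorootForm (P.coroot j) (pj b Jᶜ x) = if j = i then ccf b k x * κ else 0 := by
      unfold pj
      rw [map_sum]
      split_ifs with hji
      · subst hji
        rw [Finset.sum_eq_single k]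
        · rw [map_smul, smul_eq_mul]
        · intro l hl hlk
          rcases hJ j hj l (Finset.mem_compl.1 hl) with h3 | h3
          · rw [map_smul, smul_eq_mul]
            have h4 := F_coroot_coroot (P := P) (j : ι) (l : ι)
            rw [h3, Int.cast_zero, mul_zero] at h4
            have h5 : P.CorootForm (P.coroot j) (P.coroot l) = 0 := by linarith
            rw [h5, mul_zero]
          · exact absurd h3.2 hlk
        · intro h
          exact absurd (Finset.mem_compl.2 hk) h
      · refine Finset.sum_eq_zero fun l hl => ?_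
        rcases hJ j hj l (Finset.mem_compl.1 hl) with h3 | h3
        · rw [map_smul, smul_eq_mul]
          have h4 := F_coroot_coroot (P := P) (j : ι) (l : ι)
          rw [h3, Int.cast_zero, mul_zero] at h4
          have h5 : P.CorootForm (P.coroot j) (P.coroot l) = 0 := by linarith
          rw [h5, mul_zero]
        · exact absurd h3.1 hji
    have h3 := F_coroot (P := P) (j : ι) x
    have h4 : P.CorootForm (P.coroot j) (pj b J x) =
        P.CorootForm (P.coroot j) x - (if j = i then ccf b k x * κ else 0) := by
      rw [h1, h2]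
      ring
    rw [h4]
    split_ifs with hji
    · field_simp
      linear_combination -h3
    · rw [sub_zero]
      linear_combination -(1 / (2 * κ)) * h3
  · rw [pj_coroot_notMem hj, if_neg]
    · simp
    · rintro rfl
      exact hj hi

end

end Pool.Agent.CSMS
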