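import Pool.Agent.CSMS.Lin

set_option autoImplicit false
set_option linter.unusedSectionVars false

/-!
# The longest element; linear independence of the localised CSM classes
-/

open RootPairing Set Module
open scoped Classical

namespace Pool.Agent.CSMS

noncomputable section

variable {ι M N : Type*} [AddCommGroup M] [Module ℚ M] [AddCommGroup N] [Module ℚ N]
  {P : RootPairing ι ℚ M N} [Finite ι] [P.IsRootSystem] [P.IsCrystallographic] [P.IsReduced]
  (b : P.Base)

/-- The linear action. -/
def act (w : P.weylGroup) : M →ₗ[ℚ] M := DistribSMul.toLinearMap ℚ M w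

lemma act_apply (w : P.weylGroup) (x : M) : act w x = w • x := rfl

lemma smul_eq_sum (w : P.weylGroup) (x : M) :
    w • x = ∑ j : b.support, cf b j x • P.root (w • (j : ι)) := by
  rw [← act_apply]
  conv_lhs => rw [eq_sum_cf b x]
  rw [map_sum]
  refine Finset.sum_congr rfl fun j _ => ?_
  rw [map_smul, act_apply, root_smul]

lemma ext_idx {w w' : P.weylGroup} (h : ∀ j ∈ b.support, w • j = w' • j) : w = w' := by
  apply smul_faithful
  intro x
  rw [smul_eq_sum b, smul_eq_sum b]
  refine Finset.sum_congr rfl fun j _ => ?_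
  rw [h j j.2]

include b in
lemma finite_W : Finite P.weylGroup := by
  refine Finite.of_injective (fun w : P.weylGroup => (fun i : ι => w • i)) ?_
  intro w w' h
  exact ext_idx b fun j _ => congrFun h j

lemma not_pos_of_nonpos {i : ι} (h : ∀ j, cf b j (P.root i) ≤ 0) : ¬ b.IsPos i := by
  intro hi
  apply P.ne_zero i
  exact cf_ext b fun j => by
    rw [map_zero]
    exact le_antisymm (h j) (pos_cf_nonneg b hi j)

lemma nonpos_of_not_pos {i : ι} (h : ¬ b.IsPos i) (j : b.support) : cf b j (P.root i) ≤ 0 := by
  have h1 := (opp_pos_iff b i).2 h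
  have h2 := pos_cf_nonneg b h1 j
  rw [cf_opp] at h2
  linarith

lemma mul_s_smul_self (w : P.weylGroup) (j : ι) :
    (w * s P j) • j = s P (w • j) • (w • j) := by
  rw [mul_smul, smul_opp]

lemma mul_s_pos (w : P.weylGroup) (j : ι) :
    b.IsPos ((w * s P j) • j) ↔ ¬ b.IsPos (w • j) := by
  rw [mul_s_smul_self, opp_pos_iff]

lemma len_asc (w : P.weylGroup) {j : ι} (hj : j ∈ b.support) (h : b.IsPos (w • j)) :
    len b (w * s P j) = len b w + 1 := by
  have h1 : ¬ b.IsPos ((w * s P j) • j) := by
    rw [mul_s_pos]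
    exact not_not.2 h
  have h2 := len_desc (b := b) (w * s P j) hj h1
  rw [mul_s_s] at h2
  exact h2.symm

lemma exists_longest : ∃ w₀ : P.weylGroup, ∀ i, b.IsPos i → ¬ b.IsPos (w₀ • i) := by
  have := finite_W b
  obtain ⟨w, hw⟩ := Finite.exists_max (len b)
  have h1 : ∀ j ∈ b.support, ¬ b.IsPos (w • j) := by
    intro j hj h
    have := len_asc b w hj h
    have := hw (w * s P j)
    omega
  refine ⟨w, fun i hi => not_pos_of_nonpos b fun j => ?_⟩
  rw [root_smul, smul_eq_sum b, map_sum]
  refine Finset.sum_nonpos fun l _ => ?_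
  rw [map_smul, smul_eq_mul]
  exact mul_nonpos_of_nonneg_of_nonpos (pos_cf_nonneg b hi l)
    (nonpos_of_not_pos b (h1 l l.2) j)

variable {b} in
/-- Descending induction. -/
theorem desc_ind {p : P.weylGroup → Prop} {w₀ : P.weylGroup}
    (h0 : ∀ i, b.IsPos i → ¬ b.IsPos (w₀ • i)) (h1 : p w₀)
    (h2 : ∀ w : P.weylGroup, ∀ j ∈ b.support, p w → ¬ b.IsPos (w • j) → p (w * s P j))
    (w : P.weylGroup) : p w := by
  have h3 : ∀ u : P.weylGroup, p (w₀ * u) := by
    refine asc_ind (b := b) (by rwa [mul_one]) ?_
    intro u j hj hu hp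
    rw [← mul_assoc]
    refine h2 _ j hj hu ?_
    rw [mul_smul]
    exact h0 _ hp
  have := h3 (w₀⁻¹ * w)
  rwa [mul_inv_cancel_left] at this

end

noncomputable section

variable {ι M N : Type*} [AddCommGroup M] [Module ℚ M] [AddCommGroup N] [Module ℚ N]
  {P : RootPairing ι ℚ M N} [Fintype ι] [P.IsRootSystem] [P.IsCrystallographic] [P.IsReduced]
  {b : P.Base} {e : P.weylGroup → P.weylGroup → MvPolynomial b.support ℚ}

/-- Triangularity. -/
theorem tri (he : IsCSM b e) (w : P.weylGroup) :
    (∀ u, (len b u < len b w ∨ (len b u = len b w ∧ u ≠ w)) → e w u = 0) ∧ e w w ≠ 0 := by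
  obtain ⟨w₀, h0⟩ := exists_longest b
  refine desc_ind (b := b) (p := fun w => (∀ u, (len b u < len b w ∨
    (len b u = len b w ∧ u ≠ w)) → e w u = 0) ∧ e w w ≠ 0) h0 ?_ ?_ w
  · refine ⟨fun u hu => ?_, ?_⟩
    · rw [he.top w₀ h0, if_neg]
      rintro rfl
      rcases hu with hu | hu
      · exact lt_irrefl _ hu
      · exact hu.2 rfl
    · rw [he.top w₀ h0, if_pos rfl]
      refine Finset.prod_ne_zero_iff.2 fun i _ => lin_ne_zero b (P.ne_zero i)
  · rintro w j hj ⟨ih1, ih2⟩ hn
    have hl := len_desc (b := b) w hj hn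
    constructor
    · intro u hu
      have h1 : e w u = 0 := ih1 u (Or.inl (by rcases hu with hu | hu <;> omega))
      have h2 : e w (u * s P j) = 0 := by
        have h3 := len_mul_le (b := b) u hj
        rcases hu with hu | hu
        · exact ih1 _ (Or.inl (by omega))
        · rcases Nat.lt_or_ge (len b (u * s P j)) (len b w) with h4 | h4
          · exact ih1 _ (Or.inl h4)
          · refine ih1 _ (Or.inr ⟨by omega, ?_⟩)
            intro h5
            apply hu.2
            rw [← h5, mul_s_s]
      have h3 := he.step w u j hj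
      change lin b (u • P.root j) * (e (w * s P j) u + e w (u * s P j)) =
        e w (u * s P j) - e w u at h3
      rw [h1, h2, add_zero, sub_zero] at h3
      exact (mul_eq_zero.1 h3).resolve_left (lin_root_ne_zero b u j)
    · intro h1
      have h3 := he.step w (w * s P j) j hj
      change lin b ((w * s P j) • P.root j) * (e (w * s P j) (w * s P j) +
        e w (w * s P j * s P j)) = e w (w * s P j * s P j) - e w (w * s P j) at h3
      rw [mul_s_s, h1, zero_add, ih1 (w * s P j) (Or.inl (by omega)), sub_zero] at h3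
      have h4 : (1 - lin b ((w * s P j) • P.root j)) * e w w = 0 := by
        linear_combination -h3
      rcases mul_eq_zero.1 h4 with h5 | h5
      · exact one_sub_lin_ne_zero b _ h5
      · exact ih2 h5

/-- Linear independence. -/
theorem indep (he : IsCSM b e) [Fintype P.weylGroup]
    (a : P.weylGroup → MvPolynomial b.support ℚ) (h : ∀ z, ∑ w, a w * e w z = 0) :
    ∀ w, a w = 0 := by
  intro w
  generalize hn : len b w = n
  induction n using Nat.strong_induction_on generalizing w with
  | _ n ih =>
    have h1 := h w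
    rw [Finset.sum_eq_single w] at h1
    · exact (mul_eq_zero.1 h1).resolve_right (tri he w).2
    · intro w' _ hw
      rcases Nat.lt_or_ge (len b w') n with h2 | h2
      · rw [ih _ h2 w' rfl, zero_mul]
      · rw [(tri he w').1 w, mul_zero]
        rcases Nat.lt_or_ge n (len b w') with h3 | h3
        · exact Or.inl (by omega)
        · exact Or.inr ⟨by omega, Ne.symm hw⟩
    · intro h2
      exact absurd (Finset.mem_univ w) h2

/-- Comparison of coefficients. -/
theorem coeff_unique (he : IsCSM b e) [Fintype P.weylGroup]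
    {a a' : P.weylGroup → MvPolynomial b.support ℚ}
    (h : ∀ z, ∑ w, a w * e w z = ∑ w, a' w * e w z) (w : P.weylGroup) : a w = a' w := by
  have := indep he (fun w => a w - a' w) (fun z => by
    simp only [sub_mul, Finset.sum_sub_distrib]
    rw [h z, sub_self]) w
  exact sub_eq_zero.1 this

end

end Pool.Agent.CSMS
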