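import Pool.Agent.CSMS.Weights
import Pool.Agent.CSMS.Defs

set_option autoImplicit false
set_option linter.unusedSectionVars false

/-!
# Linear forms; polynomials with nonnegative or integral coefficients
-/

open RootPairing Set Module
open scoped Classical

namespace Pool.Agent.CSMS

noncomputable section

section Coeff

variable {σ : Type*}

/-- Nonnegative coefficients. -/
def NN (f : MvPolynomial σ ℚ) : Prop := ∀ m, 0 ≤ MvPolynomial.coeff m f

/-- Integral coefficients. -/
def IsInt (f : MvPolynomial σ ℚ) : Prop := ∀ m, ∃ n : ℤ, MvPolynomial.coeff m f = n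

lemma NN.add {f g : MvPolynomial σ ℚ} (hf : NN f) (hg : NN g) : NN (f + g) := by
  intro m
  rw [MvPolynomial.coeff_add]
  exact add_nonneg (hf m) (hg m)

lemma NN.zero : NN (0 : MvPolynomial σ ℚ) := fun m => by simp

lemma NN.mul {f g : MvPolynomial σ ℚ} (hf : NN f) (hg : NN g) : NN (f * g) := by
  intro m
  rw [MvPolynomial.coeff_mul]
  exact Finset.sum_nonneg fun p _ => mul_nonneg (hf _) (hg _)

lemma NN.C {c : ℚ} (hc : 0 ≤ c) : NN (MvPolynomial.C c : MvPolynomial σ ℚ) := by
  intro m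
  rw [MvPolynomial.coeff_C]
  split_ifs
  · exact hc
  · exact le_refl 0

lemma NN.one : NN (1 : MvPolynomial σ ℚ) := by
  have := NN.C (σ := σ) (c := 1) zero_le_one
  simpa using this

lemma NN.X (i : σ) : NN (MvPolynomial.X i : MvPolynomial σ ℚ) := by
  intro m
  rw [MvPolynomial.coeff_X]
  split_ifs
  · exact zero_le_one
  · exact le_refl 0

lemma NN.sum {α : Type*} {t : Finset α} {f : α → MvPolynomial σ ℚ} (h : ∀ a ∈ t, NN (f a)) :
    NN (∑ a ∈ t, f a) := by
  induction t using Finset.induction_on with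
  | empty => simpa using NN.zero
  | insert a t ha ih =>
    rw [Finset.sum_insert ha]
    exact (h a (by simp)).add (ih fun x hx => h x (by simp [hx]))

lemma IsInt.add {f g : MvPolynomial σ ℚ} (hf : IsInt f) (hg : IsInt g) : IsInt (f + g) := by
  intro m
  obtain ⟨a, ha⟩ := hf m
  obtain ⟨c, hc⟩ := hg m
  exact ⟨a + c, by rw [MvPolynomial.coeff_add, ha, hc]; push_cast; ring⟩

lemma IsInt.zero : IsInt (0 : MvPolynomial σ ℚ) := fun m => ⟨0, by simp⟩

lemma IsInt.neg {f : MvPolynomial σ ℚ} (hf : IsInt f) : IsInt (-f) := by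
  intro m
  obtain ⟨a, ha⟩ := hf m
  exact ⟨-a, by rw [MvPolynomial.coeff_neg, ha]; push_cast; ring⟩

lemma IsInt.sub {f g : MvPolynomial σ ℚ} (hf : IsInt f) (hg : IsInt g) : IsInt (f - g) := by
  rw [sub_eq_add_neg]
  exact hf.add hg.neg

lemma IsInt.sum {α : Type*} {t : Finset α} {f : α → MvPolynomial σ ℚ}
    (h : ∀ a ∈ t, IsInt (f a)) : IsInt (∑ a ∈ t, f a) := by
  induction t using Finset.induction_on with
  | empty => simpa using IsInt.zero
  | insert a t ha ih =>
    rw [Finset.sum_insert ha]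
    exact (h a (by simp)).add (ih fun x hx => h x (by simp [hx]))

lemma IsInt.mul {f g : MvPolynomial σ ℚ} (hf : IsInt f) (hg : IsInt g) : IsInt (f * g) := by
  intro m
  rw [MvPolynomial.coeff_mul]
  choose a ha using hf
  choose c hc using hg
  refine ⟨∑ x ∈ Finset.HasAntidiagonal.antidiagonal m, a x.1 * c x.2, ?_⟩
  push_cast
  exact Finset.sum_congr rfl fun x _ => by rw [ha, hc]

lemma IsInt.C {c : ℚ} (n : ℤ) (hc : c = n) : IsInt (MvPolynomial.C c : MvPolynomial σ ℚ) := by
  intro m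
  rw [MvPolynomial.coeff_C]
  split_ifs
  · exact ⟨n, hc⟩
  · exact ⟨0, by simp⟩

lemma IsInt.one : IsInt (1 : MvPolynomial σ ℚ) := by
  have := IsInt.C (σ := σ) (c := 1) 1 (by simp)
  simpa using this

lemma IsInt.X (i : σ) : IsInt (MvPolynomial.X i : MvPolynomial σ ℚ) := by
  intro m
  rw [MvPolynomial.coeff_X]
  split_ifs
  · exact ⟨1, by simp⟩
  · exact ⟨0, by simp⟩

lemma nat_of_NN_IsInt {f : MvPolynomial σ ℚ} (h1 : NN f) (h2 : IsInt f) (m : σ →₀ ℕ) :
    ∃ n : ℕ, MvPolynomial.coeff m f = n := by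
  obtain ⟨z, hz⟩ := h2 m
  have h3 := h1 m
  rw [hz] at h3
  have h4 : 0 ≤ z := by exact_mod_cast h3
  refine ⟨z.toNat, ?_⟩
  rw [hz]
  have : (z.toNat : ℤ) = z := Int.toNat_of_nonneg h4
  exact_mod_cast this.symm

end Coeff

variable {ι M N : Type*} [AddCommGroup M] [Module ℚ M] [AddCommGroup N] [Module ℚ N]
  {P : RootPairing ι ℚ M N} [Finite ι] [P.IsRootSystem] [P.IsCrystallographic] [P.IsReduced]
  (b : P.Base)

lemma lin_eq (x : M) : lin b x = ∑ j, MvPolynomial.C (cf b j x) * MvPolynomial.X j := by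
  rw [lin, Basis.constr_apply_fintype]
  refine Finset.sum_congr rfl fun j _ => ?_
  rw [MvPolynomial.smul_eq_C_mul]
  rfl

lemma coeff_lin (j : b.support) (x : M) :
    MvPolynomial.coeff (Finsupp.single j 1) (lin b x) = cf b j x := by
  rw [lin_eq, MvPolynomial.coeff_sum, Finset.sum_eq_single j]
  · rw [MvPolynomial.coeff_C_mul, MvPolynomial.coeff_X, if_pos rfl, mul_one]
  · intro l _ hl
    rw [MvPolynomial.coeff_C_mul, MvPolynomial.coeff_X, if_neg, mul_zero]
    intro h
    have := (Finsupp.single_left_inj (one_ne_zero : (1 : ℕ) ≠ 0)).1 h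
    exact hl this
  · simp

lemma coeff_zero_lin (x : M) : MvPolynomial.coeff 0 (lin b x) = 0 := by
  rw [lin_eq, MvPolynomial.coeff_sum]
  refine Finset.sum_eq_zero fun j _ => ?_
  rw [MvPolynomial.coeff_C_mul, MvPolynomial.coeff_X, if_neg, mul_zero]
  intro h
  have := Finsupp.single_eq_zero.1 h
  exact one_ne_zero this

lemma lin_inj {x y : M} (h : lin b x = lin b y) : x = y :=
  cf_ext b fun j => by rw [← coeff_lin, h, coeff_lin]

lemma lin_ne_zero {x : M} (hx : x ≠ 0) : lin b x ≠ 0 := by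
  intro h
  apply hx
  apply lin_inj b
  rw [h, map_zero]

lemma lin_root_ne_zero (w : P.weylGroup) (i : ι) : lin b (w • P.root i) ≠ 0 := by
  rw [← root_smul]
  exact lin_ne_zero b (P.ne_zero _)

lemma one_sub_lin_ne_zero (x : M) : 1 - lin b x ≠ 0 := by
  intro h
  have := congrArg (MvPolynomial.coeff 0) h
  rw [MvPolynomial.coeff_sub, coeff_zero_lin] at this
  simp at this

lemma lin_NN {x : M} (h : ∀ j, 0 ≤ cf b j x) : NN (lin b x) := by
  rw [lin_eq]
  exact NN.sum fun j _ => (NN.C (h j)).mul (NN.X j)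

lemma lin_IsInt {x : M} (h : ∀ j, ∃ n : ℤ, cf b j x = n) : IsInt (lin b x) := by
  rw [lin_eq]
  refine IsInt.sum fun j _ => ?_
  obtain ⟨n, hn⟩ := h j
  exact (IsInt.C n hn).mul (IsInt.X j)

lemma cf_root_int (i : ι) (j : b.support) : ∃ n : ℤ, cf b j (P.root i) = n := by
  obtain ⟨f, -, -, h, -⟩ := exists_cf b i
  exact ⟨f j, h j⟩

lemma lin_root_IsInt (i : ι) : IsInt (lin b (P.root i)) := lin_IsInt b (cf_root_int b i)

end

end Pool.Agent.CSMS
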