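import Pool.Agent.CSMS.Expand
import Pool.Agent.CSMS.Blocks

set_option autoImplicit false
set_option linter.unusedSectionVars false

/-!
# The main theorem
-/

open RootPairing Set Module
open scoped Classical

namespace Pool.Agent.CSMS

noncomputable section

variable {ι M N : Type*} [AddCommGroup M] [Module ℚ M] [AddCommGroup N] [Module ℚ N]
  {P : RootPairing ι ℚ M N} [Fintype ι] [P.IsRootSystem] [P.IsCrystallographic] [P.IsReduced]
  {b : P.Base} {e y : P.weylGroup → P.weylGroup → MvPolynomial b.support ℚ}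
  [Fintype P.weylGroup]

theorem posFun_blocks (he : IsCSM b e) (hy : IsSchubert b y) {v : P.weylGroup} {J : Set ι}
    (hv : Blocks b v J) : J ⊆ b.support ∧ InJ P J v ∧ PosFun e (y v) := by
  induction hv with
  | one =>
    refine ⟨by simp, InJ.one _, PosFun.one.congr fun z => ?_⟩
    rw [schub_one hy]
  | @single v J i hv hi h ih =>
    obtain ⟨h1, h2, h3⟩ := ih
    refine ⟨?_, ?_, ?_⟩
    · exact Set.insert_subset hi h1
    · exact (h2.mono (Set.subset_insert _ _)).mul (InJ.s (Set.mem_insert _ _))
    · have h4 : PosFun e (y (s P i)) :=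
        (posFun_s he ⟨i, hi⟩).congr fun z => schub_s hy ⟨i, hi⟩ z
      refine (h3.mul h4).congr fun z => ?_
      exact schub_mul hy _ J {i} h1 (by simpa using hi)
        (fun a ha c hc => by
          rw [Set.mem_singleton_iff] at hc
          subst hc
          exact pin_symm_zero _ _ (h a ha)) v (s P i) h2 (InJ.s rfl) le_rfl z
  | @pair v J i k hv hi hk hik hadj h ih =>
    obtain ⟨h1, h2, h3⟩ := ih
    refine ⟨?_, ?_, ?_⟩
    · exact Set.insert_subset hi (Set.insert_subset hk h1)
    · refine (h2.mono ((Set.subset_insert _ _).trans (Set.subset_insert _ _))).mul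
        ((InJ.s ?_).mul (InJ.s (Set.mem_insert _ _)))
      exact Set.mem_insert_of_mem _ (Set.mem_insert _ _)
    · have h4 : PosFun e (y (s P k * s P i)) :=
        posFun_pair (i := ⟨i, hi⟩) (k := ⟨k, hk⟩) he hy
          (fun h => hik (congrArg Subtype.val h)) hadj
      refine (h3.mul h4).congr fun z => ?_
      refine schub_mul hy _ J {i, k} h1 ?_ ?_ v (s P k * s P i) h2
        ((InJ.s (by simp)).mul (InJ.s (by simp))) le_rfl z
      · exact Set.insert_subset hi (Set.singleton_subset_iff.2 hk)
      · intro a ha c hc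
        rcases hc with hc | hc
        · subst hc
          exact pin_symm_zero _ _ (h a ha).1
        · rw [Set.mem_singleton_iff] at hc
          subst hc
          exact pin_symm_zero _ _ (h a ha).2

theorem main (he : IsCSM b e) (hy : IsSchubert b y) (u v : P.weylGroup) :
    ∃ a : P.weylGroup → MvPolynomial b.support ℚ,
      (∀ z, e u z * y v z = ∑ w, a w * e w z) ∧
      (∀ a' : P.weylGroup → MvPolynomial b.support ℚ,
        (∀ z, e u z * y v z = ∑ w, a' w * e w z) → a' = a) ∧
      (∀ w m, ∃ n : ℤ, MvPolynomial.coeff m (a w) = n) ∧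
      (∀ J, Blocks b v J → ∀ w m, ∃ n : ℕ, MvPolynomial.coeff m (a w) = n) := by
  obtain ⟨a, h1, h2'⟩ := intF_schub he hy _ v rfl u
  have h2 : ∀ z, y v z * e u z = ∑ w, a w * e w z := h2'
  have h3 : ∀ a' : P.weylGroup → MvPolynomial b.support ℚ,
      (∀ z, e u z * y v z = ∑ w, a' w * e w z) → a' = a := by
    intro a' h
    funext w
    refine coeff_unique he (fun z => ?_) w
    rw [← h z, ← h2 z, mul_comm]
  refine ⟨a, fun z => by rw [mul_comm, h2 z], h3, h1, ?_⟩
  intro J hJ w m
  obtain ⟨A, hA, hA'⟩ := (posFun_blocks he hy hJ).2.2 u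
  have h4 : A = a := h3 A fun z => by rw [mul_comm, hA' z]
  exact nat_of_NN_IsInt (h4 ▸ hA w) (h1 w) m

end

end Pool.Agent.CSMS
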