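import Pool.Agent.CSMS.PairPos

set_option autoImplicit false
set_option linter.unusedSectionVars false

/-!
# Positivity of the coefficients of degree one
-/

open RootPairing Set Module
open scoped Classical

namespace Pool.Agent.CSMS

noncomputable section

variable {ι M N : Type*} [AddCommGroup M] [Module ℚ M] [AddCommGroup N] [Module ℚ N]
  {P : RootPairing ι ℚ M N} [Fintype ι] [P.IsRootSystem] [P.IsCrystallographic] [P.IsReduced]
  {b : P.Base} {τ : Type*} [Fintype τ] {c : ℚ} {lam : τ → M} {i k : b.support}

lemma qmu_pair (β : ι) (x : N) : P.toLinearMap (qmu P c lam β) x =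
    2 * qB P c lam (P.coroot β) x -
      qB P c lam (P.coroot β) (P.coroot β) * P.toLinearMap (P.root β) x := by
  unfold qmu
  rw [map_sub, LinearMap.sub_apply, map_sum, LinearMap.sum_apply, map_smul,
    LinearMap.smul_apply, smul_eq_mul]
  congr 1
  unfold qB
  rw [← mul_assoc, Finset.mul_sum]
  refine Finset.sum_congr rfl fun t _ => ?_
  rw [map_smul, LinearMap.smul_apply, smul_eq_mul]
  unfold pr
  ring

lemma qmu_simple (hq : Adapted b i k c lam) (j : b.support) :
    qmu P c lam j = if j = i then om b k else 0 := by
  apply pair_ext (P := P)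
  intro x
  rw [qmu_pair, hq j x]
  split_ifs
  · rw [om_pair]
  · rw [map_zero, LinearMap.zero_apply]

lemma cf_smul' (j : b.support) (r : ℚ) (x : M) : cf b j (r • x) = r * cf b j x := by
  rw [LinearMap.map_smul, smul_eq_mul]

lemma om_sub (k j : b.support) (w : P.weylGroup) : 0 ≤ cf b j (om b k - w • om b k) := by
  refine asc_ind (b := b) (p := fun w => 0 ≤ cf b j (om b k - w • om b k)) ?_ ?_ w
  · rw [one_smul, sub_self, map_zero]
  · intro w l hl ih hp
    rw [mul_smul, s_smul_eq, smul_sub', smul_rat]
    have h1 := pos_cf_nonneg b hp j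
    rw [root_smul] at h1
    have h2 := pair_om_simple b k ⟨l, hl⟩
    simp only at h2
    rw [h2]
    rw [map_sub] at ih
    rw [map_sub, map_sub, cf_smul']
    split_ifs
    · linarith
    · linarith

lemma pair_s (j : ι) (y : M) (x : N) :
    P.toLinearMap (s P j • y) x = P.toLinearMap y (P.coreflection j x) := by
  rw [s_smul_eq, coreflection_apply, map_sub, map_sub, LinearMap.sub_apply, map_smul, map_smul,
    LinearMap.smul_apply, smul_eq_mul, smul_eq_mul]
  ring

lemma qB_refl (hq : Adapted b i k c lam) (j : b.support) (x y : N) :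
    2 * qB P c lam (P.coreflection j x) (P.coreflection j y) =
      2 * qB P c lam x y - if j = i then
        P.toLinearMap (P.root j) x * ccf b k y +
        P.toLinearMap (P.root j) y * ccf b k x else 0 := by
  have h1 := hq j x
  have h2 := hq j y
  rw [coreflection_apply, coreflection_apply, qB_sub', qB_sub, qB_sub, qB_smul', qB_smul',
    qB_smul, qB_smul, qB_symm c lam x (P.coroot j)]
  split_ifs at h1 h2 ⊢ with h
  · linear_combination -(P.toLinearMap (P.root j) y) * h1 - (P.toLinearMap (P.root j) x) * h2
  · linear_combination -(P.toLinearMap (P.root j) y) * h1 - (P.toLinearMap (P.root j) x) * h2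

lemma s_qmu (hq : Adapted b i k c lam) (j : b.support) (β : ι) :
    s P (j : ι) • qmu P c lam (s P (j : ι) • β) = qmu P c lam β + if j = i then
      (-(P.pairingIn ℤ (j : ι) β : ℚ)) • om b k - ccf b k (P.coroot β) • P.root j +
      ((P.pairingIn ℤ (j : ι) β : ℚ) * ccf b k (P.coroot β)) • P.root β else 0 := by
  apply pair_ext (P := P)
  intro x
  rw [pair_s, qmu_pair, map_add, LinearMap.add_apply, qmu_pair]
  have e0 : P.coroot (s P (j : ι) • β) = P.coreflection j (P.coroot β) := by
    rw [s_smul_idx, coroot_reflectionPerm]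
  have e1 : P.toLinearMap (P.root (s P (j : ι) • β)) (P.coreflection j x) =
      P.toLinearMap (P.root β) x := by
    rw [root_smul, ← pair_s, s_s_smul]
  have e2 : P.toLinearMap (P.root j) (P.coroot β) = (P.pairingIn ℤ (j : ι) β : ℚ) :=
    pr_root (j : ι) β
  rw [e0, e1]
  have h1 := qB_refl hq j (P.coroot β) x
  have h2 := qB_refl hq j (P.coroot β) (P.coroot β)
  rw [e2] at h1 h2
  split_ifs at h1 h2 ⊢ with h
  · simp only [map_add, map_sub, map_smul, LinearMap.add_apply, LinearMap.sub_apply,
      LinearMap.smul_apply, smul_eq_mul, om_pair]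
    linear_combination h1 - P.toLinearMap (P.root β) x / 2 * h2
  · rw [map_zero, LinearMap.zero_apply]
    linear_combination h1 - P.toLinearMap (P.root β) x / 2 * h2

lemma ccf_s (i j : b.support) (β : ι) : ccf b i (P.coroot (s P (j : ι) • β)) =
    ccf b i (P.coroot β) - if j = i then (P.pairingIn ℤ (j : ι) β : ℚ) else 0 := by
  rw [coroot_s, map_sub, map_smul, ccf_simple]
  split_ifs <;> simp

/-- The coefficients of degree one are nonnegative. -/
theorem mu_pos (hq : Adapted b i k c lam) (hik : i ≠ k) {β : ι} (hβ : b.IsPos β) :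
    ∀ (u : P.weylGroup) (l : b.support),
      0 ≤ cf b l (ccf b i (P.coroot β) • om b k - u • qmu P c lam β) := by
  refine pos_ind b (p := fun β => ∀ (u : P.weylGroup) (l : b.support),
      0 ≤ cf b l (ccf b i (P.coroot β) • om b k - u • qmu P c lam β)) ?_ ?_ hβ
  · intro j hj u l
    have h1 := qmu_simple hq ⟨j, hj⟩
    have h2 := ccf_simple b i ⟨j, hj⟩
    simp only at h1 h2
    rw [h1, h2]
    split_ifs
    · rw [one_smul]
      exact om_sub k l u
    · simp
  · intro β j hj hβ hβj hsβ hneg ih u l
    have h1 := s_qmu hq ⟨j, hj⟩ β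
    have h2 := ccf_s i ⟨j, hj⟩ β
    simp only at h1 h2
    have h3 : u • qmu P c lam (s P j • β) = (u * s P j) • (s P j • qmu P c lam (s P j • β)) := by
      rw [mul_smul, s_s_smul]
    rw [h3, h1, h2]
    set u' := u * s P j with hu'
    have ih' := ih u' l
    by_cases hji : (⟨j, hj⟩ : b.support) = i
    · rw [if_pos hji, if_pos hji]
      have hji' : j = (i : ι) := congrArg Subtype.val hji
      subst hji'
      set m : ℚ := ccf b k (P.coroot β) with hm
      set t : ℚ := -(P.pairingIn ℤ (i : ι) β : ℚ) with ht
      have hm0 : 0 ≤ m := pos_ccf_nonneg b hβ k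
      have ht1 : 1 ≤ t := by
        have : P.pairingIn ℤ (i : ι) β ≤ -1 := by omega
        have : (P.pairingIn ℤ (i : ι) β : ℚ) ≤ -1 := by exact_mod_cast this
        linarith
      set r : ℚ := -(P.pairingIn ℤ β (i : ι) : ℚ) with hr
      have hr1 : 1 ≤ r := by
        have h4 := hneg
        rw [P.pairingIn_lt_zero_iff] at h4
        have : P.pairingIn ℤ β (i : ι) ≤ -1 := by omega
        have : (P.pairingIn ℤ β (i : ι) : ℚ) ≤ -1 := by exact_mod_cast this
        linarith
      have hs1 : s P β • om b k = om b k - m • P.root β := by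
        rw [s_smul_eq, om_pair]
      have hs2 : (s P (i : ι) * s P β) • om b k =
          om b k - m • P.root β - (m * r) • P.root (i : ι) := by
        rw [mul_smul, hs1, s_smul_eq]
        congr 2
        rw [map_sub, LinearMap.sub_apply, pair_om_simple, if_neg hik, map_smul,
          LinearMap.smul_apply, smul_eq_mul]
        have : P.toLinearMap (P.root β) (P.coroot i) = (P.pairingIn ℤ β (i : ι) : ℚ) :=
          pr_root β (i : ι)
        rw [this]
        ring
      have hexp : cf b l ((ccf b i (P.coroot β) - (P.pairingIn ℤ (i : ι) β : ℚ)) • om b k -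
          u' • (qmu P c lam β + (t • om b k - m • P.root i +
            ((P.pairingIn ℤ (i : ι) β : ℚ) * m) • P.root β))) =
          cf b l (ccf b i (P.coroot β) • om b k - u' • qmu P c lam β) +
          t * (cf b l (om b k) - cf b l (u' • om b k) + m * cf b l (u' • P.root β)) +
          m * cf b l (u' • P.root i) := by
        have : (P.pairingIn ℤ (i : ι) β : ℚ) = -t := by rw [ht]; ring
        rw [this, smul_add, smul_add, smul_sub', smul_rat, smul_rat, smul_rat]
        simp only [map_sub, map_add, map_smul, smul_eq_mul]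
        ring
      rw [hexp]
      by_cases hp : b.IsPos (u' • (i : ι))
      · have g1 := om_sub k l (u' * s P β)
        rw [mul_smul, hs1, smul_sub', smul_rat, map_sub, map_sub, cf_smul'] at g1
        have g2 := pos_cf_nonneg b hp l
        rw [root_smul] at g2
        have g3 := mul_nonneg hm0 g2
        have g4 : 0 ≤ t * (cf b l (om b k) - cf b l (u' • om b k) +
            m * cf b l (u' • P.root β)) := mul_nonneg (by linarith) (by linarith)
        linarith
      · have g1 := om_sub k l (u' * (s P (i : ι) * s P β))
        rw [mul_smul, hs2, smul_sub', smul_sub', smul_rat, smul_rat, map_sub, map_sub, map_sub,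
          cf_smul', cf_smul'] at g1
        have g2 := nonpos_of_not_pos b hp l
        rw [root_smul] at g2
        have g3 : 0 ≤ m * (t * r - 1) * (- cf b l (u' • P.root (i : ι))) := by
          have : 1 ≤ t * r := by nlinarith
          exact mul_nonneg (mul_nonneg hm0 (by linarith)) (by linarith)
        have g4 := mul_nonneg (by linarith : (0 : ℚ) ≤ t) g1
        nlinarith
    · rw [if_neg hji, if_neg hji, add_zero, sub_zero]
      exact ih'

end

end Pool.Agent.CSMS
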