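import Pool.Agent.CSMS.Schub

set_option autoImplicit false
set_option linter.unusedSectionVars false

/-!
# Multiplicativity of Schubert classes with totally disconnected supports
-/

open RootPairing Set Module
open scoped Classical

namespace Pool.Agent.CSMS

noncomputable section

variable {ι M N : Type*} [AddCommGroup M] [Module ℚ M] [AddCommGroup N] [Module ℚ N]
  {P : RootPairing ι ℚ M N} [Fintype ι] [P.IsRootSystem] [P.IsCrystallographic] [P.IsReduced]
  {b : P.Base} {y : P.weylGroup → P.weylGroup → MvPolynomial b.support ℚ}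

/-- Elements of the parabolic subgroup of `J`. -/
def InJ (P : RootPairing ι ℚ M N) (J : Set ι) (v : P.weylGroup) : Prop :=
  ∃ l : List ι, (∀ a ∈ l, a ∈ J) ∧ v = wprod l

lemma InJ.one (J : Set ι) : InJ P J 1 := ⟨[], by simp, rfl⟩

lemma InJ.s {J : Set ι} {j : ι} (h : j ∈ J) : InJ P J (s P j) :=
  ⟨[j], by simpa using h, (wprod_single j).symm⟩

lemma InJ.mul {J : Set ι} {v w : P.weylGroup} (hv : InJ P J v) (hw : InJ P J w) :
    InJ P J (v * w) := by
  obtain ⟨l, h1, rfl⟩ := hv
  obtain ⟨l', h2, rfl⟩ := hw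
  refine ⟨l ++ l', ?_, (wprod_append l l').symm⟩
  intro a ha
  rcases List.mem_append.1 ha with h | h
  · exact h1 a h
  · exact h2 a h

lemma InJ.inv {J : Set ι} {v : P.weylGroup} (hv : InJ P J v) : InJ P J v⁻¹ := by
  obtain ⟨l, h1, rfl⟩ := hv
  exact ⟨l.reverse, fun a ha => h1 a (List.mem_reverse.1 ha), wprod_inv l⟩

lemma InJ.mono {J J' : Set ι} (h : J ⊆ J') {v : P.weylGroup} (hv : InJ P J v) :
    InJ P J' v := by
  obtain ⟨l, h1, rfl⟩ := hv
  exact ⟨l, fun a ha => h (h1 a ha), rfl⟩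

lemma cf_InJ {J : Set ι} (hJ : J ⊆ b.support) {v : P.weylGroup} (hv : InJ P J v)
    {j : b.support} (hj : (j : ι) ∉ J) (x : M) : cf b j (v • x) = cf b j x := by
  obtain ⟨l, h1, rfl⟩ := hv
  induction l with
  | nil => rw [wprod_nil, one_smul]
  | cons a t ih =>
    have haJ : a ∈ J := h1 a (by simp)
    have has : a ∈ b.support := hJ haJ
    have h2 : cf b j (P.root a) = 0 := by
      have := cf_simple b j ⟨a, has⟩
      simp only at this
      rw [this, if_neg]
      rintro rfl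
      exact hj haJ
    rw [wprod_cons, mul_smul, s_smul_eq, map_sub, cf_smul', h2, mul_zero, sub_zero]
    exact ih fun z hz => h1 z (by simp [hz])

lemma pos_InJ {J : Set ι} (hJ : J ⊆ b.support) {v : P.weylGroup} (hv : InJ P J v)
    {j : b.support} (hj : (j : ι) ∉ J) : b.IsPos (v • (j : ι)) := by
  apply pos_of_cf_pos b j
  rw [root_smul, cf_InJ hJ hv hj, cf_simple, if_pos rfl]
  exact one_pos

lemma s_smul_orth {a j : ι} (h : P.pairingIn ℤ j a = 0) : s P a • j = j := by
  apply P.root.injective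
  rw [root_smul, s_smul_eq]
  have : P.toLinearMap (P.root j) (P.coroot a) = (P.pairingIn ℤ j a : ℚ) := pr_root j a
  rw [this, h, Int.cast_zero, zero_smul, sub_zero]

lemma fix_InJ {J : Set ι} {v : P.weylGroup} (hv : InJ P J v) {j : ι}
    (h : ∀ a ∈ J, P.pairingIn ℤ j a = 0) : v • j = j := by
  obtain ⟨l, h1, rfl⟩ := hv
  induction l with
  | nil => rw [wprod_nil, one_smul]
  | cons a t ih =>
    rw [wprod_cons, mul_smul, ih fun z hz => h1 z (by simp [hz]),
      s_smul_orth (h a (h1 a (by simp)))]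

lemma comm_InJ {J : Set ι} {v : P.weylGroup} (hv : InJ P J v) {j : ι}
    (h : ∀ a ∈ J, P.pairingIn ℤ j a = 0) : v * s P j = s P j * v := by
  rw [s_conj, fix_InJ hv h]

lemma comm_InJ_InJ {J₁ J₂ : Set ι} {v w : P.weylGroup} (hv : InJ P J₁ v) (hw : InJ P J₂ w)
    (h : ∀ a ∈ J₁, ∀ c ∈ J₂, P.pairingIn ℤ c a = 0) : v * w = w * v := by
  obtain ⟨l, h1, rfl⟩ := hw
  induction l with
  | nil => rw [wprod_nil, mul_one, one_mul]
  | cons a t ih =>
    rw [wprod_cons, ← mul_assoc, comm_InJ hv (fun x hx => h x hx a (h1 a (by simp))), mul_assoc,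
      ih fun z hz => h1 z (by simp [hz]), mul_assoc]

lemma pin_symm_zero (a c : ι) (h : P.pairingIn ℤ a c = 0) : P.pairingIn ℤ c a = 0 := by
  have h1 := F_coroot_coroot (P := P) a c
  have h2 := F_coroot_coroot (P := P) c a
  rw [h, Int.cast_zero, mul_zero] at h1
  rw [F_symm, h1] at h2
  rcases mul_eq_zero.1 h2.symm with h3 | h3
  · exact absurd h3 (F_self_pos (P := P) c).ne'
  · exact_mod_cast h3

/-- Multiplicativity. -/
theorem schub_mul (hy : IsSchubert b y) (n : ℕ) : ∀ (J₁ J₂ : Set ι), J₁ ⊆ b.support →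
    J₂ ⊆ b.support → (∀ a ∈ J₁, ∀ c ∈ J₂, P.pairingIn ℤ c a = 0) →
    ∀ v₁ v₂ : P.weylGroup, InJ P J₁ v₁ → InJ P J₂ v₂ → len b v₁ + len b v₂ ≤ n →
    ∀ z, y (v₁ * v₂) z = y v₁ z * y v₂ z := by
  induction n using Nat.strong_induction_on with
  | _ n ih =>
    intro J₁ J₂ hJ₁ hJ₂ horth v₁ v₂ hv₁ hv₂ hn z
    have hdisj : ∀ a, a ∈ J₁ → a ∈ J₂ → False := by
      intro a h1 h2
      have := horth a h1 a h2
      rw [pin_self] at this
      norm_num at this
    have horth' : ∀ a ∈ J₂, ∀ c ∈ J₁, P.pairingIn ℤ c a = 0 :=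
      fun a ha c hc => pin_symm_zero _ _ (horth c hc a ha)
    -- the step for a simple root in the first support
    have key : ∀ (J₁ J₂ : Set ι), J₁ ⊆ b.support → J₂ ⊆ b.support →
        (∀ a ∈ J₁, ∀ c ∈ J₂, P.pairingIn ℤ c a = 0) →
        (∀ a ∈ J₂, ∀ c ∈ J₁, P.pairingIn ℤ c a = 0) →
        ∀ v₁ v₂ : P.weylGroup, InJ P J₁ v₁ → InJ P J₂ v₂ → len b v₁ + len b v₂ ≤ n →
        ∀ z, ∀ j : b.support, (j : ι) ∈ J₁ →
          y (v₁ * v₂) (z * s P (j : ι)) - y (v₁ * v₂) z =
          y v₁ (z * s P (j : ι)) * y v₂ (z * s P (j : ι)) - y v₁ z * y v₂ z := by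
      intro J₁ J₂ hJ₁ hJ₂ horth horth' v₁ v₂ hv₁ hv₂ hn z j hj
      have e1 : v₂ • (j : ι) = j := fix_InJ hv₂ fun a ha => horth' a ha j hj
      have s0 := schub_step hy (v₁ * v₂) z j
      have s1 := schub_step hy v₁ z j
      have s2 := schub_step hy v₂ z j
      rw [e1, if_pos (Base.isPos_of_mem_support j.2)] at s2
      rw [mul_smul, e1] at s0
      by_cases hp : b.IsPos (v₁ • (j : ι))
      · rw [if_pos hp] at s0 s1
        rw [s0]
        linear_combination -y v₂ z * s1 - y v₁ (z * s P (j : ι)) * s2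
      · rw [if_neg hp] at s0 s1
        have hl := len_desc (b := b) v₁ j.2 hp
        have e2 : v₁ * v₂ * s P (j : ι) = v₁ * s P (j : ι) * v₂ := by
          rw [mul_assoc, comm_InJ hv₂ fun a ha => horth' a ha j hj, ← mul_assoc]
        have e3 := ih (n - 1) (by omega) J₁ J₂ hJ₁ hJ₂ horth (v₁ * s P (j : ι)) v₂
          (hv₁.mul (InJ.s hj)) hv₂ (by omega) z
        rw [s0, e2, e3]
        linear_combination -y v₂ z * s1 - y v₁ (z * s P (j : ι)) * s2
    refine fun_ext' (b := b) (f := fun z => y (v₁ * v₂) z) (g := fun z => y v₁ z * y v₂ z)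
      ?_ ?_ z
    · simp only [hy.one]
      by_cases h : v₁ * v₂ = 1
      · have h1 : v₁ = v₂⁻¹ := eq_inv_of_mul_eq_one_left h
        have h2 : v₁ = 1 := by
          apply smul_faithful
          intro x
          rw [one_smul]
          apply cf_ext b
          intro j
          by_cases hj : (j : ι) ∈ J₁
          · rw [h1]
            exact cf_InJ hJ₂ hv₂.inv (fun h' => hdisj _ hj h') x
          · exact cf_InJ hJ₁ hv₁ hj x
        have h3 : v₂ = 1 := by
          rw [h2, one_mul] at h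
          exact h
        rw [if_pos h, if_pos h2, if_pos h3, mul_one]
      · rw [if_neg h]
        by_cases h2 : v₁ = 1
        · by_cases h3 : v₂ = 1
          · exact absurd (by rw [h2, h3, mul_one]) h
          · rw [if_neg h3, mul_zero]
        · rw [if_neg h2, zero_mul]
    · intro z j
      by_cases hj1 : (j : ι) ∈ J₁
      · exact key J₁ J₂ hJ₁ hJ₂ horth horth' v₁ v₂ hv₁ hv₂ hn z j hj1
      · by_cases hj2 : (j : ι) ∈ J₂
        · have hcomm := comm_InJ_InJ hv₁ hv₂ horth
          have := key J₂ J₁ hJ₂ hJ₁ horth' horth v₂ v₁ hv₂ hv₁ (by omega) z j hj2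
          rw [← hcomm] at this
          rw [this]
          ring
        · have s0 := schub_step hy (v₁ * v₂) z j
          have s1 := schub_step hy v₁ z j
          have s2 := schub_step hy v₂ z j
          have hU : J₁ ∪ J₂ ⊆ (b.support : Set ι) := Set.union_subset hJ₁ hJ₂
          have hvv : InJ P (J₁ ∪ J₂) (v₁ * v₂) :=
            (hv₁.mono Set.subset_union_left).mul (hv₂.mono Set.subset_union_right)
          rw [if_pos (pos_InJ hU hvv (fun h => h.elim hj1 hj2))] at s0
          rw [if_pos (pos_InJ hJ₁ hv₁ hj1)] at s1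
          rw [if_pos (pos_InJ hJ₂ hv₂ hj2)] at s2
          rw [s0]
          linear_combination -y v₂ z * s1 - y v₁ (z * s P (j : ι)) * s2

end

end Pool.Agent.CSMS
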