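import Pool.Agent.CSMS.Form

set_option autoImplicit false
set_option linter.unusedSectionVars false

/-!
# Positivity for pairs of positive roots
-/

open RootPairing Set Module
open scoped Classical

namespace Pool.Agent.CSMS

noncomputable section

variable {ι M N : Type*} [AddCommGroup M] [Module ℚ M] [AddCommGroup N] [Module ℚ N]
  {P : RootPairing ι ℚ M N} [Fintype ι] [P.IsRootSystem] [P.IsCrystallographic] [P.IsReduced]
  {b : P.Base}

section Bil

variable {τ : Type*} [Fintype τ] (c : ℚ) (lam : τ → M)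

lemma qB_symm (x y : N) : qB P c lam x y = qB P c lam y x := by
  unfold qB
  congr 1
  exact Finset.sum_congr rfl fun t _ => mul_comm _ _

lemma qB_add (x y z : N) : qB P c lam x (y + z) = qB P c lam x y + qB P c lam x z := by
  unfold qB
  rw [← mul_add, ← Finset.sum_add_distrib]
  congr 1
  exact Finset.sum_congr rfl fun t _ => by rw [map_add]; ring

lemma qB_smul (r : ℚ) (x y : N) : qB P c lam x (r • y) = r * qB P c lam x y := by
  unfold qB
  rw [Finset.mul_sum, Finset.mul_sum, Finset.mul_sum]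
  exact Finset.sum_congr rfl fun t _ => by rw [map_smul, smul_eq_mul]; ring

lemma qB_sub (x y z : N) : qB P c lam x (y - z) = qB P c lam x y - qB P c lam x z := by
  unfold qB
  rw [← mul_sub, ← Finset.sum_sub_distrib]
  congr 1
  exact Finset.sum_congr rfl fun t _ => by rw [map_sub]; ring

lemma qB_add' (x y z : N) : qB P c lam (x + y) z = qB P c lam x z + qB P c lam y z := by
  rw [qB_symm, qB_add, qB_symm, qB_symm c lam z y]

lemma qB_sub' (x y z : N) : qB P c lam (x - y) z = qB P c lam x z - qB P c lam y z := by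
  rw [qB_symm, qB_sub, qB_symm, qB_symm c lam z y]

lemma qB_smul' (r : ℚ) (x y : N) : qB P c lam (r • x) y = r * qB P c lam x y := by
  rw [qB_symm, qB_smul, qB_symm]

lemma qB_neg' (x y : N) : qB P c lam (-x) y = - qB P c lam x y := by
  rw [← neg_one_smul ℚ x, qB_smul']
  ring

end Bil

lemma coroot_s (j a : ι) : P.coroot (s P j • a) =
    P.coroot a - (P.pairingIn ℤ j a : ℚ) • P.coroot j := by
  rw [s_smul_idx, coroot_reflectionPerm, coreflection_apply_coroot]
  congr 2
  exact pr_root j a

lemma pin_smul (w : P.weylGroup) (a c : ι) :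
    P.pairingIn ℤ (w • a) (w • c) = P.pairingIn ℤ a c := by
  have h1 := pr_smul w (P.root a) c
  rw [← root_smul, pr_root, pr_root] at h1
  exact_mod_cast h1

lemma pin_self (a : ι) : P.pairingIn ℤ a a = 2 := by
  have h1 : pr P (P.root a) a = 2 := P.root_coroot_two a
  rw [pr_root] at h1
  exact_mod_cast h1

lemma pin_s_right (j a c : ι) : P.pairingIn ℤ a (s P j • c) =
    P.pairingIn ℤ a c - P.pairingIn ℤ j c * P.pairingIn ℤ a j := by
  have h1 : pr P (P.root a) (s P j • c) =
      pr P (P.root a) c - (P.pairingIn ℤ j c : ℚ) * pr P (P.root a) j := by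
    unfold pr
    rw [coroot_s, map_sub, map_smul, smul_eq_mul]
  rw [pr_root, pr_root, pr_root] at h1
  exact_mod_cast h1

lemma pin_s_left (j a c : ι) : P.pairingIn ℤ (s P j • a) c =
    P.pairingIn ℤ a c - P.pairingIn ℤ a j * P.pairingIn ℤ j c := by
  have h1 : pr P (P.root (s P j • a)) c =
      pr P (P.root a) c - (P.pairingIn ℤ a j : ℚ) * pr P (P.root j) c := by
    unfold pr
    rw [root_smul, s_smul_eq, map_sub, map_smul, LinearMap.sub_apply, LinearMap.smul_apply,
      smul_eq_mul]
    congr 2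
    exact pr_root a j
  rw [pr_root, pr_root, pr_root] at h1
  exact_mod_cast h1

lemma F_cross (a c : ι) : P.CorootForm (P.coroot a) (P.coroot a) * (P.pairingIn ℤ a c : ℚ) =
    P.CorootForm (P.coroot c) (P.coroot c) * (P.pairingIn ℤ c a : ℚ) := by
  rw [← F_coroot_coroot, ← F_coroot_coroot, F_symm]

lemma cyc (a c d : ι) : P.pairingIn ℤ a c * P.pairingIn ℤ c d * P.pairingIn ℤ d a =
    P.pairingIn ℤ c a * P.pairingIn ℤ d c * P.pairingIn ℤ a d := by
  have h1 := F_cross (P := P) a c
  have h2 := F_cross (P := P) c d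
  have h3 := F_cross (P := P) d a
  have p1 := F_self_pos (P := P) a
  have p2 := F_self_pos (P := P) c
  have p3 := F_self_pos (P := P) d
  have h4 : ((P.pairingIn ℤ a c : ℚ) * P.pairingIn ℤ c d * P.pairingIn ℤ d a) =
      (P.pairingIn ℤ c a : ℚ) * P.pairingIn ℤ d c * P.pairingIn ℤ a d := by
    have h5 : (P.CorootForm (P.coroot a) (P.coroot a) * P.CorootForm (P.coroot c) (P.coroot c) *
        P.CorootForm (P.coroot d) (P.coroot d)) ≠ 0 := by positivity
    apply mul_left_cancel₀ h5
    calc _ = (P.CorootForm (P.coroot a) (P.coroot a) * (P.pairingIn ℤ a c : ℚ)) *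
          (P.CorootForm (P.coroot c) (P.coroot c) * (P.pairingIn ℤ c d : ℚ)) *
          (P.CorootForm (P.coroot d) (P.coroot d) * (P.pairingIn ℤ d a : ℚ)) := by ring
      _ = _ := by rw [h1, h2, h3]; ring
  exact_mod_cast h4

variable (b) in
/-- The height of a coweight. -/
def htN (x : N) : ℚ := ∑ j : b.support, ccf b j x

lemma htN_simple (j : b.support) : htN b (P.coroot j) = 1 := by
  unfold htN
  simp [ccf_simple]

lemma htN_s (j : b.support) (a : ι) : htN b (P.coroot (s P (j : ι) • a)) =
    htN b (P.coroot a) - P.pairingIn ℤ (j : ι) a := by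
  have : ∀ (x y : N) (r : ℚ), htN b (x - r • y) = htN b x - r * htN b y := by
    intro x y r
    unfold htN
    rw [Finset.mul_sum, ← Finset.sum_sub_distrib]
    exact Finset.sum_congr rfl fun l _ => by rw [map_sub, map_smul, smul_eq_mul]
  rw [coroot_s, this, htN_simple, mul_one]

lemma htN_pos {a : ι} (ha : b.IsPos a) : 0 < htN b (P.coroot a) := by
  have h0 : ∀ j ∈ (Finset.univ : Finset b.support), 0 ≤ ccf b j (P.coroot a) :=
    fun j _ => pos_ccf_nonneg b ha j
  refine lt_of_le_of_ne (Finset.sum_nonneg h0) fun h => ?_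
  have h1 := (Finset.sum_eq_zero_iff_of_nonneg h0).1 h.symm
  apply P.ne_zero' a
  exact ccf_ext b fun j => by rw [h1 j (Finset.mem_univ _), map_zero]

/-- The pairing of a root with a combination of coroots is positive for some simple root. -/
lemma exists_simple_pos {a : ι} (ha : b.IsPos a) (c d : ι) (r : ℤ)
    (h : 0 < P.pairingIn ℤ a c + r * P.pairingIn ℤ a d) :
    ∃ j : b.support, 0 < P.pairingIn ℤ (j : ι) c + r * P.pairingIn ℤ (j : ι) d := by
  by_contra! hn
  have h1 : (P.pairingIn ℤ a c : ℚ) + r * (P.pairingIn ℤ a d : ℚ) =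
      ∑ j : b.support, cf b j (P.root a) *
        ((P.pairingIn ℤ (j : ι) c : ℚ) + r * (P.pairingIn ℤ (j : ι) d : ℚ)) := by
    rw [← pr_root, ← pr_root, pr_expand (b := b), pr_expand (b := b), Finset.mul_sum,
      ← Finset.sum_add_distrib]
    exact Finset.sum_congr rfl fun j _ => by ring
  have h2 : (P.pairingIn ℤ a c : ℚ) + r * (P.pairingIn ℤ a d : ℚ) ≤ 0 := by
    rw [h1]
    refine Finset.sum_nonpos fun j _ => ?_
    refine mul_nonpos_of_nonneg_of_nonpos (pos_cf_nonneg b ha j) ?_
    exact_mod_cast hn j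
  have h3 : P.pairingIn ℤ a c + r * P.pairingIn ℤ a d ≤ 0 := by exact_mod_cast h2
  omega

lemma pin_mem {a c : ι} (ha : b.IsPos a) (hc : b.IsPos c) (h : a ≠ c) :
    (P.pairingIn ℤ a c, P.pairingIn ℤ c a) ∈
      ({(0, 0), (1, 1), (-1, -1), (1, 2), (2, 1), (-1, -2), (-2, -1), (1, 3), (3, 1), (-1, -3),
        (-3, -1)} : Set (ℤ × ℤ)) := by
  refine P.pairingIn_pairingIn_mem_set_of_isCrystal_of_isRed' a c ?_ ?_
  · intro h1
    exact h (P.root.injective h1)
  · intro h1
    rw [← root_opp] at h1
    have h2 := P.root.injective h1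
    rw [h2, opp_pos_iff] at ha
    exact ha hc

end

end Pool.Agent.CSMS
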