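import Pool.Agent.CSMS.Pair

set_option autoImplicit false
set_option linter.unusedSectionVars false

/-!
# Positivity for pairs of positive roots, continued
-/

open RootPairing Set Module
open scoped Classical

namespace Pool.Agent.CSMS

noncomputable section

variable {ι M N : Type*} [AddCommGroup M] [Module ℚ M] [AddCommGroup N] [Module ℚ N]
  {P : RootPairing ι ℚ M N} [Fintype ι] [P.IsRootSystem] [P.IsCrystallographic] [P.IsReduced]
  {b : P.Base} {τ : Type*} [Fintype τ] {c : ℚ} {lam : τ → M} {i k : b.support}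

/-- `⟨∂_d q, a^∨⟩` -/
def Cc (P : RootPairing ι ℚ M N) [P.IsCrystallographic] (c : ℚ) (lam : τ → M) (a d : ι) : ℚ :=
  2 * qB P c lam (P.coroot a) (P.coroot d) -
    (P.pairingIn ℤ d a : ℚ) * qB P c lam (P.coroot d) (P.coroot d)

lemma Cc_simple (hq : Adapted b i k c lam) (a : ι) (j : b.support) :
    Cc P c lam a j = if j = i then ccf b k (P.coroot a) else 0 := by
  have h1 := hq j (P.coroot a)
  unfold Cc
  rw [← h1, qB_symm c lam (P.coroot a)]
  have : P.toLinearMap (P.root j) (P.coroot a) = (P.pairingIn ℤ (j : ι) a : ℚ) :=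
    pr_root (j : ι) a
  rw [this]
  ring

lemma qB_s (hq : Adapted b i k c lam) (j : b.support) (a d : ι) :
    2 * qB P c lam (P.coroot (s P (j : ι) • a)) (P.coroot (s P (j : ι) • d)) =
      2 * qB P c lam (P.coroot a) (P.coroot d) - if j = i then
        (P.pairingIn ℤ (j : ι) a : ℚ) * ccf b k (P.coroot d) +
        (P.pairingIn ℤ (j : ι) d : ℚ) * ccf b k (P.coroot a) else 0 := by
  have h1 := hq j (P.coroot a)
  have h2 := hq j (P.coroot d)
  have e1 : P.toLinearMap (P.root j) (P.coroot a) = (P.pairingIn ℤ (j : ι) a : ℚ) :=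
    pr_root (j : ι) a
  have e2 : P.toLinearMap (P.root j) (P.coroot d) = (P.pairingIn ℤ (j : ι) d : ℚ) :=
    pr_root (j : ι) d
  rw [e1] at h1
  rw [e2] at h2
  rw [coroot_s, coroot_s, qB_sub', qB_sub, qB_sub, qB_smul', qB_smul', qB_smul, qB_smul,
    qB_symm c lam (P.coroot a) (P.coroot j)]
  split_ifs at h1 h2 ⊢ with h
  · linear_combination -(P.pairingIn ℤ (j : ι) d : ℚ) * h1 - (P.pairingIn ℤ (j : ι) a : ℚ) * h2
  · linear_combination -(P.pairingIn ℤ (j : ι) d : ℚ) * h1 - (P.pairingIn ℤ (j : ι) a : ℚ) * h2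

lemma Cc_s (hq : Adapted b i k c lam) (j : b.support) (a d : ι) :
    Cc P c lam (s P (j : ι) • a) (s P (j : ι) • d) = Cc P c lam a d - if j = i then
      (P.pairingIn ℤ (j : ι) a : ℚ) * ccf b k (P.coroot d) +
      (P.pairingIn ℤ (j : ι) d : ℚ) * ccf b k (P.coroot a) -
      (P.pairingIn ℤ d a : ℚ) * (P.pairingIn ℤ (j : ι) d : ℚ) * ccf b k (P.coroot d) else 0 := by
  have h1 := qB_s hq j a d
  have h2 := qB_s hq j d d
  unfold Cc
  rw [pin_smul]
  split_ifs at h1 h2 ⊢ with h
  · linear_combination h1 - (P.pairingIn ℤ d a : ℚ) / 2 * h2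
  · linear_combination h1 - (P.pairingIn ℤ d a : ℚ) / 2 * h2

/-- The case of an obtuse angle. -/
theorem Cc_neg (hq : Adapted b i k c lam) (n : ℕ) : ∀ a d : ι, b.IsPos a → b.IsPos d → a ≠ d →
    P.pairingIn ℤ d a < 0 → htN b (P.coroot a) + 3 * htN b (P.coroot d) ≤ n →
    0 ≤ Cc P c lam a d := by
  induction n with
  | zero =>
    intro a d ha hd _ _ hn
    exfalso
    have h1 := htN_pos ha
    have h2 := htN_pos hd
    simp only [Nat.cast_zero] at hn
    linarith
  | succ n ih =>
    intro a d ha hd had hneg hn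
    have hmem := pin_mem hd ha (Ne.symm had)
    simp only [Set.mem_insert_iff, Set.mem_singleton_iff, Prod.mk.injEq] at hmem
    obtain ⟨j, hj⟩ := exists_simple_pos hd a d 3 (by rw [pin_self]; omega)
    by_cases hjd : (j : ι) = d
    · rw [← hjd, Cc_simple hq]
      split_ifs
      · exact pos_ccf_nonneg b ha k
      · exact le_refl 0
    by_cases hja : (j : ι) = a
    · exfalso
      rw [hja, pin_self] at hj
      omega
    have hjp : b.IsPos (j : ι) := Base.isPos_of_mem_support j.2
    have hm1 := pin_mem hjp ha hja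
    have hm2 := pin_mem hjp hd hjd
    simp only [Set.mem_insert_iff, Set.mem_singleton_iff, Prod.mk.injEq] at hm1 hm2
    have hcyc := cyc (P := P) (j : ι) a d
    have ih' := ih (s P (j : ι) • a) (s P (j : ι) • d) (pos_s ha j.2 (Ne.symm hja))
      (pos_s hd j.2 (Ne.symm hjd)) (fun h => had (MulAction.injective _ h))
      (by rwa [pin_smul]) (by
        rw [htN_s, htN_s]
        have : (1 : ℚ) ≤ (P.pairingIn ℤ (j : ι) a : ℚ) + 3 * (P.pairingIn ℤ (j : ι) d : ℚ) := by
          exact_mod_cast hj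
        push_cast at hn
        linarith)
    rw [Cc_s hq] at ih'
    split_ifs at ih' with hji
    · have hq0 : 0 ≤ P.pairingIn ℤ (j : ι) d := by omega
      have hp0 : 0 ≤ P.pairingIn ℤ (j : ι) a - P.pairingIn ℤ d a * P.pairingIn ℤ (j : ι) d := by
        generalize P.pairingIn ℤ (j : ι) a = p at *
        generalize P.pairingIn ℤ (j : ι) d = q at *
        generalize P.pairingIn ℤ d a = g at *
        generalize P.pairingIn ℤ a (j : ι) = p' at *
        generalize P.pairingIn ℤ d (j : ι) = q' at *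
        generalize P.pairingIn ℤ a d = g' at *
        rcases hmem with h | h | h | h | h | h | h | h | h | h | h <;>
        rcases hm1 with h1 | h1 | h1 | h1 | h1 | h1 | h1 | h1 | h1 | h1 | h1 <;>
        rcases hm2 with h2 | h2 | h2 | h2 | h2 | h2 | h2 | h2 | h2 | h2 | h2 <;>
        obtain ⟨rfl, rfl⟩ := h <;> obtain ⟨rfl, rfl⟩ := h1 <;> obtain ⟨rfl, rfl⟩ := h2 <;>
        omega
      have h1 := pos_ccf_nonneg b ha k
      have h2 := pos_ccf_nonneg b hd k
      have hq0' : (0 : ℚ) ≤ (P.pairingIn ℤ (j : ι) d : ℚ) := by exact_mod_cast hq0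
      have hp0' : (0 : ℚ) ≤ (P.pairingIn ℤ (j : ι) a : ℚ) -
          (P.pairingIn ℤ d a : ℚ) * (P.pairingIn ℤ (j : ι) d : ℚ) := by exact_mod_cast hp0
      have h3 := mul_nonneg hp0' h2
      have h4 := mul_nonneg hq0' h1
      linarith
    · linarith

theorem Cc_neg' (hq : Adapted b i k c lam) {a d : ι} (ha : b.IsPos a) (hd : b.IsPos d)
    (had : a ≠ d) (h : P.pairingIn ℤ d a < 0) : 0 ≤ Cc P c lam a d := by
  obtain ⟨n, hn⟩ := exists_nat_ge (htN b (P.coroot a) + 3 * htN b (P.coroot d))
  exact Cc_neg hq n a d ha hd had h hn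

/-- The critical case of a right angle. -/
theorem critical (hq : Adapted b i k c lam) (hik : i ≠ k) {a d : ι} (ha : b.IsPos a)
    (hd : b.IsPos d) (had : a ≠ d) (h0 : P.pairingIn ℤ d a = 0) (hia : (i : ι) ≠ a)
    (hid : (i : ι) ≠ d) (hneg : P.pairingIn ℤ (i : ι) d < 0)
    (hsum : 0 < P.pairingIn ℤ (i : ι) a + P.pairingIn ℤ (i : ι) d) :
    0 ≤ qB P c lam (P.coroot a) (P.coroot d) ∨
      0 ≤ (P.pairingIn ℤ (i : ι) a : ℚ) * ccf b k (P.coroot d) +
        (P.pairingIn ℤ (i : ι) d : ℚ) * ccf b k (P.coroot a) := by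
  have hip : b.IsPos (i : ι) := Base.isPos_of_mem_support i.2
  have hm1 := pin_mem hip ha hia
  have hm2 := pin_mem hip hd hid
  have h0' : P.pairingIn ℤ a d = 0 := by
    have := pin_mem ha hd had
    simp only [Set.mem_insert_iff, Set.mem_singleton_iff, Prod.mk.injEq] at this
    omega
  have hm3 := P.pairingIn_pairingIn_mem_set_of_isCrystal_of_isRed (s P (i : ι) • d) a
  rw [pin_s_left, pin_s_right, h0, h0'] at hm3
  simp only [Set.mem_insert_iff, Set.mem_singleton_iff, Prod.mk.injEq] at hm1 hm2 hm3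
  have key : P.pairingIn ℤ (i : ι) d = -1 ∧ P.pairingIn ℤ d (i : ι) = -1 ∧
      P.pairingIn ℤ a (i : ι) = 1 := by
    generalize P.pairingIn ℤ (i : ι) a = p at *
    generalize P.pairingIn ℤ (i : ι) d = q at *
    generalize P.pairingIn ℤ a (i : ι) = p' at *
    generalize P.pairingIn ℤ d (i : ι) = q' at *
    rcases hm1 with h1 | h1 | h1 | h1 | h1 | h1 | h1 | h1 | h1 | h1 | h1 <;>
    rcases hm2 with h2 | h2 | h2 | h2 | h2 | h2 | h2 | h2 | h2 | h2 | h2 <;>
    obtain ⟨rfl, rfl⟩ := h1 <;> obtain ⟨rfl, rfl⟩ := h2 <;>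
    omega
  obtain ⟨k1, k2, k3⟩ := key
  set p := P.pairingIn ℤ (i : ι) a with hp
  have hp2 : 2 ≤ p := by omega
  -- the third root
  set f : ι := s P d • s P (i : ι) • a with hf
  have e1 : P.pairingIn ℤ d (s P (i : ι) • a) = p := by
    rw [pin_s_right, h0, k2, ← hp]
    ring
  have cof : P.coroot f = P.coroot a - (p : ℚ) • P.coroot i - (p : ℚ) • P.coroot d := by
    rw [hf, coroot_s, coroot_s, e1]
  have e2 : P.pairingIn ℤ d f = -p := by
    rw [hf, pin_s_right, e1, pin_self]
    ring
  by_cases hfp : b.IsPos f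
  · left
    have g1 := Cc_neg' hq hip hd hid (by omega)
    have hfd : f ≠ d := by
      intro h
      rw [h, pin_self] at e2
      omega
    have g2 := Cc_neg' hq hfp hd hfd (by omega)
    unfold Cc at g1 g2
    have hca : P.coroot a = P.coroot f + (p : ℚ) • P.coroot i + (p : ℚ) • P.coroot d := by
      rw [cof]
      abel
    rw [k2] at g1
    rw [e2] at g2
    rw [hca, qB_add', qB_add', qB_smul', qB_smul']
    have hpq : (2 : ℚ) ≤ (p : ℚ) := by exact_mod_cast hp2
    push_cast at g1 g2
    nlinarith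
  · right
    rw [← opp_pos_iff] at hfp
    have h3 := pos_ccf_nonneg b hfp k
    rw [ccf_opp, cof, map_sub, map_sub, map_smul, map_smul, ccf_simple, if_neg hik] at h3
    rw [k1]
    push_cast
    simp only [smul_eq_mul, mul_zero, sub_zero] at h3
    linarith

/-- The case of a right angle. -/
theorem Cc_zero (hq : Adapted b i k c lam) (hik : i ≠ k) (n : ℕ) : ∀ a d : ι, b.IsPos a →
    b.IsPos d → a ≠ d → P.pairingIn ℤ d a = 0 →
    htN b (P.coroot a) + htN b (P.coroot d) ≤ n → 0 ≤ qB P c lam (P.coroot a) (P.coroot d) := by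
  induction n with
  | zero =>
    intro a d ha hd _ _ hn
    exfalso
    have h1 := htN_pos ha
    have h2 := htN_pos hd
    simp only [Nat.cast_zero] at hn
    linarith
  | succ n ih =>
    intro a d ha hd had h0 hn
    have h0' : P.pairingIn ℤ a d = 0 := by
      have := pin_mem ha hd had
      simp only [Set.mem_insert_iff, Set.mem_singleton_iff, Prod.mk.injEq] at this
      omega
    obtain ⟨j, hj⟩ := exists_simple_pos hd a d 1 (by rw [pin_self]; omega)
    by_cases hjd : (j : ι) = d
    · have h1 := Cc_simple hq a j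
      unfold Cc at h1
      rw [hjd, h0] at h1
      have h2 : 0 ≤ if j = i then ccf b k (P.coroot a) else 0 := by
        split_ifs
        · exact pos_ccf_nonneg b ha k
        · exact le_refl 0
      rw [← h1] at h2
      push_cast at h2
      linarith
    by_cases hja : (j : ι) = a
    · have h1 := Cc_simple hq d j
      unfold Cc at h1
      rw [hja, h0'] at h1
      have h2 : 0 ≤ if j = i then ccf b k (P.coroot d) else 0 := by
        split_ifs
        · exact pos_ccf_nonneg b hd k
        · exact le_refl 0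
      rw [← h1, qB_symm] at h2
      push_cast at h2
      linarith
    have hjp : b.IsPos (j : ι) := Base.isPos_of_mem_support j.2
    have ih' := ih (s P (j : ι) • a) (s P (j : ι) • d) (pos_s ha j.2 (Ne.symm hja))
      (pos_s hd j.2 (Ne.symm hjd)) (fun h => had (MulAction.injective _ h))
      (by rwa [pin_smul]) (by
        rw [htN_s, htN_s]
        have : (1 : ℚ) ≤ (P.pairingIn ℤ (j : ι) a : ℚ) + (P.pairingIn ℤ (j : ι) d : ℚ) := by
          have : 1 ≤ P.pairingIn ℤ (j : ι) a + P.pairingIn ℤ (j : ι) d := by omega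
          exact_mod_cast this
        push_cast at hn
        linarith)
    have h2 := qB_s hq j a d
    split_ifs at h2 with hji
    · subst hji
      have h1 := pos_ccf_nonneg b ha k
      have h3 := pos_ccf_nonneg b hd k
      have goal_of : 0 ≤ (P.pairingIn ℤ (j : ι) a : ℚ) * ccf b k (P.coroot d) +
          (P.pairingIn ℤ (j : ι) d : ℚ) * ccf b k (P.coroot a) →
          0 ≤ qB P c lam (P.coroot a) (P.coroot d) := by
        intro h
        linarith
      rcases lt_or_ge (P.pairingIn ℤ (j : ι) d) 0 with hd0 | hd0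
      · rcases critical hq hik ha hd had h0 hja hjd hd0 (by omega) with h | h
        · exact h
        · exact goal_of h
      · rcases lt_or_ge (P.pairingIn ℤ (j : ι) a) 0 with ha0 | ha0
        · rcases critical hq hik hd ha (Ne.symm had) h0' hjd hja ha0 (by omega) with h | h
          · rw [qB_symm]
            exact h
          · exact goal_of (by linarith)
        · refine goal_of ?_
          have h4 : (0 : ℚ) ≤ (P.pairingIn ℤ (j : ι) a : ℚ) := by exact_mod_cast ha0
          have h5 : (0 : ℚ) ≤ (P.pairingIn ℤ (j : ι) d : ℚ) := by exact_mod_cast hd0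
          positivity
    · linarith

/-- Positivity for pairs. -/
theorem Cc_nonneg (hq : Adapted b i k c lam) (hik : i ≠ k) {a d : ι} (ha : b.IsPos a)
    (hd : b.IsPos d) (had : a ≠ d) (h : P.pairingIn ℤ d a ≤ 0) : 0 ≤ Cc P c lam a d := by
  rcases lt_or_eq_of_le h with h | h
  · exact Cc_neg' hq ha hd had h
  · obtain ⟨n, hn⟩ := exists_nat_ge (htN b (P.coroot a) + htN b (P.coroot d))
    have := Cc_zero hq hik n a d ha hd had h hn
    unfold Cc
    rw [h]
    push_cast
    linarith

end

end Pool.Agent.CSMS
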