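import Pool.Agent.CSMS.Mu

set_option autoImplicit false
set_option linter.unusedSectionVars false

/-!
# Planes spanned by two coroots
-/

open RootPairing Set Module
open scoped Classical

namespace Pool.Agent.CSMS

noncomputable section

variable {ι M N : Type*} [AddCommGroup M] [Module ℚ M] [AddCommGroup N] [Module ℚ N]
  {P : RootPairing ι ℚ M N} [Fintype ι] [P.IsRootSystem] [P.IsCrystallographic] [P.IsReduced]
  {b : P.Base}

lemma pin_prod {β γ : ι} (hβ : b.IsPos β) (hγ : b.IsPos γ) (h : β ≠ γ) :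
    (4 : ℚ) - (P.pairingIn ℤ β γ : ℚ) * (P.pairingIn ℤ γ β : ℚ) ≠ 0 := by
  have h1 := pin_mem hβ hγ h
  simp only [Set.mem_insert_iff, Set.mem_singleton_iff, Prod.mk.injEq] at h1
  have h2 : (4 : ℤ) - P.pairingIn ℤ β γ * P.pairingIn ℤ γ β ≠ 0 := by
    rcases h1 with h | h | h | h | h | h | h | h | h | h | h <;> rw [h.1, h.2] <;> norm_num
  exact_mod_cast h2

/-- Solving for a coweight. -/
lemma exists_solve {β γ : ι} (hβ : b.IsPos β) (hγ : b.IsPos γ) (h : β ≠ γ) (r r' : ℚ) :
    ∃ y : N, P.toLinearMap (P.root β) y = r ∧ P.toLinearMap (P.root γ) y = r' := by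
  have hD := pin_prod hβ hγ h
  set p : ℚ := (P.pairingIn ℤ β γ : ℚ) with hp
  set q : ℚ := (P.pairingIn ℤ γ β : ℚ) with hq
  have e1 : P.toLinearMap (P.root β) (P.coroot γ) = p := pr_root β γ
  have e2 : P.toLinearMap (P.root γ) (P.coroot β) = q := pr_root γ β
  have e3 : P.toLinearMap (P.root β) (P.coroot β) = 2 := P.root_coroot_two β
  have e4 : P.toLinearMap (P.root γ) (P.coroot γ) = 2 := P.root_coroot_two γ
  refine ⟨((2 * r - p * r') / (4 - p * q)) • P.coroot β +
    ((2 * r' - q * r) / (4 - p * q)) • P.coroot γ, ?_, ?_⟩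
  · rw [map_add, map_smul, map_smul, e1, e3, smul_eq_mul, smul_eq_mul,
      div_mul_eq_mul_div, div_mul_eq_mul_div, ← add_div, div_eq_iff hD]
    ring
  · rw [map_add, map_smul, map_smul, e2, e4, smul_eq_mul, smul_eq_mul,
      div_mul_eq_mul_div, div_mul_eq_mul_div, ← add_div, div_eq_iff hD]
    ring

lemma exists_solve' {β γ : ι} (hβ : b.IsPos β) (hγ : b.IsPos γ) (h : β ≠ γ) (r r' : ℚ) :
    ∃ y : M, P.toLinearMap y (P.coroot β) = r ∧ P.toLinearMap y (P.coroot γ) = r' := by
  have hD := pin_prod hβ hγ h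
  set p : ℚ := (P.pairingIn ℤ β γ : ℚ) with hp
  set q : ℚ := (P.pairingIn ℤ γ β : ℚ) with hq
  have e1 : P.toLinearMap (P.root β) (P.coroot γ) = p := pr_root β γ
  have e2 : P.toLinearMap (P.root γ) (P.coroot β) = q := pr_root γ β
  have e3 : P.toLinearMap (P.root β) (P.coroot β) = 2 := P.root_coroot_two β
  have e4 : P.toLinearMap (P.root γ) (P.coroot γ) = 2 := P.root_coroot_two γ
  refine ⟨((2 * r - q * r') / (4 - p * q)) • P.root β +
    ((2 * r' - p * r) / (4 - p * q)) • P.root γ, ?_, ?_⟩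
  · rw [map_add, LinearMap.add_apply, map_smul, map_smul, LinearMap.smul_apply,
      LinearMap.smul_apply, e2, e3, smul_eq_mul, smul_eq_mul,
      div_mul_eq_mul_div, div_mul_eq_mul_div, ← add_div, div_eq_iff hD]
    ring
  · rw [map_add, LinearMap.add_apply, map_smul, map_smul, LinearMap.smul_apply,
      LinearMap.smul_apply, e1, e4, smul_eq_mul, smul_eq_mul,
      div_mul_eq_mul_div, div_mul_eq_mul_div, ← add_div, div_eq_iff hD]
    ring

/-- Membership in the plane. -/
def InPl (P : RootPairing ι ℚ M N) (β γ t : ι) : Prop :=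
  ∃ x y : ℚ, P.coroot t = x • P.coroot β + y • P.coroot γ

lemma corefl_eq (w : P.weylGroup) (β γ : ι) (h : w = s P β * s P γ) (x : M) (n : N) :
    P.toLinearMap (w • x) n = P.toLinearMap x (P.coreflection γ (P.coreflection β n)) := by
  rw [h, mul_smul, pair_s, pair_s]

lemma coweight_ext {n n' : N} (h : ∀ x : M, P.toLinearMap x n = P.toLinearMap x n') :
    n = n' := by
  apply P.flip.toPerfPair.injective
  ext x
  exact h x

lemma mem_plane {β γ β₀ γ₀ : ι} (hβ : b.IsPos β) (hγ : b.IsPos γ) (h : β ≠ γ)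
    (hs : s P β * s P γ = s P β₀ * s P γ₀) : InPl P β₀ γ₀ β ∧ InPl P β₀ γ₀ γ := by
  have key : ∀ n : N, P.coreflection γ (P.coreflection β n) =
      P.coreflection γ₀ (P.coreflection β₀ n) := by
    intro n
    apply coweight_ext (P := P)
    intro x
    rw [← corefl_eq (s P β * s P γ) β γ rfl, ← corefl_eq (s P β * s P γ) β₀ γ₀ hs]
  have expand : ∀ (β γ : ι) (n : N), n - P.coreflection γ (P.coreflection β n) =
      P.toLinearMap (P.root β) n • P.coroot β +
        P.toLinearMap (P.root γ) (P.coreflection β n) • P.coroot γ := by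
    intro β γ n
    rw [P.coreflection_apply γ, P.coreflection_apply β]
    abel
  have main : ∀ n : N, ∃ x y : ℚ, P.toLinearMap (P.root β) n • P.coroot β +
        P.toLinearMap (P.root γ) (P.coreflection β n) • P.coroot γ =
      x • P.coroot β₀ + y • P.coroot γ₀ := by
    intro n
    refine ⟨P.toLinearMap (P.root β₀) n,
      P.toLinearMap (P.root γ₀) (P.coreflection β₀ n), ?_⟩
    rw [← expand, key, expand]
  have hself : ∀ n : N, P.toLinearMap (P.root β) (P.coreflection β n) =
      - P.toLinearMap (P.root β) n := by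
    intro n
    rw [coreflection_apply, map_sub, map_smul, smul_eq_mul]
    have : P.toLinearMap (P.root β) (P.coroot β) = 2 := P.root_coroot_two β
    rw [this]
    ring
  have hinv : ∀ n : N, P.coreflection β (P.coreflection β n) = n :=
    fun n => P.coreflection_same β n
  constructor
  · obtain ⟨y, h1, h2⟩ := exists_solve hβ hγ h (-1) 0
    obtain ⟨c1, c2, hc⟩ := main (P.coreflection β y)
    rw [hinv, hself, h1, h2, neg_neg, one_smul, zero_smul, add_zero] at hc
    exact ⟨c1, c2, hc⟩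
  · obtain ⟨y, h1, h2⟩ := exists_solve hβ hγ h 0 1
    obtain ⟨c1, c2, hc⟩ := main (P.coreflection β y)
    rw [hinv, hself, h1, h2, neg_zero, one_smul, zero_smul, zero_add] at hc
    exact ⟨c1, c2, hc⟩

lemma htN_add (x y : N) : htN b (x + y) = htN b x + htN b y := by
  unfold htN
  rw [← Finset.sum_add_distrib]
  exact Finset.sum_congr rfl fun j _ => by rw [map_add]

lemma htN_smul (r : ℚ) (x : N) : htN b (r • x) = r * htN b x := by
  unfold htN
  rw [Finset.mul_sum]
  exact Finset.sum_congr rfl fun j _ => by rw [map_smul, smul_eq_mul]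

/-- The simple roots of the plane. -/
theorem exists_simple_pair {β₀ γ₀ : ι} (hβ : b.IsPos β₀) (hγ : b.IsPos γ₀) (h : β₀ ≠ γ₀) :
    ∃ a d : ι, b.IsPos a ∧ b.IsPos d ∧ a ≠ d ∧ P.pairingIn ℤ d a ≤ 0 ∧
      InPl P β₀ γ₀ a ∧ InPl P β₀ γ₀ d ∧
      (∀ x y x' y' : ℚ, x • P.coroot a + y • P.coroot d = x' • P.coroot a + y' • P.coroot d →
        x = x' ∧ y = y') ∧
      ∀ t, b.IsPos t → InPl P β₀ γ₀ t →
        ∃ x y : ℚ, 0 ≤ x ∧ 0 ≤ y ∧ P.coroot t = x • P.coroot a + y • P.coroot d := by
  obtain ⟨ys, hy0, hy1⟩ := exists_solve' hβ hγ h 0 1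
  set f : N → ℚ := fun n => P.toLinearMap ys n with hf
  have f_add : ∀ x y : N, f (x + y) = f x + f y := fun x y => map_add _ _ _
  have f_smul : ∀ (r : ℚ) (x : N), f (r • x) = r * f x := fun r x => by
    simp only [hf, map_smul, smul_eq_mul]
  set hh : ι → ℚ := fun t => htN b (P.coroot t) with hhh
  have hpos : ∀ t, b.IsPos t → 0 < hh t := fun t ht => htN_pos ht
  set Ψ : Finset ι := Finset.univ.filter fun t => b.IsPos t ∧ InPl P β₀ γ₀ t with hΨ
  have hβΨ : β₀ ∈ Ψ := by
    rw [hΨ, Finset.mem_filter]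
    exact ⟨Finset.mem_univ _, hβ, 1, 0, by rw [one_smul, zero_smul, add_zero]⟩
  have hγΨ : γ₀ ∈ Ψ := by
    rw [hΨ, Finset.mem_filter]
    exact ⟨Finset.mem_univ _, hγ, 0, 1, by rw [one_smul, zero_smul, zero_add]⟩
  have memΨ : ∀ t, t ∈ Ψ ↔ b.IsPos t ∧ InPl P β₀ γ₀ t := by
    intro t
    rw [hΨ, Finset.mem_filter]
    exact ⟨fun h => h.2, fun h => ⟨Finset.mem_univ _, h⟩⟩
  set σ : ι → ℚ := fun t => f (P.coroot t) / hh t with hσ
  obtain ⟨a, haΨ, hamin⟩ := Finset.exists_min_image Ψ σ ⟨β₀, hβΨ⟩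
  obtain ⟨d, hdΨ, hdmax⟩ := Finset.exists_max_image Ψ σ ⟨β₀, hβΨ⟩
  obtain ⟨hap, haI⟩ := (memΨ a).1 haΨ
  obtain ⟨hdp, hdI⟩ := (memΨ d).1 hdΨ
  have hσa : σ a ≤ 0 := by
    have := hamin β₀ hβΨ
    simp only [hσ, hf, hy0, zero_div] at this ⊢
    exact this
  have hσd : 0 < σ d := by
    have h1 := hdmax γ₀ hγΨ
    have h2 : 0 < σ γ₀ := by
      simp only [hσ, hf, hy1]
      exact div_pos one_pos (hpos _ hγ)
    linarith
  -- the determinant
  set Δ : ℚ := f (P.coroot d) * hh a - f (P.coroot a) * hh d with hΔ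
  have ha0 := hpos a hap
  have hd0 := hpos d hdp
  have fa : f (P.coroot a) = σ a * hh a := by
    simp only [hσ]
    field_simp
  have fd : f (P.coroot d) = σ d * hh d := by
    simp only [hσ]
    field_simp
  have hΔ0 : 0 < Δ := by
    rw [hΔ, fa, fd]
    have : 0 < (σ d - σ a) * (hh a * hh d) := by
      apply mul_pos
      · linarith
      · positivity
    linarith
  have had : a ≠ d := by
    rintro rfl
    linarith
  -- uniqueness of coordinates in the plane
  have uniq0 : ∀ n : N, (∃ x y : ℚ, n = x • P.coroot β₀ + y • P.coroot γ₀) → htN b n = 0 →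
      f n = 0 → n = 0 := by
    rintro n ⟨x, y, rfl⟩ h1 h2
    rw [f_add, f_smul, f_smul] at h2
    simp only [hf, hy0, hy1, mul_zero, zero_add, mul_one] at h2
    rw [h2, zero_smul, add_zero, htN_smul] at h1
    have h3 := htN_pos hβ
    rcases mul_eq_zero.1 h1 with h4 | h4
    · rw [h2, h4, zero_smul, zero_smul, add_zero]
    · exact absurd h4 h3.ne'
  have uniq : ∀ x y x' y' : ℚ, x • P.coroot a + y • P.coroot d =
      x' • P.coroot a + y' • P.coroot d → x = x' ∧ y = y' := by
    intro x y x' y' he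
    have h1 := congrArg (htN b) he
    have h2 := congrArg f he
    simp only [htN_add, htN_smul, f_add, f_smul] at h1 h2
    change x * hh a + y * hh d = x' * hh a + y' * hh d at h1
    constructor
    · have : (x - x') * Δ = 0 := by
        rw [hΔ]
        linear_combination f (P.coroot d) * h1 - hh d * h2
      have := (mul_eq_zero.1 this).resolve_right hΔ0.ne'
      linarith
    · have : (y - y') * Δ = 0 := by
        rw [hΔ]
        linear_combination - f (P.coroot a) * h1 + hh a * h2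
      have := (mul_eq_zero.1 this).resolve_right hΔ0.ne'
      linarith
  -- expansion
  have expand : ∀ t, b.IsPos t → InPl P β₀ γ₀ t →
      ∃ x y : ℚ, 0 ≤ x ∧ 0 ≤ y ∧ P.coroot t = x • P.coroot a + y • P.coroot d := by
    intro t htp htI
    have ht0 := hpos t htp
    have ft : f (P.coroot t) = σ t * hh t := by
      simp only [hσ]
      field_simp
    have htΨ : t ∈ Ψ := (memΨ t).2 ⟨htp, htI⟩
    have h1 := hamin t htΨ
    have h2 := hdmax t htΨ
    refine ⟨(f (P.coroot d) * hh t - f (P.coroot t) * hh d) / Δ,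
      (f (P.coroot t) * hh a - f (P.coroot a) * hh t) / Δ, ?_, ?_, ?_⟩
    · apply div_nonneg _ hΔ0.le
      rw [fd, ft]
      have : 0 ≤ (σ d - σ t) * (hh d * hh t) := mul_nonneg (by linarith) (by positivity)
      linarith
    · apply div_nonneg _ hΔ0.le
      rw [fa, ft]
      have : 0 ≤ (σ t - σ a) * (hh a * hh t) := mul_nonneg (by linarith) (by positivity)
      linarith
    · rw [← sub_eq_zero]
      apply uniq0
      · obtain ⟨x1, y1, e1⟩ := htI
        obtain ⟨x2, y2, e2⟩ := haI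
        obtain ⟨x3, y3, e3⟩ := hdI
        rw [e1, e2, e3]
        set A := (f (x3 • P.coroot β₀ + y3 • P.coroot γ₀) * hh t -
          f (x1 • P.coroot β₀ + y1 • P.coroot γ₀) * hh d) / Δ
        set B := (f (x1 • P.coroot β₀ + y1 • P.coroot γ₀) * hh a -
          f (x2 • P.coroot β₀ + y2 • P.coroot γ₀) * hh t) / Δ
        refine ⟨x1 - A * x2 - B * x3, y1 - A * y2 - B * y3, ?_⟩
        module
      · have e1 : htN b (P.coroot t) = hh t := rfl
        have e2 : htN b (P.coroot a) = hh a := rfl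
        have e3 : htN b (P.coroot d) = hh d := rfl
        rw [sub_eq_add_neg, ← neg_one_smul ℚ, htN_add, htN_smul, htN_add, htN_smul, htN_smul,
          e1, e2, e3]
        field_simp
        rw [hΔ]
        ring
      · rw [sub_eq_add_neg, ← neg_one_smul ℚ, f_add, f_smul, f_add, f_smul, f_smul]
        field_simp
        rw [hΔ]
        ring
  refine ⟨a, d, hap, hdp, had, ?_, haI, hdI, uniq, expand⟩
  by_contra hcon
  push Not at hcon
  have hcon' : 0 < P.pairingIn ℤ a d := by rwa [P.zero_lt_pairingIn_iff'] at hcon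
  -- reflect d in a
  have hc := coroot_s (P := P) a d
  have hI : InPl P β₀ γ₀ (s P a • d) := by
    obtain ⟨x2, y2, e2⟩ := haI
    obtain ⟨x3, y3, e3⟩ := hdI
    refine ⟨x3 - (P.pairingIn ℤ a d : ℚ) * x2, y3 - (P.pairingIn ℤ a d : ℚ) * y2, ?_⟩
    rw [hc, e2, e3]
    module
  have hcq : (0 : ℚ) < (P.pairingIn ℤ a d : ℚ) := by exact_mod_cast hcon'
  have hc' : P.coroot (s P a • d) = (-(P.pairingIn ℤ a d : ℚ)) • P.coroot a +
      (1 : ℚ) • P.coroot d := by
    rw [hc]
    module
  by_cases hp : b.IsPos (s P a • d)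
  · obtain ⟨x, y, hx, hy, he⟩ := expand _ hp hI
    rw [hc'] at he
    have := (uniq _ _ _ _ he).1
    linarith
  · have hp' := (opp_pos_iff b _).2 hp
    have hI' : InPl P β₀ γ₀ (s P (s P a • d) • (s P a • d)) := by
      obtain ⟨x, y, he⟩ := hI
      refine ⟨-x, -y, ?_⟩
      rw [coroot_opp, he]
      module
    obtain ⟨x, y, hx, hy, he⟩ := expand _ hp' hI'
    rw [coroot_opp, hc'] at he
    have he' : (P.pairingIn ℤ a d : ℚ) • P.coroot a + (-1 : ℚ) • P.coroot d =
        x • P.coroot a + y • P.coroot d := by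
      rw [← he]
      module
    have := (uniq _ _ _ _ he').2
    linarith

end

end Pool.Agent.CSMS
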