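import Pool.Agent.CSMS.Plane

set_option autoImplicit false
set_option linter.unusedSectionVars false

/-!
# Positivity of the coefficients of degree zero
-/

open RootPairing Set Module
open scoped Classical

namespace Pool.Agent.CSMS

noncomputable section

variable {ι M N : Type*} [AddCommGroup M] [Module ℚ M] [AddCommGroup N] [Module ℚ N]
  {P : RootPairing ι ℚ M N} [Fintype ι] [P.IsRootSystem] [P.IsCrystallographic] [P.IsReduced]
  {b : P.Base} {τ : Type*} [Fintype τ] {c : ℚ} {lam : τ → M} {i k : b.support}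
  {e : P.weylGroup → P.weylGroup → MvPolynomial b.support ℚ}

lemma eq_of_coroot_smul {t d : ι} (ht : b.IsPos t) (hd : b.IsPos d) (y : ℚ)
    (h : P.coroot t = y • P.coroot d) : t = d := by
  by_contra hne
  have h1 := pin_prod hd ht (Ne.symm hne)
  apply h1
  have e1 : (P.pairingIn ℤ d t : ℚ) = y * 2 := by
    rw [← pr_root]
    unfold pr
    rw [h, map_smul, smul_eq_mul]
    congr 1
    exact P.root_coroot_two d
  have e2 : (2 : ℚ) = y * (P.pairingIn ℤ t d : ℚ) := by
    have : P.toLinearMap (P.root t) (P.coroot t) = 2 := P.root_coroot_two t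
    rw [← this, h, map_smul, smul_eq_mul]
    congr 1
    exact pr_root t d
  rw [e1]
  linear_combination 2 * e2

/-- Comparison with the invariant form in a plane. -/
theorem exists_lambda (hq : Adapted b i k c lam) (hik : i ≠ k) {β₀ γ₀ : ι} (hβ : b.IsPos β₀)
    (hγ : b.IsPos γ₀) (h : β₀ ≠ γ₀) :
    ∃ L : ℚ, ∀ β γ, b.IsPos β → b.IsPos γ → β ≠ γ → InPl P β₀ γ₀ β → InPl P β₀ γ₀ γ →
      L * P.CorootForm (P.coroot β) (P.coroot γ) ≤ qB P c lam (P.coroot β) (P.coroot γ) := by
  obtain ⟨a, d, ha, hd, had, hle, haI, hdI, uniq, expand⟩ := exists_simple_pair hβ hγ h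
  have C1 := Cc_nonneg hq hik ha hd had hle
  have hle' : P.pairingIn ℤ a d ≤ 0 := by
    have := pin_mem hd ha (Ne.symm had)
    simp only [Set.mem_insert_iff, Set.mem_singleton_iff, Prod.mk.injEq] at this
    omega
  have C2 := Cc_nonneg hq hik hd ha (Ne.symm had) hle'
  unfold Cc at C1 C2
  rw [qB_symm c lam (P.coroot d) (P.coroot a)] at C2
  rcases eq_or_lt_of_le hle with h0 | h0
  · -- orthogonal
    have h0' : P.pairingIn ℤ a d = 0 := by
      have := pin_mem hd ha (Ne.symm had)
      simp only [Set.mem_insert_iff, Set.mem_singleton_iff, Prod.mk.injEq] at this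
      omega
    have honly : ∀ t, b.IsPos t → InPl P β₀ γ₀ t → t = a ∨ t = d := by
      intro t ht hI
      obtain ⟨x, y, hx, hy, he⟩ := expand t ht hI
      have hat : (P.pairingIn ℤ a t : ℚ) = 2 * x := by
        rw [← pr_root]
        unfold pr
        rw [he, map_add, map_smul, map_smul, smul_eq_mul, smul_eq_mul]
        have e1 : P.toLinearMap (P.root a) (P.coroot a) = 2 := P.root_coroot_two a
        have e2 : P.toLinearMap (P.root a) (P.coroot d) = (P.pairingIn ℤ a d : ℚ) :=
          pr_root a d
        rw [e1, e2, h0']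
        push_cast
        ring
      have hc : P.coroot (s P a • t) = (-x) • P.coroot a + y • P.coroot d := by
        rw [coroot_s, hat, he]
        module
      have hIs : InPl P β₀ γ₀ (s P a • t) := by
        obtain ⟨x2, y2, e2⟩ := haI
        obtain ⟨x3, y3, e3⟩ := hdI
        refine ⟨-x * x2 + y * x3, -x * y2 + y * y3, ?_⟩
        rw [hc, e2, e3]
        module
      by_cases hp : b.IsPos (s P a • t)
      · right
        obtain ⟨x', y', hx', hy', he'⟩ := expand _ hp hIs
        rw [hc] at he'
        have h1 := (uniq _ _ _ _ he').1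
        have hx0 : x = 0 := by linarith
        rw [hx0, zero_smul, zero_add] at he
        exact eq_of_coroot_smul ht hd y he
      · left
        have hp' := (opp_pos_iff b _).2 hp
        have hI' : InPl P β₀ γ₀ (s P (s P a • t) • (s P a • t)) := by
          obtain ⟨x1, y1, h1⟩ := hIs
          refine ⟨-x1, -y1, ?_⟩
          rw [coroot_opp, h1]
          module
        obtain ⟨x', y', hx', hy', he'⟩ := expand _ hp' hI'
        rw [coroot_opp, hc] at he'
        have he'' : x • P.coroot a + (-y) • P.coroot d = x' • P.coroot a + y' • P.coroot d := by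
          rw [← he']
          module
        have h1 := (uniq _ _ _ _ he'').2
        have hy0 : y = 0 := by linarith
        rw [hy0, zero_smul, add_zero] at he
        exact eq_of_coroot_smul ht ha x he
    refine ⟨0, fun β γ hβ hγ hne hβI hγI => ?_⟩
    rw [zero_mul]
    rw [h0] at C1
    push_cast at C1
    rcases honly β hβ hβI with rfl | rfl <;> rcases honly γ hγ hγI with rfl | rfl
    · exact absurd rfl hne
    · linarith
    · rw [qB_symm]
      linarith
    · exact absurd rfl hne
  · -- obtuse
    have h0' : P.pairingIn ℤ a d < 0 := by rwa [P.pairingIn_lt_zero_iff] at h0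
    have g1 : (P.pairingIn ℤ d a : ℚ) < 0 := by exact_mod_cast h0
    have g2 : (P.pairingIn ℤ a d : ℚ) < 0 := by exact_mod_cast h0'
    have f1 := F_coroot_coroot (P := P) a d
    have f2 := F_coroot_coroot (P := P) d a
    rw [F_symm (P.coroot d) (P.coroot a)] at f2
    have p1 := F_self_pos (P := P) a
    have p2 := F_self_pos (P := P) d
    set Fad := P.CorootForm (P.coroot a) (P.coroot d) with hFad
    set Faa := P.CorootForm (P.coroot a) (P.coroot a) with hFaa
    set Fdd := P.CorootForm (P.coroot d) (P.coroot d) with hFdd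
    set Bad := qB P c lam (P.coroot a) (P.coroot d) with hBad
    set Baa := qB P c lam (P.coroot a) (P.coroot a) with hBaa
    set Bdd := qB P c lam (P.coroot d) (P.coroot d) with hBdd
    have hF0 : Fad < 0 := by nlinarith
    have k1 : 0 ≤ Baa - Bad / Fad * Faa := by
      have e1 : Faa = 2 * Fad / (P.pairingIn ℤ a d : ℚ) := by
        rw [eq_div_iff g2.ne]
        exact f1.symm
      have e2 : Baa - Bad / Fad * Faa =
          (2 * Bad - (P.pairingIn ℤ a d : ℚ) * Baa) / (-(P.pairingIn ℤ a d : ℚ)) := by
        rw [e1]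
        have := hF0.ne
        have := g2.ne
        field_simp
        ring
      rw [e2]
      exact div_nonneg C2 (by linarith)
    have k2 : 0 ≤ Bdd - Bad / Fad * Fdd := by
      have e1 : Fdd = 2 * Fad / (P.pairingIn ℤ d a : ℚ) := by
        rw [eq_div_iff g1.ne]
        exact f2.symm
      have e2 : Bdd - Bad / Fad * Fdd =
          (2 * Bad - (P.pairingIn ℤ d a : ℚ) * Bdd) / (-(P.pairingIn ℤ d a : ℚ)) := by
        rw [e1]
        have := hF0.ne
        have := g1.ne
        field_simp
        ring
      rw [e2]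
      exact div_nonneg C1 (by linarith)
    refine ⟨Bad / Fad, fun β γ hβ hγ _ hβI hγI => ?_⟩
    obtain ⟨x, y, hx, hy, he⟩ := expand β hβ hβI
    obtain ⟨x', y', hx', hy', he'⟩ := expand γ hγ hγI
    have b1 : qB P c lam (P.coroot β) (P.coroot γ) =
        x * x' * Baa + (x * y' + y * x') * Bad + y * y' * Bdd := by
      rw [he, he', qB_add', qB_smul', qB_smul', qB_add, qB_add, qB_smul, qB_smul, qB_smul,
        qB_smul, qB_symm c lam (P.coroot d) (P.coroot a)]
      ring
    have b2 : P.CorootForm (P.coroot β) (P.coroot γ) =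
        x * x' * Faa + (x * y' + y * x') * Fad + y * y' * Fdd := by
      rw [he, he']
      simp only [map_add, map_smul, LinearMap.add_apply, LinearMap.smul_apply, smul_eq_mul]
      rw [F_symm (P.coroot d) (P.coroot a)]
      ring
    rw [b1, b2]
    have hL : Bad / Fad * Fad = Bad := div_mul_cancel₀ _ hF0.ne
    have m1 := mul_nonneg (mul_nonneg hx hx') k1
    have m2 := mul_nonneg (mul_nonneg hy hy') k2
    have e : Bad / Fad * (x * x' * Faa + (x * y' + y * x') * Fad + y * y' * Fdd) =
        x * x' * (Bad / Fad * Faa) + (x * y' + y * x') * Bad + y * y' * (Bad / Fad * Fdd) := by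
      calc _ = x * x' * (Bad / Fad * Faa) + (x * y' + y * x') * (Bad / Fad * Fad) +
            y * y' * (Bad / Fad * Fdd) := by ring
        _ = _ := by rw [hL]
    rw [e]
    linarith

/-- Collecting terms. -/
lemma collect [Fintype P.weylGroup] {α R : Type*} [CommRing R] (S : Finset α) (f : α → R)
    (g : α → P.weylGroup) (E : P.weylGroup → R) :
    ∑ a ∈ S, f a * E (g a) = ∑ w, (∑ a ∈ S, if g a = w then f a else 0) * E w := by
  have h1 : ∀ w : P.weylGroup, (∑ a ∈ S, if g a = w then f a else 0) * E w =
      ∑ a ∈ S, if g a = w then f a * E w else 0 := by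
    intro w
    rw [Finset.sum_mul]
    exact Finset.sum_congr rfl fun a _ => by split_ifs <;> simp
  rw [Finset.sum_congr rfl fun w _ => h1 w, Finset.sum_comm]
  refine Finset.sum_congr rfl fun a _ => ?_
  rw [Finset.sum_ite_eq, if_pos (Finset.mem_univ _)]

variable (b) in
/-- The pairs `(i, k)` with `u < u s_i < u s_i s_k`. -/
def paths (u : P.weylGroup) : Finset (ι × ι) :=
  Finset.univ.filter fun p => p.1 ∈ I b u ∧ p.2 ∈ I b (u * s P p.1)

lemma sum_paths {R : Type*} [AddCommMonoid R] (u : P.weylGroup) (f : ι → ι → R) :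
    ∑ i ∈ I b u, ∑ k ∈ I b (u * s P i), f i k = ∑ p ∈ paths b u, f p.1 p.2 := by
  have h1 : paths b u = (I b u).biUnion fun i => (I b (u * s P i)).image fun k => (i, k) := by
    ext ⟨i, k⟩
    simp [paths, mem_I]
  rw [h1, Finset.sum_biUnion]
  · refine Finset.sum_congr rfl fun i _ => ?_
    rw [Finset.sum_image]
    intro k _ k' _ h
    simpa using h
  · intro i _ i' _ hii
    rw [Function.onFun, Finset.disjoint_left]
    rintro ⟨x, y⟩ h2 h3
    simp only [Finset.mem_image, Prod.mk.injEq] at h2 h3
    obtain ⟨_, _, h4, _⟩ := h2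
    obtain ⟨_, _, h5, _⟩ := h3
    exact hii (h4.trans h5.symm)

lemma qB_root (x y : N) : qB P 1 P.root x y = P.CorootForm x y := by
  unfold qB
  rw [one_mul, P.corootForm_apply_apply]

lemma qmu_root (β : ι) : qmu P 1 P.root β = 0 := by
  apply pair_ext (P := P)
  intro x
  rw [qmu_pair, qB_root, qB_root, F_coroot, sub_self, map_zero, LinearMap.zero_apply]

lemma qG_root (z : P.weylGroup) : qG b 1 P.root z = qG b 1 P.root 1 := by
  unfold qG
  congr 1
  have h1 : ∀ t, lin b (z • P.root t) ^ 2 = lin b (P.root (z • t)) ^ 2 := by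
    intro t
    rw [root_smul]
  rw [Finset.sum_congr rfl fun t _ => h1 t]
  refine (Equiv.sum_comp (MulAction.toPerm z) (fun t => lin b (P.root t) ^ 2)).trans ?_
  exact Finset.sum_congr rfl fun t _ => by rw [one_smul]

/-- The sum of the values of the invariant form vanishes. -/
theorem sum_form [Fintype P.weylGroup] (he : IsCSM b e) (u w : P.weylGroup) :
    ∑ p ∈ paths b u, (if u * s P p.1 * s P p.2 = w then
      P.CorootForm (P.coroot p.1) (P.coroot p.2) else 0) = 0 := by
  have h1 : ∀ z, ∑ w, (∑ p ∈ paths b u, if u * s P p.1 * s P p.2 = w then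
      (MvPolynomial.C (P.CorootForm (P.coroot p.1) (P.coroot p.2)) :
        MvPolynomial b.support ℚ) else 0) * e w z = 0 := by
    intro z
    rw [← collect (paths b u) (fun p => (MvPolynomial.C (P.CorootForm (P.coroot p.1)
      (P.coroot p.2)) : MvPolynomial b.support ℚ)) (fun p => u * s P p.1 * s P p.2)
      (fun w => e w z)]
    have h2 := sq_formula he 1 P.root u z
    rw [qG_root z, qG_root u] at h2
    have h3 : ∑ i ∈ I b u, lin b (u • qmu P 1 P.root i) * e (u * s P i) z = 0 := by
      refine Finset.sum_eq_zero fun i _ => ?_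
      rw [qmu_root, smul_zero, map_zero, zero_mul]
    rw [h3, sub_zero, sum_paths u (fun i k => MvPolynomial.C (qB P 1 P.root (P.coroot i)
      (P.coroot k)) * e (u * s P i * s P k) z)] at h2
    simp only [qB_root] at h2
    linear_combination -h2
  have h4 := indep he _ h1 w
  have h5 : (MvPolynomial.C (∑ p ∈ paths b u, (if u * s P p.1 * s P p.2 = w then
      P.CorootForm (P.coroot p.1) (P.coroot p.2) else 0)) : MvPolynomial b.support ℚ) = 0 := by
    rw [map_sum, ← h4]
    refine Finset.sum_congr rfl fun p _ => ?_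
    split_ifs
    · rfl
    · rw [map_zero]
  rw [← MvPolynomial.C_0] at h5
  exact MvPolynomial.C_injective _ _ h5

/-- Positivity of the coefficients of degree zero. -/
theorem path_sum [Fintype P.weylGroup] (he : IsCSM b e) (hq : Adapted b i k c lam)
    (hik : i ≠ k) (u w : P.weylGroup) :
    0 ≤ ∑ p ∈ paths b u, (if u * s P p.1 * s P p.2 = w then
      qB P c lam (P.coroot p.1) (P.coroot p.2) else 0) := by
  by_cases hex : ∃ p ∈ paths b u, u * s P p.1 * s P p.2 = w
  · obtain ⟨p₀, hp₀, hw⟩ := hex
    have hpath : ∀ p ∈ paths b u, b.IsPos p.1 ∧ b.IsPos p.2 ∧ p.1 ≠ p.2 := by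
      intro p hp
      rw [paths, Finset.mem_filter] at hp
      have h1 := mem_I.1 hp.2.1
      have h2 := mem_I.1 hp.2.2
      refine ⟨h1.1, h2.1, ?_⟩
      intro h
      have h3 := h2.2
      rw [← h, mul_s_pos] at h3
      exact h3 h1.2
    obtain ⟨q1, q2, q3⟩ := hpath p₀ hp₀
    obtain ⟨L, hL⟩ := exists_lambda hq hik q1 q2 q3
    have h1 : L * ∑ p ∈ paths b u, (if u * s P p.1 * s P p.2 = w then
        P.CorootForm (P.coroot p.1) (P.coroot p.2) else 0) ≤
        ∑ p ∈ paths b u, (if u * s P p.1 * s P p.2 = w then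
          qB P c lam (P.coroot p.1) (P.coroot p.2) else 0) := by
      rw [Finset.mul_sum]
      refine Finset.sum_le_sum fun p hp => ?_
      split_ifs with h2
      · obtain ⟨r1, r2, r3⟩ := hpath p hp
        have h3 : s P p.1 * s P p.2 = s P p₀.1 * s P p₀.2 := by
          rw [← hw, mul_assoc, mul_assoc] at h2
          exact mul_left_cancel h2
        have h4 := mem_plane r1 r2 r3 h3
        exact hL _ _ r1 r2 r3 h4.1 h4.2
      · rw [mul_zero]
    rw [sum_form he, mul_zero] at h1
    exact h1
  · push Not at hex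
    refine le_of_eq (Eq.symm (Finset.sum_eq_zero fun p hp => if_neg (hex p hp)))

end

end Pool.Agent.CSMS
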