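import Pool.Agent.CSMS.Chevalley

set_option autoImplicit false
set_option linter.unusedSectionVars false

/-!
# Multiplication by quadratic functions
-/

open RootPairing Set Module
open scoped Classical

namespace Pool.Agent.CSMS

noncomputable section

variable {ι M N : Type*} [AddCommGroup M] [Module ℚ M] [AddCommGroup N] [Module ℚ N]
  {P : RootPairing ι ℚ M N} [Fintype ι] [P.IsRootSystem] [P.IsCrystallographic] [P.IsReduced]
  {b : P.Base} {e : P.weylGroup → P.weylGroup → MvPolynomial b.support ℚ}

variable (b) in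
/-- The positive roots which remain positive. -/
def I (u : P.weylGroup) : Finset ι := Finset.univ.filter fun i => b.IsPos i ∧ b.IsPos (u • i)

lemma mem_I {u : P.weylGroup} {i : ι} : i ∈ I b u ↔ b.IsPos i ∧ b.IsPos (u • i) := by
  simp [I]

lemma chevSum_eq (u : P.weylGroup) (x : M) (z : P.weylGroup) :
    chevSum e u x z = ∑ i ∈ I b u, MvPolynomial.C (pr P x i) * e (u * s P i) z := by
  unfold chevSum I
  rw [Finset.sum_filter]
  refine Finset.sum_congr rfl fun i _ => ?_
  by_cases h1 : b.IsPos i
  · by_cases h2 : b.IsPos (u • i)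
    · rw [if_pos h1, if_pos h2, if_pos ⟨h1, h2⟩]
    · rw [if_pos h1, if_neg h2, if_neg fun h => h2 h.2]
  · rw [if_neg h1, if_neg fun h => h1 h.1]

theorem chev' (he : IsCSM b e) (u : P.weylGroup) (x : M) (z : P.weylGroup) :
    lin b (z • x) * e u z = lin b (u • x) * e u z -
      ∑ i ∈ I b u, MvPolynomial.C (pr P x i) * e (u * s P i) z := by
  rw [← chevSum_eq, ← chevalley he u x z]
  ring

variable {τ : Type*} [Fintype τ]

variable (P) in
/-- A symmetric bilinear form, given as a multiple of a sum of squares. -/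
def qB (c : ℚ) (lam : τ → M) (n n' : N) : ℚ :=
  c * ∑ t, P.toLinearMap (lam t) n * P.toLinearMap (lam t) n'

variable (P) in
/-- The weight `∂_i q`. -/
def qmu (c : ℚ) (lam : τ → M) (i : ι) : M :=
  (∑ t, (2 * c * pr P (lam t) i) • lam t) - qB P c lam (P.coroot i) (P.coroot i) • P.root i

variable (b) in
/-- The quadratic function. -/
def qG (c : ℚ) (lam : τ → M) (z : P.weylGroup) : MvPolynomial b.support ℚ :=
  MvPolynomial.C c * ∑ t, lin b (z • lam t) ^ 2

lemma smul_sum' {α : Type*} (w : P.weylGroup) (t : Finset α) (f : α → M) :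
    w • (∑ a ∈ t, f a) = ∑ a ∈ t, w • f a := by
  rw [← act_apply, map_sum]
  rfl

lemma mul_s_smul (u : P.weylGroup) (i : ι) (x : M) :
    (u * s P i) • x = u • x - pr P x i • (u • P.root i) := by
  rw [mul_smul, s_smul_eq, smul_sub', smul_rat]

lemma lin_mul_s (u : P.weylGroup) (i : ι) (x : M) :
    lin b ((u * s P i) • x) = lin b (u • x) - MvPolynomial.C (pr P x i) * lin b (u • P.root i) := by
  rw [mul_s_smul, map_sub, lin_smul]

lemma lin_qmu (c : ℚ) (lam : τ → M) (u : P.weylGroup) (i : ι) :
    lin b (u • qmu P c lam i) = MvPolynomial.C c * ∑ t, MvPolynomial.C (pr P (lam t) i) *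
      (lin b (u • lam t) + lin b ((u * s P i) • lam t)) := by
  unfold qmu qB
  rw [smul_sub', smul_rat, smul_sum', map_sub, map_sum, lin_smul, map_mul, map_sum,
    Finset.mul_sum, Finset.mul_sum, Finset.sum_mul, ← Finset.sum_sub_distrib]
  refine Finset.sum_congr rfl fun t _ => ?_
  rw [smul_rat, lin_smul, lin_mul_s, map_mul, map_mul, map_mul]
  have : (MvPolynomial.C 2 : MvPolynomial b.support ℚ) = 2 := map_ofNat _ 2
  rw [this]
  ring

theorem sq_formula (he : IsCSM b e) (c : ℚ) (lam : τ → M) (u z : P.weylGroup) :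
    qG b c lam z * e u z = qG b c lam u * e u z -
      ∑ i ∈ I b u, lin b (u • qmu P c lam i) * e (u * s P i) z +
      ∑ i ∈ I b u, ∑ k ∈ I b (u * s P i),
        MvPolynomial.C (qB P c lam (P.coroot i) (P.coroot k)) * e (u * s P i * s P k) z := by
  have h1 : ∀ x : M, lin b (z • x) ^ 2 * e u z = lin b (u • x) ^ 2 * e u z -
      ∑ i ∈ I b u, MvPolynomial.C (pr P x i) * (lin b (u • x) + lin b ((u * s P i) • x)) *
        e (u * s P i) z +
      ∑ i ∈ I b u, ∑ k ∈ I b (u * s P i),
        MvPolynomial.C (pr P x i) * MvPolynomial.C (pr P x k) * e (u * s P i * s P k) z := by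
    intro x
    have e1 := chev' he u x z
    have e2 : ∑ i ∈ I b u, MvPolynomial.C (pr P x i) * (lin b (z • x) * e (u * s P i) z) =
        ∑ i ∈ I b u, MvPolynomial.C (pr P x i) * (lin b ((u * s P i) • x) * e (u * s P i) z) -
        ∑ i ∈ I b u, ∑ k ∈ I b (u * s P i),
          MvPolynomial.C (pr P x i) * MvPolynomial.C (pr P x k) * e (u * s P i * s P k) z := by
      rw [← Finset.sum_sub_distrib]
      refine Finset.sum_congr rfl fun i _ => ?_
      rw [chev' he (u * s P i) x z, mul_sub, Finset.mul_sum]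
      congr 1
      exact Finset.sum_congr rfl fun k _ => by ring
    have e3 : ∑ i ∈ I b u, MvPolynomial.C (pr P x i) * (lin b (u • x) +
        lin b ((u * s P i) • x)) * e (u * s P i) z =
        lin b (u • x) * ∑ i ∈ I b u, MvPolynomial.C (pr P x i) * e (u * s P i) z +
        ∑ i ∈ I b u, MvPolynomial.C (pr P x i) * (lin b ((u * s P i) • x) *
          e (u * s P i) z) := by
      rw [Finset.mul_sum, ← Finset.sum_add_distrib]
      exact Finset.sum_congr rfl fun i _ => by ring
    have e4 : lin b (z • x) * ∑ i ∈ I b u, MvPolynomial.C (pr P x i) * e (u * s P i) z =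
        ∑ i ∈ I b u, MvPolynomial.C (pr P x i) * (lin b (z • x) * e (u * s P i) z) := by
      rw [Finset.mul_sum]
      exact Finset.sum_congr rfl fun i _ => by ring
    linear_combination (lin b (z • x) + lin b (u • x)) * e1 - e4 - e2 + e3
  unfold qG
  rw [mul_assoc, Finset.sum_mul, Finset.sum_congr rfl fun t _ => h1 (lam t),
    Finset.sum_add_distrib, Finset.sum_sub_distrib, mul_add, mul_sub]
  congr 1
  · congr 1
    · rw [← Finset.sum_mul, mul_assoc]
    · rw [Finset.sum_comm, Finset.mul_sum]
      refine Finset.sum_congr rfl fun i _ => ?_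
      rw [lin_qmu, mul_assoc, Finset.sum_mul]
  · rw [Finset.sum_comm, Finset.mul_sum]
    refine Finset.sum_congr rfl fun i _ => ?_
    rw [Finset.sum_comm, Finset.mul_sum]
    refine Finset.sum_congr rfl fun k _ => ?_
    unfold qB
    rw [map_mul, map_sum, mul_assoc (MvPolynomial.C c), Finset.sum_mul]
    congr 1
    exact Finset.sum_congr rfl fun t _ => by rw [map_mul]

end

end Pool.Agent.CSMS
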