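import Pool.Agent.CSMS.PlaneSum

set_option autoImplicit false
set_option linter.unusedSectionVars false

/-!
# The Schubert classes of small length
-/

open RootPairing Set Module
open scoped Classical

namespace Pool.Agent.CSMS

noncomputable section

variable {ι M N : Type*} [AddCommGroup M] [Module ℚ M] [AddCommGroup N] [Module ℚ N]
  {P : RootPairing ι ℚ M N} [Fintype ι] [P.IsRootSystem] [P.IsCrystallographic] [P.IsReduced]
  {b : P.Base} {τ : Type*} [Fintype τ] {c : ℚ} {lam : τ → M} {i k : b.support}
  {e y : P.weylGroup → P.weylGroup → MvPolynomial b.support ℚ}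

lemma schub_step (hy : IsSchubert b y) (v u : P.weylGroup) (j : b.support) :
    y v (u * s P (j : ι)) - y v u =
      if b.IsPos (v • (j : ι)) then 0 else lin b (u • P.root j) * y (v * s P (j : ι)) u :=
  hy.step v u j j.2

/-- Uniqueness. -/
lemma fun_ext' {f g : P.weylGroup → MvPolynomial b.support ℚ} (h1 : f 1 = g 1)
    (h2 : ∀ z, ∀ j : b.support, f (z * s P (j : ι)) - f z = g (z * s P (j : ι)) - g z)
    (z : P.weylGroup) : f z = g z := by
  refine gen_ind (b := b) (p := fun z => f z = g z) h1 ?_ z
  intro w j hj hw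
  have := h2 w ⟨j, hj⟩
  simp only at this
  rw [hw] at this
  exact sub_left_injective this

lemma schub_one (hy : IsSchubert b y) (z : P.weylGroup) : y 1 z = 1 := by
  refine fun_ext' (b := b) (g := fun _ => 1) ?_ ?_ z
  · rw [hy.one, if_pos rfl]
  · intro z j
    rw [schub_step hy, one_smul, if_pos (Base.isPos_of_mem_support j.2), sub_self]

lemma s_smul_pos (i j : b.support) : b.IsPos (s P (i : ι) • (j : ι)) ↔ j ≠ i := by
  constructor
  · rintro h rfl
    rw [opp_pos_iff] at h
    exact h (Base.isPos_of_mem_support j.2)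
  · intro h
    exact pos_s (Base.isPos_of_mem_support j.2) i.2 (fun h' => h (Subtype.ext h'))

lemma lin_om_s (i j : b.support) (z : P.weylGroup) :
    lin b ((z * s P (j : ι)) • om b i) = lin b (z • om b i) -
      if j = i then lin b (z • P.root j) else 0 := by
  rw [lin_mul_s]
  unfold pr
  rw [pair_om_simple]
  split_ifs <;> simp

lemma schub_s (hy : IsSchubert b y) (i : b.support) (z : P.weylGroup) :
    y (s P (i : ι)) z = lin b (om b i) - lin b (z • om b i) := by
  refine fun_ext' (b := b) (g := fun z => lin b (om b i) - lin b (z • om b i)) ?_ ?_ z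
  · rw [hy.one, if_neg, one_smul, sub_self]
    intro h
    have h1 : b.IsPos (s P (i : ι) • (i : ι)) := by
      rw [h, one_smul]
      exact Base.isPos_of_mem_support i.2
    rw [s_smul_pos] at h1
    exact h1 rfl
  · intro z j
    rw [schub_step hy, lin_om_s]
    by_cases h : j = i
    · subst h
      rw [if_neg (by rw [s_smul_pos]; exact fun h => h rfl), if_pos rfl, s_mul_s, schub_one hy]
      ring
    · rw [if_pos (by rw [s_smul_pos]; exact h), if_neg h]
      ring

lemma qG_s (c : ℚ) (lam : τ → M) (z : P.weylGroup) (j : ι) :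
    qG b c lam (z * s P j) - qG b c lam z =
      - (lin b (z • P.root j) * lin b (z • qmu P c lam j)) := by
  rw [lin_qmu]
  unfold qG
  have h1 : ∑ t, lin b ((z * s P j) • lam t) ^ 2 - ∑ t, lin b (z • lam t) ^ 2 =
      -(lin b (z • P.root j) * ∑ t, MvPolynomial.C (pr P (lam t) j) *
        (lin b (z • lam t) + lin b ((z * s P j) • lam t))) := by
    rw [Finset.mul_sum, ← Finset.sum_neg_distrib, ← Finset.sum_sub_distrib]
    refine Finset.sum_congr rfl fun t _ => ?_
    rw [lin_mul_s]
    ring
  linear_combination MvPolynomial.C c * h1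

lemma pair_smul_pos {i k : b.support} (hik : i ≠ k) (hadj : P.pairingIn ℤ (k : ι) (i : ι) ≠ 0)
    (j : b.support) : b.IsPos ((s P (k : ι) * s P (i : ι)) • (j : ι)) ↔ j ≠ i := by
  rw [mul_smul]
  constructor
  · rintro h rfl
    rw [smul_opp, opp_pos_iff] at h
    apply h
    rw [s_smul_pos]
    exact hik
  · intro h
    have h1 : b.IsPos (s P (i : ι) • (j : ι)) := by rwa [s_smul_pos]
    refine pos_s h1 k.2 ?_
    intro h2
    have h3 : (j : ι) = s P (i : ι) • (k : ι) := by
      rw [← h2, s_s_smul_idx]
    have h4 : P.root j = P.root k - (P.pairingIn ℤ (k : ι) (i : ι) : ℚ) • P.root i := by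
      rw [h3, root_smul, s_smul_eq]
      congr 2
      exact pr_root (k : ι) (i : ι)
    have h5 := congrArg (cf b i) h4
    rw [map_sub, map_smul, cf_simple, cf_simple, cf_simple, if_neg h, if_neg (Ne.symm hik),
      if_pos rfl, smul_eq_mul, mul_one, zero_sub] at h5
    apply hadj
    have : (P.pairingIn ℤ (k : ι) (i : ι) : ℚ) = 0 := by linarith
    exact_mod_cast this

lemma schub_pair (hy : IsSchubert b y) (hq : Adapted b i k c lam) (hik : i ≠ k)
    (hadj : P.pairingIn ℤ (k : ι) (i : ι) ≠ 0) (z : P.weylGroup) :
    y (s P (k : ι) * s P (i : ι)) z = qG b c lam z - qG b c lam 1 +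
      lin b (om b k) * (lin b (om b i) - lin b (z • om b i)) := by
  refine fun_ext' (b := b) (g := fun z => qG b c lam z - qG b c lam 1 +
      lin b (om b k) * (lin b (om b i) - lin b (z • om b i))) ?_ ?_ z
  · rw [hy.one, if_neg, one_smul, sub_self, sub_self, mul_zero, add_zero]
    intro h
    have h1 : b.IsPos ((s P (k : ι) * s P (i : ι)) • (i : ι)) := by
      rw [h, one_smul]
      exact Base.isPos_of_mem_support i.2
    rw [pair_smul_pos hik hadj] at h1
    exact h1 rfl
  · intro z j
    have h1 := qG_s (b := b) c lam z (j : ι)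
    have h2 := lin_om_s i j z
    rw [qmu_simple hq] at h1
    rw [schub_step hy]
    by_cases h : j = i
    · subst h
      rw [if_neg (by rw [pair_smul_pos hik hadj]; exact fun h => h rfl), mul_s_s, schub_s hy]
      rw [if_pos rfl] at h1 h2
      linear_combination -h1 + lin b (om b k) * h2
    · rw [if_pos (by rw [pair_smul_pos hik hadj]; exact h)]
      rw [if_neg h] at h1 h2
      rw [smul_zero, map_zero, mul_zero] at h1
      linear_combination -h1 + lin b (om b k) * h2

/-- Schubert classes have localisations with nonnegative coefficients. -/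
lemma schub_NN (hy : IsSchubert b y) (u : P.weylGroup) : ∀ v, NN (y v u) := by
  refine asc_ind (b := b) (p := fun u => ∀ v, NN (y v u)) ?_ ?_ u
  · intro v
    rw [hy.one]
    split_ifs
    · exact NN.one
    · exact NN.zero
  · intro u j hj ih hp v
    have h1 := schub_step hy v u ⟨j, hj⟩
    simp only at h1
    rw [sub_eq_iff_eq_add] at h1
    rw [h1]
    refine NN.add ?_ (ih v)
    split_ifs
    · exact NN.zero
    · refine (lin_NN b fun l => ?_).mul (ih _)
      rw [← root_smul]
      exact pos_cf_nonneg b hp l

lemma schub_IsInt (hy : IsSchubert b y) (u : P.weylGroup) : ∀ v, IsInt (y v u) := by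
  refine asc_ind (b := b) (p := fun u => ∀ v, IsInt (y v u)) ?_ ?_ u
  · intro v
    rw [hy.one]
    split_ifs
    · exact IsInt.one
    · exact IsInt.zero
  · intro u j hj ih hp v
    have h1 := schub_step hy v u ⟨j, hj⟩
    simp only at h1
    rw [sub_eq_iff_eq_add] at h1
    rw [h1]
    refine IsInt.add ?_ (ih v)
    split_ifs
    · exact IsInt.zero
    · refine IsInt.mul ?_ (ih _)
      rw [← root_smul]
      exact lin_root_IsInt b _

end

end Pool.Agent.CSMS
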