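import Pool.Agent.CSMS.Basic

set_option autoImplicit false
set_option linter.unusedSectionVars false

/-!
# Coefficients of roots, coroots and weights
-/

open RootPairing Set Module
open scoped Classical

namespace Pool.Agent.CSMS

noncomputable section

variable {ι M N : Type*} [AddCommGroup M] [Module ℚ M] [AddCommGroup N] [Module ℚ N]
  {P : RootPairing ι ℚ M N} [Finite ι] [P.IsRootSystem] [P.IsCrystallographic] [P.IsReduced]
  (b : P.Base)

/-- The coefficient of a weight at a simple root. -/
def cf (j : b.support) : M →ₗ[ℚ] ℚ := b.toWeightBasis.coord j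

/-- The coefficient of a coweight at a simple coroot. -/
def ccf (j : b.support) : N →ₗ[ℚ] ℚ := b.toCoweightBasis.coord j

lemma cf_simple (j l : b.support) : cf b j (P.root l) = if l = j then 1 else 0 := by
  unfold cf
  rw [← b.toWeightBasis_apply l, Basis.coord_apply, Basis.repr_self, Finsupp.single_apply]

lemma ccf_simple (j l : b.support) : ccf b j (P.coroot l) = if l = j then 1 else 0 := by
  unfold ccf
  rw [← b.toCoweightBasis_apply l, Basis.coord_apply, Basis.repr_self, Finsupp.single_apply]

lemma eq_sum_cf (x : M) : x = ∑ j : b.support, cf b j x • P.root j := by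
  conv_lhs => rw [← b.toWeightBasis.sum_repr x]
  simp [cf]

lemma eq_sum_ccf (x : N) : x = ∑ j : b.support, ccf b j x • P.coroot j := by
  conv_lhs => rw [← b.toCoweightBasis.sum_repr x]
  simp [ccf]

lemma cf_ext {x y : M} (h : ∀ j, cf b j x = cf b j y) : x = y := by
  rw [eq_sum_cf b x, eq_sum_cf b y]
  simp [h]

lemma ccf_ext {x y : N} (h : ∀ j, ccf b j x = ccf b j y) : x = y := by
  rw [eq_sum_ccf b x, eq_sum_ccf b y]
  simp [h]

lemma exists_cf (i : ι) : ∃ f : ι → ℤ, f.support ⊆ b.support ∧ (0 < f ∨ f < 0) ∧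
    (∀ j : b.support, cf b j (P.root i) = f j) ∧ b.height i = ∑ j ∈ b.support, f j := by
  obtain ⟨f, h1, h2, h3⟩ := b.exists_root_eq_sum_int i
  refine ⟨f, h1, h2, fun j => ?_, Base.height_eq_sum h3⟩
  rw [h3, ← Finset.sum_coe_sort b.support (fun j => f j • P.root j), map_sum]
  rw [Finset.sum_eq_single j]
  · rw [← Int.cast_smul_eq_zsmul ℚ, map_smul, cf_simple]
    simp
  · intro l _ hl
    rw [← Int.cast_smul_eq_zsmul ℚ, map_smul, cf_simple]
    simp [hl]
  · simp

lemma pos_cf {i : ι} (hi : b.IsPos i) (j : b.support) :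
    ∃ n : ℕ, cf b j (P.root i) = n := by
  obtain ⟨f, h1, h2, h3, h4⟩ := exists_cf b i
  have hf : 0 < f := by
    refine h2.resolve_right fun h => ?_
    rw [Base.isPos_iff, h4] at hi
    have : ∑ j ∈ b.support, f j ≤ 0 := Finset.sum_nonpos fun i _ => h.le i
    omega
  refine ⟨(f j).toNat, ?_⟩
  rw [h3]
  have := hf.le j
  simp only [Pi.zero_apply] at this
  have h5 : ((f j).toNat : ℤ) = f j := Int.toNat_of_nonneg this
  exact_mod_cast h5.symm

lemma pos_cf_nonneg {i : ι} (hi : b.IsPos i) (j : b.support) : 0 ≤ cf b j (P.root i) := by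
  obtain ⟨n, hn⟩ := pos_cf b hi j
  rw [hn]
  positivity

lemma cf_opp (i : ι) (j : b.support) : cf b j (P.root (s P i • i)) = - cf b j (P.root i) := by
  rw [root_opp, map_neg]

lemma pos_iff_cf (i : ι) : b.IsPos i ↔ ∀ j, 0 ≤ cf b j (P.root i) := by
  refine ⟨fun h j => pos_cf_nonneg b h j, fun h => ?_⟩
  by_contra hn
  rw [← opp_pos_iff] at hn
  have h1 : ∀ j, cf b j (P.root i) = 0 := by
    intro j
    have := pos_cf_nonneg b hn j
    rw [cf_opp] at this
    linarith [h j]
  apply P.ne_zero i
  exact cf_ext b fun j => by rw [h1, map_zero]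

lemma pos_of_cf_pos {i : ι} (j : b.support) (h : 0 < cf b j (P.root i)) : b.IsPos i := by
  by_contra hn
  rw [← opp_pos_iff] at hn
  have := pos_cf_nonneg b hn j
  rw [cf_opp] at this
  linarith

/-- Induction on positive roots. -/
theorem pos_ind {p : ι → Prop} (h1 : ∀ i ∈ b.support, p i)
    (h2 : ∀ i, ∀ j ∈ b.support, b.IsPos i → i ≠ j → b.IsPos (s P j • i) →
      P.pairingIn ℤ j i < 0 → p i → p (s P j • i))
    {i : ι} (hi : b.IsPos i) : p i := by
  generalize hN : (b.height i).natAbs = n
  induction n using Nat.strongRecOn generalizing i with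
  | ind n ih =>
    obtain ⟨j, hj, hj'⟩ := hi.exists_mem_support_pos_pairingIn
    rcases eq_or_ne i j with rfl | hij
    · exact h1 i hj
    have hk : b.IsPos (s P j • i) := pos_s hi hj hij
    have hj2 : 0 < P.pairingIn ℤ i j := by rwa [P.zero_lt_pairingIn_iff'] at hj'
    have hlt : (b.height (s P j • i)).natAbs < n := by
      suffices b.height (s P j • i) < b.height i by
        have h3 : 0 < b.height (s P j • i) := hk
        have h4 : 0 < b.height i := hi
        omega
      have := P.reflection_apply_root' ℤ (i := j) (j := i)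
      rw [← root_reflectionPerm, sub_eq_add_neg, ← neg_smul] at this
      have h5 : b.height (s P j • i) = b.height i + (-P.pairingIn ℤ i j) • b.height j :=
        b.height_add_zsmul this
      rw [h5, Base.height_one_of_mem_support hj]
      simp only [smul_eq_mul, mul_one]
      omega
    have h6 := ih _ hlt hk rfl
    have h7 := h2 (s P j • i) j hj hk ?_ ?_ ?_ h6
    · rwa [s_s_smul_idx] at h7
    · intro he
      have : i = s P j • j := by
        rw [← s_s_smul_idx (P := P) j i, he]
      rw [this, opp_pos_iff] at hi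
      exact hi (Base.isPos_of_mem_support hj)
    · rwa [s_s_smul_idx]
    · have h8 : P.pairingIn ℤ j (s P j • i) = - P.pairingIn ℤ j i := by
        have h9 : P.pairing j (s P j • i) = - P.pairing j i := by
          rw [s_smul_idx, P.pairing_reflectionPerm, P.pairing_reflectionPerm_self_left]
        rw [← P.algebraMap_pairingIn ℤ, ← P.algebraMap_pairingIn ℤ] at h9
        simp only [eq_intCast] at h9
        exact_mod_cast h9
      omega

lemma flip_pos {i : ι} (hi : b.IsPos i) : b.flip.IsPos i := by
  refine pos_ind b (p := fun i => b.flip.IsPos i) ?_ ?_ hi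
  · intro j hj
    exact Base.isPos_of_mem_support (b := b.flip) hj
  · intro i j hj hi hij _ _ hp
    exact Base.IsPos.reflectionPerm (P := P.flip) hp hj hij

lemma pos_ccf {i : ι} (hi : b.IsPos i) (j : b.support) :
    ∃ n : ℕ, ccf b j (P.coroot i) = n :=
  pos_cf (P := P.flip) b.flip (flip_pos b hi) j

lemma pos_ccf_nonneg {i : ι} (hi : b.IsPos i) (j : b.support) : 0 ≤ ccf b j (P.coroot i) := by
  obtain ⟨n, hn⟩ := pos_ccf b hi j
  rw [hn]
  positivity

lemma ccf_opp (i : ι) (j : b.support) :
    ccf b j (P.coroot (s P i • i)) = - ccf b j (P.coroot i) := by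
  rw [coroot_opp, map_neg]

/-- The fundamental weights. -/
def om (j : b.support) : M := P.toPerfPair.symm (ccf b j)

lemma om_pair (j : b.support) (x : N) : P.toLinearMap (om b j) x = ccf b j x := by
  have : P.toPerfPair (om b j) = ccf b j := by
    rw [om, LinearEquiv.apply_symm_apply]
  rw [← this]
  rfl

lemma pair_ext {x y : M} (h : ∀ z : N, P.toLinearMap x z = P.toLinearMap y z) : x = y := by
  apply P.toPerfPair.injective
  ext z
  exact h z

lemma pair_om_simple (j l : b.support) :
    P.toLinearMap (om b j) (P.coroot l) = if l = j then 1 else 0 := by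
  rw [om_pair, ccf_simple]

lemma s_om {j l : b.support} (h : l ≠ j) : s P l • om b j = om b j := by
  rw [s_smul_eq, pair_om_simple, if_neg h, zero_smul, sub_zero]

lemma s_om_self (j : b.support) : s P j • om b j = om b j - P.root j := by
  rw [s_smul_eq, pair_om_simple, if_pos rfl, one_smul]

end

end Pool.Agent.CSMS
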